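import Mathlib

set_option autoImplicit false

/-!
# Arithmetic of balanced sums
-/

namespace Pool.Agent.H24.FD

open Finset

/-- The sum of `⌊i / k⌋` for `i < N`: the least number of pairs inside the blocks of a partition of `N`
points into `k` blocks. -/
def T (k N : ℕ) : ℕ := ∑ i ∈ range N, i / k

lemma T_zero (k : ℕ) : T k 0 = 0 := by simp [T]

lemma T_succ (k N : ℕ) : T k (N + 1) = T k N + N / k := by
  simp [T, sum_range_succ]

lemma choose_two_succ (b : ℕ) : (b + 1).choose 2 = b.choose 2 + b := by
  rw [Nat.choose_succ_succ' b 1, Nat.choose_one_right]; ring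

/-- convexity -/
lemma T_le (k : ℕ) (hk : 1 ≤ k) : ∀ (N : ℕ) (b : Fin k → ℕ), ∑ i, b i = N →
    T k N ≤ ∑ i, (b i).choose 2 := by
  intro N
  induction N with
  | zero => intro b _; simp [T_zero]
  | succ N ih =>
    intro b hb
    -- a largest entry
    obtain ⟨i, hi⟩ : ∃ i, N / k + 1 ≤ b i := by
      by_contra hcon
      push Not at hcon
      have h1 : ∑ i, b i ≤ ∑ _i : Fin k, N / k :=
        sum_le_sum fun i _ => by have := hcon i; omega
      rw [sum_const, card_univ, Fintype.card_fin, smul_eq_mul, hb] at h1
      have := Nat.mul_div_le N k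
      omega
    obtain ⟨c, hc⟩ : ∃ c, b i = c + 1 := ⟨b i - 1, by
      generalize N / k = q at hi
      omega⟩
    have h2 := ih (Function.update b i c) (by
      have h3 : ∑ j, Function.update b i c j = c + ∑ j ∈ univ.erase i, b j := by
        rw [← add_sum_erase _ _ (mem_univ i), Function.update_self]
        congr 1
        exact sum_congr rfl fun j hj => Function.update_of_ne (ne_of_mem_erase hj) _ _
      rw [← add_sum_erase _ _ (mem_univ i), hc] at hb
      omega)
    have h3 : ∑ j, (Function.update b i c j).choose 2
        = c.choose 2 + ∑ j ∈ univ.erase i, (b j).choose 2 := by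
      rw [← add_sum_erase _ _ (mem_univ i), Function.update_self]
      congr 1
      exact sum_congr rfl fun j hj => by rw [Function.update_of_ne (ne_of_mem_erase hj)]
    rw [h3] at h2
    rw [← add_sum_erase _ _ (mem_univ i), hc, choose_two_succ, T_succ]
    omega

/-- balanced sums -/
lemma exists_balanced (k : ℕ) (hk : 1 ≤ k) (N : ℕ) : ∃ b : Fin k → ℕ, ∑ i, b i = N ∧
    (∀ i, N / k ≤ b i) ∧ (∀ i, b i ≤ N / k + 1) ∧ ∑ i, (b i).choose 2 = T k N := by
  induction N with
  | zero => exact ⟨fun _ => 0, by simp, by simp, by simp, by simp [T_zero]⟩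
  | succ N ih =>
    obtain ⟨b, hb, hlo, hhi, hT⟩ := ih
    obtain ⟨i, hi⟩ : ∃ i, b i = N / k := by
      by_contra hcon
      push Not at hcon
      have h1 : ∑ _i : Fin k, (N / k + 1) ≤ ∑ i, b i :=
        sum_le_sum fun i _ => by have := hcon i; have := hlo i; omega
      rw [sum_const, card_univ, Fintype.card_fin, smul_eq_mul, hb] at h1
      have h2 := Nat.lt_mul_div_succ N (by omega : 0 < k)
      omega
    have e1 : ∑ j, Function.update b i (N / k + 1) j = (N / k + 1) + ∑ j ∈ univ.erase i, b j := by
      rw [← add_sum_erase _ _ (mem_univ i), Function.update_self]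
      congr 1
      exact sum_congr rfl fun j hj => Function.update_of_ne (ne_of_mem_erase hj) _ _
    have hsum : ∑ j, Function.update b i (N / k + 1) j = N + 1 := by
      rw [e1]
      rw [← add_sum_erase _ _ (mem_univ i), hi] at hb
      omega
    have hup : ∀ j, Function.update b i (N / k + 1) j ≤ N / k + 1 := by
      intro j
      by_cases hj : j = i
      · subst hj; rw [Function.update_self]
      · rw [Function.update_of_ne hj]; exact hhi j
    have hlow : ∀ j, N / k ≤ Function.update b i (N / k + 1) j := by
      intro j
      by_cases hj : j = i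
      · subst hj; rw [Function.update_self]; omega
      · rw [Function.update_of_ne hj]; exact hlo j
    have hdiv : (N + 1) / k = N / k ∨ ((N + 1) / k = N / k + 1 ∧ N + 1 = k * (N / k + 1)) := by
      rcases Nat.lt_or_ge (N + 1) (k * (N / k + 1)) with h | h
      · left
        apply Nat.div_eq_of_lt_le
        · have := Nat.mul_div_le N k
          nlinarith [Nat.mul_comm (N / k) k]
        · nlinarith [Nat.mul_comm (N / k + 1) k]
      · right
        have h2 := Nat.lt_mul_div_succ N (by omega : 0 < k)
        have h3 : N + 1 = k * (N / k + 1) := by omega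
        refine ⟨?_, h3⟩
        rw [h3, Nat.mul_div_cancel_left _ (by omega)]
    refine ⟨Function.update b i (N / k + 1), hsum, ?_, ?_, ?_⟩
    · intro j
      rcases hdiv with h | ⟨h, h'⟩
      · rw [h]; exact hlow j
      · rw [h]
        by_contra hcon
        push Not at hcon
        have : ∑ j, Function.update b i (N / k + 1) j < ∑ _j : Fin k, (N / k + 1) :=
          sum_lt_sum (fun j _ => hup j) ⟨j, mem_univ j, hcon⟩
        rw [hsum, sum_const, card_univ, Fintype.card_fin, smul_eq_mul] at this
        omega
    · intro j
      have := hup j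
      rcases hdiv with h | ⟨h, h'⟩ <;> omega
    · rw [← add_sum_erase _ _ (mem_univ i), hi] at hT
      rw [← add_sum_erase _ _ (mem_univ i), Function.update_self, choose_two_succ, T_succ, ← hT]
      have : ∑ j ∈ univ.erase i, (Function.update b i (N / k + 1) j).choose 2
          = ∑ j ∈ univ.erase i, (b j).choose 2 :=
        sum_congr rfl fun j hj => by rw [Function.update_of_ne (ne_of_mem_erase hj)]
      rw [this]
      ring

/-- dropping a block -/
lemma T_le_drop (k : ℕ) (hk : 1 ≤ k) (n s : ℕ) : T (k + 1) (n + s) ≤ T k n + s.choose 2 := by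
  obtain ⟨b, hb, -, -, hT⟩ := exists_balanced k hk n
  have h := T_le (k + 1) (by omega) (n + s) (Fin.cons s b) (by
    rw [Fin.sum_univ_succ]
    simp only [Fin.cons_zero, Fin.cons_succ]
    omega)
  rw [Fin.sum_univ_succ] at h
  simp only [Fin.cons_zero, Fin.cons_succ] at h
  omega

lemma hermite (k : ℕ) (hk : 1 ≤ k) (N : ℕ) : ∑ i ∈ range k, (N + i) / k = N := by
  induction N with
  | zero =>
    rw [sum_eq_zero]
    intro i hi
    rw [zero_add]
    exact Nat.div_eq_of_lt (mem_range.1 hi)
  | succ N ih =>
    have h1 : ∑ i ∈ range (k + 1), (N + i) / k = N + (N + k) / k := by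
      rw [sum_range_succ, ih]
    rw [sum_range_succ'] at h1
    have h2 : ∑ i ∈ range k, (N + 1 + i) / k = ∑ i ∈ range k, (N + (i + 1)) / k :=
      sum_congr rfl fun i _ => by congr 1; ring
    rw [h2]
    rw [Nat.add_div_right _ (by omega)] at h1
    simp only [add_zero] at h1
    omega

lemma T_add (k : ℕ) (hk : 1 ≤ k) (N : ℕ) : T k (N + k) = T k N + N := by
  unfold T
  rw [sum_range_add, hermite k hk]

open Classical in
/-- the number of edges of the Turán graph -/
lemma T_turan (k : ℕ) (hk : 1 ≤ k) : ∀ N : ℕ,
    (SimpleGraph.turanGraph N k).edgeFinset.card + T k N = N.choose 2 := by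
  intro N
  induction N using Nat.strong_induction_on with
  | _ N ih =>
    rcases Nat.lt_or_ge N k with h | h
    · have h1 : T k N = 0 := by
        unfold T
        exact sum_eq_zero fun i hi => Nat.div_eq_of_lt (by have := mem_range.1 hi; omega)
      have h2 : SimpleGraph.turanGraph N k = ⊤ := SimpleGraph.turanGraph_eq_top.2 (Or.inr h.le)
      have h3 : (SimpleGraph.turanGraph N k).edgeFinset.card = (⊤ : SimpleGraph (Fin N)).edgeFinset.card := by
        congr 1
        ext e
        simp only [SimpleGraph.mem_edgeFinset, h2]
      rw [h1, add_zero, h3, SimpleGraph.card_edgeFinset_top_eq_card_choose_two, Fintype.card_fin]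
    · obtain ⟨M, rfl⟩ : ∃ M, N = M + k := ⟨N - k, by omega⟩
      have h1 := ih M (by omega)
      have h2 := SimpleGraph.card_edgeFinset_turanGraph_add (n := M) (r := k)
      have h3 : (SimpleGraph.turanGraph (M + k) k).edgeFinset.card
          = (SimpleGraph.turanGraph M k).edgeFinset.card + M * (k - 1) + k.choose 2 := by
        have e1 : (SimpleGraph.turanGraph (M + k) k).edgeFinset.card
            = (SimpleGraph.turanGraph (M + k) k).edgeSet.ncard := by
          rw [← SimpleGraph.coe_edgeFinset, Set.ncard_coe_finset]
        have e2 : (SimpleGraph.turanGraph M k).edgeFinset.card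
            = (SimpleGraph.turanGraph M k).edgeSet.ncard := by
          rw [← SimpleGraph.coe_edgeFinset, Set.ncard_coe_finset]
        rw [e1, e2]
        rw [← SimpleGraph.coe_edgeFinset, ← SimpleGraph.coe_edgeFinset, Set.ncard_coe_finset,
          Set.ncard_coe_finset]
        exact h2
      have h4 : (M + k).choose 2 = M.choose 2 + k.choose 2 + M * k := by
        clear h1 h2 h3 ih h
        induction k with
        | zero => simp
        | succ k ih =>
          rcases Nat.eq_zero_or_pos k with rfl | hk0
          · rw [choose_two_succ]; simp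
          · rw [← add_assoc, choose_two_succ, ih hk0, choose_two_succ]; ring
      rw [h3, T_add k hk, h4]
      obtain ⟨j, rfl⟩ : ∃ j, k = j + 1 := ⟨k - 1, by omega⟩
      simp only [Nat.add_sub_cancel]
      have : M * (j + 1) = M * j + M := by ring
      omega

end Pool.Agent.H24.FD
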