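import Mathlib
import Pool.Agent.H24.FD.A

set_option autoImplicit false

/-!
# The upper bound for the number of edges of a graph with many colourings
-/

namespace Pool.Agent.H24.FD

open Finset

variable {V : Type*}

/-- The equivalence relation `r` is a colouring of `G` with at most `k` colours: there are at most `k`
classes, and they are anticliques. -/
def IsCol (G : SimpleGraph V) (k : ℕ) (r : Setoid V) : Prop :=
  Nat.card (Quotient r) ≤ k ∧ ∀ x y, r x y → ¬ G.Adj x y

/-- the number of colourings -/
noncomputable def colNum (G : SimpleGraph V) (k : ℕ) : ℕ := Nat.card {r : Setoid V // IsCol G k r}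

lemma finite_setoid (V : Type*) [Finite V] : Finite (Setoid V) := by
  refine Finite.of_injective (fun r : Setoid V => fun a b => r a b) ?_
  intro r r' h
  ext a b
  exact iff_of_eq (congrFun (congrFun h a) b)

/-- A clique of `k` vertices meets every class of a colouring exactly once. -/
lemma exists_rep [Finite V] {G : SimpleGraph V} {k : ℕ} {x : Fin k → V}
    (hx : ∀ i j, i ≠ j → G.Adj (x i) (x j)) {r : Setoid V} (hr : IsCol G k r) (y : V) :
    ∃ i, r (x i) y := by
  classical
  have hinj : Function.Injective (fun i : Fin k => (Quotient.mk r (x i))) := by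
    intro i j hij
    by_contra hne
    exact hr.2 _ _ (Quotient.exact hij) (hx i j hne)
  haveI : Finite (Quotient r) := Quotient.finite _
  haveI : Fintype (Quotient r) := Fintype.ofFinite _
  have hcard : Fintype.card (Quotient r) ≤ Fintype.card (Fin k) := by
    rw [Fintype.card_fin, ← Nat.card_eq_fintype_card]; exact hr.1
  have hbij := (Fintype.bijective_iff_injective_and_card (fun i : Fin k => (Quotient.mk r (x i)))).2
    ⟨hinj, le_antisymm (Fintype.card_le_of_injective _ hinj) hcard⟩
  obtain ⟨i, hi⟩ := hbij.2 (Quotient.mk r y)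
  exact ⟨i, Quotient.exact hi⟩

/-- the number of colourings is at most the product of the sizes of the lists -/
lemma colNum_le_prod [Fintype V] {G : SimpleGraph V} {k : ℕ} {x : Fin k → V}
    (hx : ∀ i j, i ≠ j → G.Adj (x i) (x j)) :
    colNum G k ≤ ∏ y : V, Nat.card {i : Fin k // ¬ G.Adj (x i) y} := by
  classical
  unfold colNum
  rw [← Nat.card_pi]
  refine Nat.card_le_card_of_injective
    (fun r : {r : Setoid V // IsCol G k r} => fun y : V =>
      (⟨(exists_rep hx r.2 y).choose, r.2.2 _ _ (exists_rep hx r.2 y).choose_spec⟩ :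
        {i : Fin k // ¬ G.Adj (x i) y})) ?_
  intro r r' h
  apply Subtype.ext
  ext a b
  have key : ∀ (q : {r : Setoid V // IsCol G k r}) (a b : V),
      q.1 a b ↔ (exists_rep hx q.2 a).choose = (exists_rep hx q.2 b).choose := by
    intro q a b
    have ha := (exists_rep hx q.2 a).choose_spec
    have hb := (exists_rep hx q.2 b).choose_spec
    constructor
    · intro hab
      by_contra hne
      exact q.2.2 _ _ (q.1.trans ha (q.1.trans hab (q.1.symm hb))) (hx _ _ hne)
    · intro he
      rw [he] at ha
      exact q.1.trans (q.1.symm ha) hb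
  have hh : ∀ y, (exists_rep hx r.2 y).choose = (exists_rep hx r'.2 y).choose := by
    intro y
    have := congrFun h y
    exact congrArg Subtype.val this
  rw [key r a b, key r' a b, hh a, hh b]

/-- restriction to the complement of a vertex of the clique is injective on colourings -/
lemma colNum_le_restrict [Fintype V] {G : SimpleGraph V} {k : ℕ} {x : Fin k → V}
    (hx : ∀ i j, i ≠ j → G.Adj (x i) (x j)) (i : Fin k) :
    colNum G k ≤ colNum (G.induce ({x i}ᶜ : Set V)) k := by
  classical
  unfold colNum
  have hcol : ∀ r : {r : Setoid V // IsCol G k r},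
      IsCol (G.induce ({x i}ᶜ : Set V)) k (r.1.comap Subtype.val) := by
    intro r
    constructor
    · refine le_trans ?_ r.2.1
      refine Nat.card_le_card_of_injective
        (Quotient.map' (s₁ := r.1.comap Subtype.val) (s₂ := r.1)
          (Subtype.val : ({x i}ᶜ : Set V) → V) (fun a b h => h)) ?_
      intro a b
      induction a using Quotient.inductionOn with
      | _ a =>
        induction b using Quotient.inductionOn with
        | _ b =>
          intro hab
          exact Quotient.sound (Quotient.exact hab : r.1 a.1 b.1)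
    · intro a b hab
      rw [SimpleGraph.comap_adj]
      exact r.2.2 _ _ hab
  haveI := finite_setoid ({x i}ᶜ : Set V)
  refine Nat.card_le_card_of_injective
    (fun r : {r : Setoid V // IsCol G k r} =>
      (⟨r.1.comap Subtype.val, hcol r⟩ :
        {r : Setoid ({x i}ᶜ : Set V) // IsCol (G.induce ({x i}ᶜ : Set V)) k r})) ?_
  intro r r' h
  have h1 : r.1.comap (Subtype.val : ({x i}ᶜ : Set V) → V) = r'.1.comap Subtype.val :=
    congrArg Subtype.val h
  have h2 : ∀ a b : V, a ≠ x i → b ≠ x i → (r.1 a b ↔ r'.1 a b) := by
    intro a b ha hb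
    have h3 := congrArg (fun s : Setoid ({x i}ᶜ : Set V) => s ⟨a, ha⟩ ⟨b, hb⟩) h1
    exact iff_of_eq h3
  -- membership in the class of `x i`
  have key : ∀ (q : {r : Setoid V // IsCol G k r}) (a : V),
      q.1 (x i) a ↔ ∀ j, j ≠ i → ¬ q.1 (x j) a := by
    intro q a
    constructor
    · intro h3 j hj h4
      exact q.2.2 _ _ (q.1.trans h4 (q.1.symm h3)) (hx j i hj)
    · intro h3
      obtain ⟨j, hj⟩ := exists_rep hx q.2 a
      by_cases hji : j = i
      · rw [← hji]; exact hj
      · exact absurd hj (h3 j hji)
  have hxi : ∀ j, j ≠ i → x j ≠ x i := fun j hj => (hx j i hj).ne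
  have h5 : ∀ a, a ≠ x i → (r.1 (x i) a ↔ r'.1 (x i) a) := by
    intro a ha
    rw [key r a, key r' a]
    refine forall_congr' fun j => forall_congr' fun hj => ?_
    rw [h2 (x j) a (hxi j hj) ha]
  apply Subtype.ext
  ext a b
  by_cases ha : a = x i
  · by_cases hb : b = x i
    · subst ha
      rw [hb]
      exact ⟨fun _ => r'.1.refl _, fun _ => r.1.refl _⟩
    · rw [ha]; exact h5 b hb
  · by_cases hb : b = x i
    · rw [hb]
      constructor
      · intro h; exact r'.1.symm ((h5 a ha).1 (r.1.symm h))
      · intro h; exact r.1.symm ((h5 a ha).2 (r'.1.symm h))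
    · exact h2 a b ha hb

lemma prod_le_two_pow {ι : Type*} (s : Finset ι) (f : ι → ℕ) (hf : ∀ i ∈ s, 1 ≤ f i) :
    ∏ i ∈ s, f i ≤ 2 ^ (∑ i ∈ s, f i - s.card) := by
  classical
  have h : ∏ i ∈ s, f i ≤ 2 ^ (∑ i ∈ s, (f i - 1)) := by
    rw [← prod_pow_eq_pow_sum]
    refine prod_le_prod' fun i hi => ?_
    have h1 := hf i hi
    obtain ⟨c, hc⟩ : ∃ c, f i = c + 1 := ⟨f i - 1, by omega⟩
    rw [hc, Nat.add_sub_cancel]
    exact Nat.lt_two_pow_self
  have h2 : ∑ i ∈ s, (f i - 1) = ∑ i ∈ s, f i - s.card := by
    rw [sum_tsub_distrib s hf, sum_const, smul_eq_mul, mul_one]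
  rwa [h2] at h

lemma card_edge_inst {W : Type*} (H : SimpleGraph W) (i1 i2 : Fintype H.edgeSet) :
    (@SimpleGraph.edgeFinset _ H i1).card = (@SimpleGraph.edgeFinset _ H i2).card := by
  rw [Subsingleton.elim i1 i2]

open Classical in
/-- **The upper bound.** -/
theorem edge_bound (k : ℕ) (hk : 1 ≤ k) : ∀ (n : ℕ) (V : Type) [Fintype V], Fintype.card V = n →
    ∀ (G : SimpleGraph V) (s : ℕ), 1 ≤ colNum G k → s ≤ Nat.clog 2 (colNum G k) →
    G.edgeFinset.card + T k (n + s) ≤ n.choose 2 + s.choose 2 := by
  intro n
  induction n with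
  | zero =>
    intro V _ hV G s hp hs
    haveI : IsEmpty V := Fintype.card_eq_zero_iff.1 hV
    have h1 : colNum G k ≤ 1 := by
      unfold colNum
      haveI : Subsingleton (Setoid V) := ⟨fun a b => Setoid.ext fun x => isEmptyElim x⟩
      haveI := finite_setoid V
      exact Finite.card_le_one_iff_subsingleton.2 inferInstance
    have h2 : s = 0 := by
      have : colNum G k = 1 := le_antisymm h1 hp
      rw [this] at hs
      simpa using hs
    subst h2
    have h3 : G.edgeFinset.card = 0 := by
      rw [Finset.card_eq_zero, Finset.eq_empty_iff_forall_notMem]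
      intro e
      induction e using Sym2.ind with
      | _ a b => exact isEmptyElim a
    rw [h3, T_zero]
    simp
  | succ n ih =>
    intro V _ hV G s hp hs
    by_cases hcl : G.CliqueFree k
    · -- Turán
      have hk2 : k ≠ 1 := by
        rintro rfl
        rw [SimpleGraph.cliqueFree_one] at hcl
        rw [Fintype.card_eq_zero_iff.2 hcl] at hV
        omega
      obtain ⟨j, rfl⟩ : ∃ j, k = j + 1 := ⟨k - 1, by omega⟩
      have h1 := SimpleGraph.CliqueFree.card_edgeFinset_le (r := j) (G := G) hcl
      have h2 := T_turan j (by omega) (n + 1)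
      rw [SimpleGraph.card_edgeFinset_turanGraph] at h2
      have h3 := T_le_drop j (by omega) (n + 1) s
      simp only [hV] at h1
      omega
    · -- a clique
      rw [SimpleGraph.not_cliqueFree_iff] at hcl
      obtain ⟨f⟩ := hcl
      set x : Fin k → V := fun i => f i with hxdef
      have hx : ∀ i j, i ≠ j → G.Adj (x i) (x j) := fun i j hij =>
        f.toHom.map_adj hij
      have hA : ∀ y : V, 1 ≤ Nat.card {i : Fin k // ¬ G.Adj (x i) y} := by
        intro y
        have : Nonempty {r : Setoid V // IsCol G k r} := by
          by_contra hne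
          rw [not_nonempty_iff] at hne
          unfold colNum at hp
          rw [Nat.card_eq_zero.2 (Or.inl hne)] at hp
          omega
        obtain ⟨r⟩ := this
        obtain ⟨i, hi⟩ := exists_rep hx r.2 y
        haveI : Nonempty {i : Fin k // ¬ G.Adj (x i) y} := ⟨⟨i, r.2.2 _ _ hi⟩⟩
        exact Nat.card_pos
      have h1 : colNum G k ≤ 2 ^ (∑ y : V, Nat.card {i : Fin k // ¬ G.Adj (x i) y} - (n + 1)) := by
        have := prod_le_two_pow univ (fun y : V => Nat.card {i : Fin k // ¬ G.Adj (x i) y})
          fun y _ => hA y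
        rw [card_univ, hV] at this
        exact (colNum_le_prod hx).trans this
      have h2 : s ≤ ∑ y : V, Nat.card {i : Fin k // ¬ G.Adj (x i) y} - (n + 1) :=
        hs.trans (Nat.clog_le_of_le_pow h1)
      have h3 : ∑ y : V, Nat.card {i : Fin k // ¬ G.Adj (x i) y}
          = ∑ i : Fin k, (univ.filter fun y => ¬ G.Adj (x i) y).card := by
        simp only [Nat.card_eq_fintype_card, Fintype.card_subtype, card_filter]
        exact sum_comm
      have hge : n + 1 ≤ ∑ y : V, Nat.card {i : Fin k // ¬ G.Adj (x i) y} := by
        have : ∑ _y : V, 1 ≤ ∑ y : V, Nat.card {i : Fin k // ¬ G.Adj (x i) y} :=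
          sum_le_sum fun y _ => hA y
        rwa [sum_const, card_univ, hV, smul_eq_mul, mul_one] at this
      obtain ⟨i, hi⟩ : ∃ i : Fin k, (n + s) / k + 1 ≤ (univ.filter fun y => ¬ G.Adj (x i) y).card := by
        by_contra hcon
        push Not at hcon
        have h4 : ∑ i : Fin k, (univ.filter fun y => ¬ G.Adj (x i) y).card
            ≤ ∑ _i : Fin k, (n + s) / k := by
          refine sum_le_sum fun i _ => ?_
          have := hcon i
          generalize (n + s) / k = q at this ⊢
          omega
        rw [sum_const, card_univ, Fintype.card_fin, smul_eq_mul, ← h3] at h4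
        have := Nat.mul_div_le (n + s) k
        omega
      have h5 : G.degree (x i) + (univ.filter fun y => ¬ G.Adj (x i) y).card = n + 1 := by
        rw [← SimpleGraph.card_neighborFinset_eq_degree, SimpleGraph.neighborFinset_eq_filter,
          card_filter_add_card_filter_not, card_univ, hV]
      have h6 := SimpleGraph.card_edgeFinset_induce_compl_singleton G (x i)
      have hcard : Fintype.card ({x i}ᶜ : Set V) = n := by
        rw [Fintype.card_compl_set, hV]
        simp
      have h7 := colNum_le_restrict hx i
      have h8 := ih ({x i}ᶜ : Set V) hcard (G.induce ({x i}ᶜ : Set V)) s (hp.trans h7)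
        (hs.trans (Nat.clog_mono_right 2 h7))
      have h9 : G.degree (x i) ≤ G.edgeFinset.card := by
        rw [← SimpleGraph.card_incidenceFinset_eq_degree]
        exact card_le_card (SimpleGraph.incidenceFinset_subset G (x i))
      have h10 : n + 1 + s = (n + s) + 1 := by ring
      rw [h10, T_succ, choose_two_succ]
      have h8 : (G.edgeFinset.card - G.degree (x i)) + T k (n + s) ≤ n.choose 2 + s.choose 2 := by
        rw [← SimpleGraph.card_edgeFinset_deleteIncidenceSet, ← h6]
        exact le_trans (le_of_eq (congrArg (· + T k (n + s)) (card_edge_inst _ _ _))) h8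
      generalize (n + s) / k = q at *
      omega

end Pool.Agent.H24.FD
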