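import Mathlib
import Pool.Agent.H24.FD.B

set_option autoImplicit false

/-!
# Graphs with many colourings and many edges
-/

namespace Pool.Agent.H24.FD

open Finset

/-- a function with prescribed fibres -/
lemma exists_fibres {ι : Type*} [Fintype ι] [DecidableEq ι] (m : ι → ℕ) (n : ℕ) (hm : ∑ i, m i = n) :
    ∃ τ : Fin n → ι, ∀ i, (univ.filter fun v => τ v = i).card = m i := by
  classical
  have hc : Fintype.card (Σ i : ι, Fin (m i)) = n := by
    rw [Fintype.card_sigma]
    simp only [Fintype.card_fin]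
    exact hm
  let e : Fin n ≃ (Σ i : ι, Fin (m i)) := (Fintype.equivFinOfCardEq hc).symm
  refine ⟨fun v => (e v).1, fun i => ?_⟩
  have h1 : (univ.filter fun v => (e v).1 = i).card
      = (univ.filter fun p : (Σ i : ι, Fin (m i)) => p.1 = i).card := by
    refine Finset.card_bij (fun v _ => e v) ?_ ?_ ?_
    · intro v hv; simpa using hv
    · intro v _ w _ h; exact e.injective h
    · intro p hp; exact ⟨e.symm p, by simpa using hp, by simp⟩
  rw [h1]
  have h2 : (univ.filter fun p : (Σ i : ι, Fin (m i)) => p.1 = i)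
      = (univ : Finset (Fin (m i))).map (Function.Embedding.sigmaMk i) := by
    ext ⟨j, x⟩
    simp only [mem_filter, mem_univ, true_and, mem_map, Function.Embedding.sigmaMk_apply]
    constructor
    · rintro rfl; exact ⟨x, rfl⟩
    · rintro ⟨y, hy⟩
      have := congrArg Sigma.fst hy
      exact this.symm
  rw [h2, card_map, card_univ, Fintype.card_fin]

section
variable {n k : ℕ} (τ : Fin n → Option (Fin k)) (i₀ i₁ : Fin k)

/-- the vertex `v` may have the colour `i` -/
def In (v : Fin n) (i : Fin k) : Prop := τ v = some i ∨ (τ v = none ∧ (i = i₀ ∨ i = i₁))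

/-- two vertices are adjacent if they have no common possible colour -/
def Gr : SimpleGraph (Fin n) where
  Adj v w := ∀ i, ¬ (In τ i₀ i₁ v i ∧ In τ i₀ i₁ w i)
  symm := ⟨fun v w h i hi => h i ⟨hi.2, hi.1⟩⟩
  loopless := ⟨fun v h => by
    rcases hv : τ v with _ | i
    · exact h i₀ ⟨Or.inr ⟨hv, Or.inl rfl⟩, Or.inr ⟨hv, Or.inl rfl⟩⟩
    · exact h i ⟨Or.inl hv, Or.inl hv⟩⟩

open Classical in
/-- the colouring in which the movers in `e` have the first colour -/
noncomputable def cl (e : Finset (Fin n)) (v : Fin n) : Fin k :=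
  (τ v).getD (if v ∈ e then i₀ else i₁)

lemma In_cl (e : Finset (Fin n)) (v : Fin n) : In τ i₀ i₁ v (cl τ i₀ i₁ e v) := by
  classical
  unfold cl
  rcases hv : τ v with _ | i
  · right
    refine ⟨hv, ?_⟩
    simp only [Option.getD_none]
    split_ifs
    · exact Or.inl rfl
    · exact Or.inr rfl
  · left; simp [hv]

lemma isCol_cl (e : Finset (Fin n)) : IsCol (Gr τ i₀ i₁) k (Setoid.ker (cl τ i₀ i₁ e)) := by
  constructor
  · have h : Function.Injective (Setoid.kerLift (cl τ i₀ i₁ e)) := Setoid.kerLift_injective _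
    have := Nat.card_le_card_of_injective _ h
    rwa [Nat.card_eq_fintype_card (α := Fin k), Fintype.card_fin] at this
  · intro x y hxy h
    rw [Setoid.ker_def] at hxy
    refine h (cl τ i₀ i₁ e x) ⟨In_cl τ i₀ i₁ e x, ?_⟩
    rw [hxy]
    exact In_cl τ i₀ i₁ e y

lemma colNum_Gr (hne : i₀ ≠ i₁) (h0 : ∃ v, τ v = some i₀) {s : ℕ}
    (hs : (univ.filter fun v => τ v = none).card = s) : 2 ^ s ≤ colNum (Gr τ i₀ i₁) k := by
  classical
  obtain ⟨v₀, hv₀⟩ := h0
  set M := univ.filter fun v => τ v = none with hM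
  rw [← hs, ← card_powerset]
  unfold colNum
  haveI := finite_setoid (Fin n)
  have hc : M.powerset.card = Nat.card {e // e ∈ M.powerset} := by
    rw [Nat.card_eq_fintype_card, Fintype.card_coe]
  rw [hc]
  refine Nat.card_le_card_of_injective (fun e : {e // e ∈ M.powerset} =>
    (⟨Setoid.ker (cl τ i₀ i₁ e.1), isCol_cl τ i₀ i₁ e.1⟩ :
      {r : Setoid (Fin n) // IsCol (Gr τ i₀ i₁) k r})) ?_
  have key : ∀ e : {e // e ∈ M.powerset}, ∀ v, τ v = none →
      (v ∈ e.1 ↔ Setoid.ker (cl τ i₀ i₁ e.1) v v₀) := by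
    intro e v hv
    rw [Setoid.ker_def]
    unfold cl
    rw [hv, hv₀]
    simp only [Option.getD_none, Option.getD_some]
    split_ifs with h
    · simp [h]
    · simp [h, hne.symm]
  intro e e' h
  have h1 : Setoid.ker (cl τ i₀ i₁ e.1) = Setoid.ker (cl τ i₀ i₁ e'.1) := congrArg Subtype.val h
  apply Subtype.ext
  ext v
  have hM' : ∀ (f : {e // e ∈ M.powerset}), v ∈ f.1 → τ v = none := by
    intro f hf
    have := mem_powerset.1 f.2 hf
    rw [hM, mem_filter] at this
    exact this.2
  constructor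
  · intro hv
    have hn := hM' e hv
    rw [key e' v hn, ← h1, ← key e v hn]
    exact hv
  · intro hv
    have hn := hM' e' hv
    rw [key e v hn, h1, ← key e' v hn]
    exact hv

open Classical in
lemma edges_Gr (hne : i₀ ≠ i₁) (b : Fin k → ℕ) {s : ℕ}
    (hs : (univ.filter fun v => τ v = none).card = s)
    (hb : ∀ i, (univ.filter fun v => In τ i₀ i₁ v i).card = b i) :
    n ^ 2 + s ^ 2 ≤ 2 * (Gr τ i₀ i₁).edgeFinset.card + ∑ i, b i ^ 2 := by
  set W : Fin k → Finset (Fin n) := fun i => univ.filter fun v => In τ i₀ i₁ v i with hW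
  set M := univ.filter fun v => τ v = none with hM
  have h1 : 2 * (Gr τ i₀ i₁).edgeFinset.card
      = (univ.filter fun p : Fin n × Fin n => (Gr τ i₀ i₁).Adj p.1 p.2).card :=
    SimpleGraph.two_mul_card_edgeFinset _
  have h2 : (univ.filter fun p : Fin n × Fin n => (Gr τ i₀ i₁).Adj p.1 p.2).card
      + (univ.filter fun p : Fin n × Fin n => ¬ (Gr τ i₀ i₁).Adj p.1 p.2).card = n ^ 2 := by
    rw [card_filter_add_card_filter_not, card_univ, Fintype.card_prod, Fintype.card_fin, sq]
  have h3 : (univ.filter fun p : Fin n × Fin n => ¬ (Gr τ i₀ i₁).Adj p.1 p.2)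
      ⊆ ((W i₀ ×ˢ W i₀) ∪ (W i₁ ×ˢ W i₁)) ∪
        ((univ.erase i₀).erase i₁).biUnion fun i => W i ×ˢ W i := by
    intro p hp
    rw [mem_filter] at hp
    have hp2 := hp.2
    unfold Gr at hp2
    simp only [not_forall, not_not] at hp2
    obtain ⟨i, hi, hi'⟩ := hp2
    have hm : p ∈ W i ×ˢ W i := by
      rw [mem_product]
      exact ⟨by rw [hW]; simp [hi], by rw [hW]; simp [hi']⟩
    by_cases e0 : i = i₀
    · subst e0
      exact mem_union_left _ (mem_union_left _ hm)
    · by_cases e1 : i = i₁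
      · subst e1
        exact mem_union_left _ (mem_union_right _ hm)
      · refine mem_union_right _ (mem_biUnion.2 ⟨i, ?_, hm⟩)
        simp [e0, e1]
  have h4 : (((univ.erase i₀).erase i₁).biUnion (fun i => W i ×ˢ W i)).card
      ≤ ∑ i ∈ (univ.erase i₀).erase i₁, b i ^ 2 := by
    refine card_biUnion_le.trans (sum_le_sum fun i _ => ?_)
    rw [card_product, hb i, sq]
  have h5 : (((W i₀ ×ˢ W i₀) ∪ (W i₁ ×ˢ W i₁)).card) + s ^ 2 ≤ b i₀ ^ 2 + b i₁ ^ 2 := by
    have h6 : M ×ˢ M ⊆ (W i₀ ×ˢ W i₀) ∩ (W i₁ ×ˢ W i₁) := by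
      intro p hp
      rw [mem_product, hM, mem_filter, mem_filter] at hp
      rw [mem_inter, mem_product, mem_product]
      have a1 : p.1 ∈ W i₀ := by rw [hW]; simp [In, hp.1.2]
      have a2 : p.2 ∈ W i₀ := by rw [hW]; simp [In, hp.2.2]
      have a3 : p.1 ∈ W i₁ := by rw [hW]; simp [In, hp.1.2]
      have a4 : p.2 ∈ W i₁ := by rw [hW]; simp [In, hp.2.2]
      exact ⟨⟨a1, a2⟩, a3, a4⟩
    have h7 := card_le_card h6
    rw [card_product, hs] at h7
    have h8 := card_union_add_card_inter (W i₀ ×ˢ W i₀) (W i₁ ×ˢ W i₁)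
    rw [card_product, card_product, hb i₀, hb i₁] at h8
    nlinarith
  have h9 : ∑ i, b i ^ 2 = b i₀ ^ 2 + b i₁ ^ 2 + ∑ i ∈ (univ.erase i₀).erase i₁, b i ^ 2 := by
    rw [← add_sum_erase _ _ (mem_univ i₀), ← add_sum_erase (univ.erase i₀) _
      (mem_erase.2 ⟨hne.symm, mem_univ i₁⟩), add_assoc]
  have h10 := (card_le_card h3).trans (card_union_le _ _)
  omega

end

lemma two_choose (m : ℕ) : 2 * m.choose 2 + m = m ^ 2 := by
  induction m with
  | zero => simp
  | succ m ih => rw [choose_two_succ]; nlinarith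

open Classical in
/-- **The construction.** -/
theorem exists_graph (k n s : ℕ) (hk : 2 ≤ k) (hn : (k - 1) * s + 1 ≤ n) :
    ∃ G : SimpleGraph (Fin n), 2 ^ s ≤ colNum G k ∧
      n.choose 2 + s.choose 2 ≤ G.edgeFinset.card + T k (n + s) := by
  obtain ⟨b, hb, hlo, -, hT⟩ := exists_balanced k (by omega) (n + s)
  have hq : k * s + 1 ≤ n + s := by
    obtain ⟨j, rfl⟩ : ∃ j, k = j + 1 := ⟨k - 1, by omega⟩
    simp only [Nat.add_sub_cancel] at hn
    have : (j + 1) * s = j * s + s := by ring
    omega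
  have hs : ∀ i, s ≤ b i := by
    intro i
    refine le_trans ?_ (hlo i)
    rw [Nat.le_div_iff_mul_le (by omega)]
    rw [mul_comm]
    omega
  obtain ⟨i₀, hi₀⟩ : ∃ i, s + 1 ≤ b i := by
    by_contra hcon
    push Not at hcon
    have h1 : ∑ i, b i ≤ ∑ _i : Fin k, s := sum_le_sum fun i _ => by have := hcon i; omega
    rw [sum_const, card_univ, Fintype.card_fin, smul_eq_mul, hb] at h1
    omega
  obtain ⟨i₁, hi₁⟩ : ∃ i₁ : Fin k, i₁ ≠ i₀ := by
    haveI : Nontrivial (Fin k) := Fin.nontrivial_iff_two_le.2 hk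
    exact exists_ne i₀
  -- fibres
  let m : Option (Fin k) → ℕ := fun o => o.elim s fun i => if i = i₀ ∨ i = i₁ then b i - s else b i
  have hm : ∑ o, m o = n := by
    rw [Fintype.sum_option]
    have h1 : ∑ i : Fin k, m (some i) + 2 * s = n + s := by
      rw [← hb, ← add_sum_erase _ _ (mem_univ i₀), ← add_sum_erase (univ.erase i₀) _
        (mem_erase.2 ⟨hi₁, mem_univ i₁⟩), ← add_sum_erase univ b (mem_univ i₀),
        ← add_sum_erase (univ.erase i₀) b (mem_erase.2 ⟨hi₁, mem_univ i₁⟩)]
      have h2 : ∑ i ∈ (univ.erase i₀).erase i₁, m (some i) = ∑ i ∈ (univ.erase i₀).erase i₁, b i := by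
        refine sum_congr rfl fun i hi => ?_
        rw [mem_erase, mem_erase] at hi
        simp [m, hi.1, hi.2.1]
      rw [h2]
      have h3 : m (some i₀) = b i₀ - s := by simp [m]
      have h4 : m (some i₁) = b i₁ - s := by simp [m]
      have := hs i₀
      have := hs i₁
      omega
    have h5 : m none = s := rfl
    omega
  obtain ⟨τ, hτ⟩ := exists_fibres m n hm
  refine ⟨Gr τ i₀ i₁, colNum_Gr τ i₀ i₁ hi₁.symm ?_ (hτ none), ?_⟩
  · have h1 := hτ (some i₀)
    have h2 : m (some i₀) = b i₀ - s := by simp [m]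
    have h3 : 0 < (univ.filter fun v => τ v = some i₀).card := by rw [h1, h2]; omega
    obtain ⟨v, hv⟩ := card_pos.1 h3
    exact ⟨v, (mem_filter.1 hv).2⟩
  · have hW : ∀ i, (univ.filter fun v => In τ i₀ i₁ v i).card = b i := by
      intro i
      by_cases hi : i = i₀ ∨ i = i₁
      · have h1 : (univ.filter fun v => In τ i₀ i₁ v i)
            = (univ.filter fun v => τ v = some i) ∪ (univ.filter fun v => τ v = none) := by
          ext v
          simp [In, hi]
        rw [h1, card_union_of_disjoint, hτ, hτ]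
        · have h2 : m (some i) = b i - s := by simp [m, hi]
          have h3 : m none = s := rfl
          rw [h2, h3]
          have := hs i
          omega
        · rw [Finset.disjoint_left]
          intro v hv hv'
          rw [mem_filter] at hv hv'
          rw [hv.2] at hv'
          exact absurd hv'.2 (by simp)
      · have h1 : (univ.filter fun v => In τ i₀ i₁ v i) = (univ.filter fun v => τ v = some i) := by
          ext v
          simp [In, hi]
        rw [h1, hτ]
        simp [m, hi]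
    have h1 := edges_Gr τ i₀ i₁ hi₁.symm b (hτ none) hW
    have h2 : ∑ i, b i ^ 2 = 2 * T k (n + s) + (n + s) := by
      rw [← hT, ← hb, mul_sum, ← sum_add_distrib]
      exact sum_congr rfl fun i _ => (two_choose (b i)).symm
    have h3 := two_choose n
    have h4 := two_choose s
    have h5 : m none = s := rfl
    rw [h5] at h1
    omega

end Pool.Agent.H24.FD
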