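import Mathlib
import Pool.Agent.H24.FD.C

set_option autoImplicit false

/-!
# Two colours
-/

namespace Pool.Agent.H24.FD

open Finset

lemma two_classes {V : Type*} [Finite V] {r : Setoid V} (hr : Nat.card (Quotient r) ≤ 2) {o a b : V}
    (ha : ¬ r o a) (hb : ¬ r o b) : r a b := by
  classical
  by_contra hab
  haveI : Finite (Quotient r) := Quotient.finite _
  haveI : Fintype (Quotient r) := Fintype.ofFinite _
  rw [Nat.card_eq_fintype_card] at hr
  have h : 2 < Fintype.card (Quotient r) := by
    rw [Fintype.two_lt_card_iff]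
    exact ⟨Quotient.mk r o, Quotient.mk r a, Quotient.mk r b, fun h => ha (Quotient.exact h),
      fun h => hb (Quotient.exact h), fun h => hab (Quotient.exact h)⟩
  omega

lemma colNum_two_le (m : ℕ) (G : SimpleGraph (Fin (m + 1))) : colNum G 2 ≤ 2 ^ m := by
  classical
  have hc : (2 : ℕ) ^ m = Nat.card (Fin m → Prop) := by
    rw [Nat.card_eq_fintype_card, Fintype.card_fun, Fintype.card_fin]
    simp
  unfold colNum
  rw [hc]
  refine Nat.card_le_card_of_injective
    (fun r : {r : Setoid (Fin (m + 1)) // IsCol G 2 r} => fun i : Fin m => r.1 0 i.succ) ?_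
  intro r r' h
  have h1 : ∀ a, r.1 0 a ↔ r'.1 0 a := by
    intro a
    rcases Fin.eq_zero_or_eq_succ a with rfl | ⟨i, rfl⟩
    · exact ⟨fun _ => r'.1.refl _, fun _ => r.1.refl _⟩
    · exact iff_of_eq (congrFun h i)
  have key : ∀ (q : {r : Setoid (Fin (m + 1)) // IsCol G 2 r}) (a b : Fin (m + 1)),
      q.1 a b ↔ (q.1 0 a ↔ q.1 0 b) := by
    intro q a b
    constructor
    · intro hab
      exact ⟨fun h => q.1.trans h hab, fun h => q.1.trans h (q.1.symm hab)⟩
    · intro hab
      by_cases ha : q.1 0 a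
      · exact q.1.trans (q.1.symm ha) (hab.1 ha)
      · exact two_classes q.2.1 ha fun hb => ha (hab.2 hb)
  apply Subtype.ext
  ext a b
  rw [key r a b, key r' a b, h1 a, h1 b]

end Pool.Agent.H24.FD
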