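import Mathlib
import Pool.Agent.H24.FD.B

set_option autoImplicit false

/-!
# Colourings as functions, and the two shapes of the extremal graphs
-/

namespace Pool.Agent.H24.FD

open Finset

variable {V : Type*}

open Classical in
/-- the colourings with the colour `i` at the vertex `t i` -/
noncomputable def cols [Fintype V] (G : SimpleGraph V) {k : ℕ} (t : Fin k → V) :
    Finset (V → Fin k) :=
  univ.filter fun g => (∀ i, g (t i) = i) ∧ ∀ y z, G.Adj y z → g y ≠ g z

lemma mem_cols [Fintype V] {G : SimpleGraph V} {k : ℕ} {t : Fin k → V} {g : V → Fin k} :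
    g ∈ cols G t ↔ (∀ i, g (t i) = i) ∧ ∀ y z, G.Adj y z → g y ≠ g z := by
  simp [cols]

lemma colNum_le_cols [Fintype V] {G : SimpleGraph V} {k : ℕ} {t : Fin k → V}
    (ht : ∀ i j, i ≠ j → G.Adj (t i) (t j)) : colNum G k ≤ (cols G t).card := by
  classical
  unfold colNum
  have e : (cols G t).card = Nat.card (cols G t) := by
    rw [Nat.card_eq_fintype_card, Fintype.card_coe]
  rw [e]
  have hc : ∀ r : {r : Setoid V // IsCol G k r}, ∀ y, r.1 (t (exists_rep ht r.2 y).choose) y :=
    fun r y => (exists_rep ht r.2 y).choose_spec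
  refine Nat.card_le_card_of_injective
    (fun r : {r : Setoid V // IsCol G k r} =>
      (⟨fun y => (exists_rep ht r.2 y).choose, ?_⟩ : cols G t)) ?_
  · rw [mem_cols]
    refine ⟨fun i => ?_, fun y z hyz he => ?_⟩
    · by_contra hne
      exact r.2.2 _ _ (hc r (t i)) (ht _ _ hne)
    · have h1 := hc r y
      have h2 := hc r z
      change (exists_rep ht r.2 y).choose = (exists_rep ht r.2 z).choose at he
      rw [he] at h1
      exact r.2.2 _ _ (r.1.trans (r.1.symm h1) h2) hyz
  · intro r r' h
    have hh : ∀ y, (exists_rep ht r.2 y).choose = (exists_rep ht r'.2 y).choose := by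
      intro y
      have h1 := congrArg Subtype.val h
      exact congrFun h1 y
    have key : ∀ (q : {r : Setoid V // IsCol G k r}) (a b : V),
        q.1 a b ↔ (exists_rep ht q.2 a).choose = (exists_rep ht q.2 b).choose := by
      intro q a b
      have ha := hc q a
      have hb := hc q b
      constructor
      · intro hab
        by_contra hne
        exact q.2.2 _ _ (q.1.trans ha (q.1.trans hab (q.1.symm hb))) (ht _ _ hne)
      · intro he
        rw [he] at ha
        exact q.1.trans (q.1.symm ha) hb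
    apply Subtype.ext
    ext a b
    rw [key r a b, key r' a b, hh a, hh b]

lemma card_le_two_pow {α : Type*} (P : Finset (V → α)) (X : Finset V) (u v : V → α)
    (h1 : ∀ g ∈ P, ∀ y ∈ X, g y = u y ∨ g y = v y)
    (h2 : ∀ g ∈ P, ∀ g' ∈ P, (∀ y ∈ X, g y = g' y) → g = g') : P.card ≤ 2 ^ X.card := by
  classical
  rw [← card_powerset]
  refine card_le_card_of_injOn (fun g => X.filter fun y => g y = u y) ?_ ?_
  · intro g _
    exact mem_coe.2 (mem_powerset.2 (filter_subset _ _))
  · intro g hg g' hg' he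
    refine h2 g hg g' hg' fun y hy => ?_
    have h3 : y ∈ X.filter (fun y => g y = u y) ↔ y ∈ X.filter (fun y => g' y = u y) := by
      change X.filter (fun y => g y = u y) = X.filter (fun y => g' y = u y) at he
      rw [he]
    simp only [mem_filter, hy, true_and] at h3
    by_cases h4 : g y = u y
    · rw [h4, h3.1 h4]
    · have h5 : ¬ g' y = u y := fun h => h4 (h3.2 h)
      rw [(h1 g hg y hy).resolve_left h4, (h1 g' hg' y hy).resolve_left h5]

open Classical in
/-- the size of the class `i`, where the class `a` is counted with `s` further elements -/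
noncomputable def rho (U : Finset V) {k : ℕ} (s : ℕ) (c : V → Fin k) (a i : Fin k) : ℕ :=
  (U.filter fun y => c y = i).card + if i = a then s else 0

/-- `M` is a set of `s` vertices outside of the class `a`; two vertices are not adjacent if they are in
one class, or if one of them is in `M` and the other one in the class `a`. -/
structure RepOn (G : SimpleGraph V) (U : Finset V) (k s : ℕ) (c : V → Fin k) (a : Fin k)
    (M : Finset V) : Prop where
  sub : M ⊆ U
  card : M.card = s
  ne : ∀ m ∈ M, c m ≠ a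
  adj : ∀ y ∈ U, ∀ z ∈ U, y ≠ z →
    (G.Adj y z ↔ c y ≠ c z ∧ ¬ (y ∈ M ∧ c z = a) ∧ ¬ (z ∈ M ∧ c y = a))
  bal : ∀ i j, rho U s c a i ≤ rho U s c a j + 1

open Classical in
/-- A complete multipartite graph with two disjoint edges `w0 w2`, `w1 w3` added in the class `a`. -/
structure FourOn (G : SimpleGraph V) (U : Finset V) (k s : ℕ) (c : V → Fin k) (a b : Fin k)
    (w0 w1 w2 w3 : V) : Prop where
  ab : a ≠ b
  m0 : w0 ∈ U
  m1 : w1 ∈ U
  m2 : w2 ∈ U
  m3 : w3 ∈ U
  c0 : c w0 = a
  c1 : c w1 = a
  c2 : c w2 = a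
  c3 : c w3 = a
  d01 : w0 ≠ w1
  d02 : w0 ≠ w2
  d03 : w0 ≠ w3
  d12 : w1 ≠ w2
  d13 : w1 ≠ w3
  d23 : w2 ≠ w3
  nb : ∀ y ∈ U, c y ≠ b
  adj : ∀ y ∈ U, ∀ z ∈ U, y ≠ z →
    (G.Adj y z ↔ c y ≠ c z ∨ (y = w0 ∧ z = w2) ∨ (y = w2 ∧ z = w0) ∨ (y = w1 ∧ z = w3) ∨
      (y = w3 ∧ z = w1))
  carda : (U.filter fun y => c y = a).card = s + 3
  card : ∀ i, i ≠ a → i ≠ b →
    (U.filter fun y => c y = i).card = s + 1 ∨ (U.filter fun y => c y = i).card = s + 2

end Pool.Agent.H24.FD
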