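import Mathlib
import Pool.Agent.H24.FD.E

set_option autoImplicit false

/-!
# Adding a vertex to an extremal graph
-/

namespace Pool.Agent.H24.FD

open Finset

variable {V : Type*}

open Classical in
lemma card_class_update [Fintype V] {k : ℕ} (c : V → Fin k) (x : V) (j i : Fin k) :
    (univ.filter fun y => Function.update c x j y = i).card
      = ((univ.erase x).filter fun y => c y = i).card + if i = j then 1 else 0 := by
  by_cases hij : i = j
  · subst hij
    rw [if_pos rfl]
    have : (univ.filter fun y => Function.update c x i y = i)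
        = insert x ((univ.erase x).filter fun y => c y = i) := by
      ext z
      simp only [mem_filter, mem_univ, true_and, mem_insert, mem_erase, and_true]
      by_cases hz : z = x
      · subst hz; simp
      · rw [Function.update_of_ne hz]; simp [hz]
    rw [this, card_insert_of_notMem (by simp)]
  · rw [if_neg hij, add_zero]
    congr 1
    ext z
    simp only [mem_filter, mem_univ, true_and, mem_erase, and_true]
    by_cases hz : z = x
    · subst hz
      rw [Function.update_self]
      simp [Ne.symm hij]
    · rw [Function.update_of_ne hz]; simp [hz]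

open Classical in
theorem extend [Fintype V] {G : SimpleGraph V} {x : V} {k s : ℕ} {c : V → Fin k} {a : Fin k}
    {M : Finset V}
    (h : RepOn G (univ.erase x) k s c a M) {N : Finset V} (hN : ∀ y, y ∈ N ↔ y ≠ x ∧ ¬ G.Adj x y)
    (hD : ∀ i, N.card ≤ rho (univ.erase x) s c a i) (j : Fin k)
    (hj : ∀ z, z ≠ x → (c z = j ∨ (j = a ∧ z ∈ M)) → z ∈ N) :
    RepOn G univ k s (Function.update c x j) a M := by
  have hxM : x ∉ M := fun hx => (mem_erase.1 (h.sub hx)).1 rfl
  have hcard : ((univ.erase x).filter fun z => c z = j ∨ (j = a ∧ z ∈ M)).card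
      = rho (univ.erase x) s c a j := by
    unfold rho
    by_cases hja : j = a
    · subst hja
      rw [if_pos rfl, ← h.card, ← card_union_of_disjoint]
      · congr 1
        ext z
        simp only [mem_filter, mem_erase, mem_univ, and_true, mem_union, true_and]
        constructor
        · rintro ⟨h1, h2 | h2⟩
          · exact Or.inl ⟨h1, h2⟩
          · exact Or.inr h2
        · rintro (⟨h1, h2⟩ | h2)
          · exact ⟨h1, Or.inl h2⟩
          · exact ⟨fun hz => hxM (hz ▸ h2), Or.inr h2⟩
      · rw [disjoint_left]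
        intro z hz hzM
        exact h.ne z hzM (mem_filter.1 hz).2
    · rw [if_neg hja, add_zero]
      congr 1
      ext z
      simp [hja]
  have hW : ((univ.erase x).filter fun z => c z = j ∨ (j = a ∧ z ∈ M)) = N := by
    apply eq_of_subset_of_card_le
    · intro z hz
      simp only [mem_filter, mem_erase, mem_univ, and_true] at hz
      exact hj z hz.1 hz.2
    · rw [hcard]; exact hD j
  have hxN : ∀ z, z ≠ x → (G.Adj x z ↔ ¬ (c z = j ∨ (j = a ∧ z ∈ M))) := by
    intro z hz
    have h1 := hN z
    rw [← hW] at h1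
    simp only [mem_filter, mem_erase, mem_univ, and_true, hz, ne_eq, not_false_eq_true,
      true_and] at h1
    tauto
  have hxadj : ∀ z, z ≠ x → (G.Adj x z ↔ j ≠ c z ∧ ¬ (x ∈ M ∧ c z = a) ∧ ¬ (z ∈ M ∧ j = a)) := by
    intro z hz
    rw [hxN z hz]
    have : j ≠ c z ↔ c z ≠ j := ne_comm
    tauto
  refine ⟨subset_univ _, h.card, ?_, ?_, ?_⟩
  · intro m hm
    have hmx : m ≠ x := fun he => hxM (he ▸ hm)
    rw [Function.update_of_ne hmx]
    exact h.ne m hm
  · intro y _ z _ hyz
    by_cases hy : y = x
    · subst hy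
      have hz : z ≠ y := hyz.symm
      rw [Function.update_self, Function.update_of_ne hz]
      exact hxadj z hz
    · by_cases hz : z = x
      · subst hz
        rw [Function.update_self, Function.update_of_ne hy, G.adj_comm, hxadj y hy]
        have : j ≠ c y ↔ c y ≠ j := ne_comm
        tauto
      · rw [Function.update_of_ne hy, Function.update_of_ne hz]
        exact h.adj y (mem_erase.2 ⟨hy, mem_univ _⟩) z (mem_erase.2 ⟨hz, mem_univ _⟩) hyz
  · have hr : ∀ i, rho univ s (Function.update c x j) a i
        = rho (univ.erase x) s c a i + if i = j then 1 else 0 := by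
      intro i
      unfold rho
      rw [card_class_update]
      ring
    intro i l
    rw [hr, hr]
    have h1 := h.bal i l
    have h2 := hD l
    rw [← hW, hcard] at h2
    by_cases hi : i = j
    · subst hi
      rw [if_pos rfl]
      omega
    · rw [if_neg hi]
      omega

open Classical in
theorem mk_four [Fintype V] {G : SimpleGraph V} {x : V} {k s : ℕ} {c : V → Fin k} {a j : Fin k}
    {M : Finset V} {ta tj m0 : V} (haj : a ≠ j) (hxM : x ∉ M) (hM : M.card = s)
    (hta : ta ≠ x) (htaM : ta ∉ M) (hcta : c ta = a)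
    (htj : tj ≠ x) (htjM : tj ∉ M) (hctj : c tj = j)
    (hm0M : m0 ∈ M) (hm0x : m0 ≠ x) (k6 : ∀ m ∈ M, c m = j)
    (hca : ∀ z, z ≠ x → (c z = a ↔ z = ta))
    (hcj : ∀ z, z ≠ x → (c z = j ↔ z = tj ∨ z ∈ M))
    (hxadj : ∀ z, z ≠ x → (G.Adj x z ↔ ¬ (z = ta ∨ z = tj ∨ (z ∈ M ∧ z ≠ m0))))
    (adj' : ∀ y z, y ≠ x → z ≠ x → y ≠ z →
      (G.Adj y z ↔ c y ≠ c z ∧ ¬ (y ∈ M ∧ c z = a) ∧ ¬ (z ∈ M ∧ c y = a)))
    (hcards : ∀ i, i ≠ a → i ≠ j →
      ((univ.erase x).filter fun z => c z = i).card = s + 1 ∨
        ((univ.erase x).filter fun z => c z = i).card = s + 2) :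
    FourOn G univ k s (fun z => if z = x then a else if c z = j then a else c z) a j ta x tj m0 := by
  have hC : ∀ z, z ≠ x →
      ((if z = x then a else if c z = j then a else c z) = a ↔ c z = a ∨ c z = j) := by
    intro z hz
    rw [if_neg hz]
    by_cases h1 : c z = j
    · rw [if_pos h1]; exact ⟨fun _ => Or.inr h1, fun _ => rfl⟩
    · rw [if_neg h1]; exact ⟨fun h2 => Or.inl h2, fun h2 => h2.resolve_right h1⟩
  have hc'x : ∀ z, z ≠ x →
      ((if z = x then a else if c z = j then a else c z) = a ↔ z = ta ∨ z = tj ∨ z ∈ M) := by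
    intro z hz
    rw [hC z hz, hca z hz, hcj z hz]
  have hx : ∀ z, z ≠ x → (G.Adj x z ↔
      a ≠ (if z = x then a else if c z = j then a else c z) ∨ z = m0) := by
    intro z hz
    rw [hxadj z hz]
    constructor
    · intro h1
      by_cases h2 : z = m0
      · exact Or.inr h2
      · left
        intro h3
        rcases (hc'x z hz).1 h3.symm with h4 | h4 | h4
        · exact h1 (Or.inl h4)
        · exact h1 (Or.inr (Or.inl h4))
        · exact h1 (Or.inr (Or.inr ⟨h4, h2⟩))
    · rintro (h1 | h1)
      · intro h2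
        apply h1
        symm
        rw [hc'x z hz]
        rcases h2 with h2 | h2 | h2
        · exact Or.inl h2
        · exact Or.inr (Or.inl h2)
        · exact Or.inr (Or.inr h2.1)
      · subst h1
        rintro (h2 | h2 | h2)
        · exact htaM (h2 ▸ hm0M)
        · exact htjM (h2 ▸ hm0M)
        · exact h2.2 rfl
  refine ⟨haj, mem_univ _, mem_univ _, mem_univ _, mem_univ _, ?_, ?_, ?_, ?_, hta, ?_, ?_,
    Ne.symm htj, Ne.symm hm0x, ?_, ?_, ?_, ?_, ?_⟩
  · exact (hc'x _ hta).2 (Or.inl rfl)
  · exact if_pos rfl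
  · exact (hc'x _ htj).2 (Or.inr (Or.inl rfl))
  · exact (hc'x _ hm0x).2 (Or.inr (Or.inr hm0M))
  · intro h1
    have h2 := congrArg c h1
    rw [hcta, hctj] at h2
    exact haj h2
  · intro h1
    exact htaM (h1 ▸ hm0M)
  · intro h1
    exact htjM (h1 ▸ hm0M)
  · intro y _
    change (if y = x then a else if c y = j then a else c y) ≠ j
    split_ifs with h1 h2
    · exact haj
    · exact haj
    · exact h2
  · -- adjacency
    intro y _ z _ hyz
    by_cases hy : y = x
    · subst hy
      rw [hx z hyz.symm]
      have h1 : (if y = y then a else if c y = j then a else c y) = a := if_pos rfl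
      rw [h1]
      constructor
      · rintro (h2 | h2)
        · exact Or.inl h2
        · exact Or.inr (Or.inr (Or.inr (Or.inl ⟨rfl, h2⟩)))
      · rintro (h2 | h2 | h2 | h2 | h2)
        · exact Or.inl h2
        · exact absurd h2.1.symm hta
        · exact absurd h2.1.symm htj
        · exact Or.inr h2.2
        · exact absurd h2.1.symm hm0x
    · by_cases hz : z = x
      · subst hz
        rw [G.adj_comm, hx y hy]
        have h1 : (if z = z then a else if c z = j then a else c z) = a := if_pos rfl
        rw [h1]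
        constructor
        · rintro (h2 | h2)
          · exact Or.inl h2.symm
          · exact Or.inr (Or.inr (Or.inr (Or.inr ⟨h2, rfl⟩)))
        · rintro (h2 | h2 | h2 | h2 | h2)
          · exact Or.inl h2.symm
          · exact absurd h2.2.symm htj
          · exact absurd h2.2.symm hta
          · exact absurd h2.2.symm hm0x
          · exact Or.inr h2.1
      · rw [adj' y z hy hz hyz]
        constructor
        · rintro ⟨h1, h2, h3⟩
          by_cases h4 : (if y = x then a else if c y = j then a else c y)
              = (if z = x then a else if c z = j then a else c z)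
          · right
            by_cases h5 : c y = j
            · have h6 : (if y = x then a else if c y = j then a else c y) = a :=
                (hC y hy).2 (Or.inr h5)
              rw [h6] at h4
              rcases (hC z hz).1 h4.symm with h7 | h7
              · right; left
                refine ⟨((hcj y hy).1 h5).resolve_right fun h8 => h2 ⟨h8, h7⟩, (hca z hz).1 h7⟩
              · exact absurd (h5.trans h7.symm) h1
            · by_cases h6 : c z = j
              · have h7 : (if z = x then a else if c z = j then a else c z) = a :=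
                  (hC z hz).2 (Or.inr h6)
                rw [h7] at h4
                have h8 := ((hC y hy).1 h4).resolve_right h5
                left
                exact ⟨(hca y hy).1 h8, ((hcj z hz).1 h6).resolve_right fun h9 => h3 ⟨h9, h8⟩⟩
              · rw [if_neg hy, if_neg hz, if_neg h5, if_neg h6] at h4
                exact absurd h4 h1
          · exact Or.inl h4
        · rintro (h2 | h2 | h2 | h2 | h2)
          · refine ⟨fun h3 => h2 ?_, fun h3 => h2 ?_, fun h3 => h2 ?_⟩
            · change (if y = x then a else if c y = j then a else c y)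
                = (if z = x then a else if c z = j then a else c z)
              rw [if_neg hy, if_neg hz, h3]
            · exact ((hC y hy).2 (Or.inr (k6 y h3.1))).trans ((hC z hz).2 (Or.inl h3.2)).symm
            · exact ((hC y hy).2 (Or.inl h3.2)).trans ((hC z hz).2 (Or.inr (k6 z h3.1))).symm
          · obtain ⟨rfl, rfl⟩ := h2
            exact ⟨by rw [hcta, hctj]; exact haj, fun h3 => htaM h3.1, fun h3 => htjM h3.1⟩
          · obtain ⟨rfl, rfl⟩ := h2
            exact ⟨by rw [hcta, hctj]; exact haj.symm, fun h3 => htjM h3.1, fun h3 => htaM h3.1⟩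
          · exact absurd h2.1 hy
          · exact absurd h2.2 hz
  · -- the class a
    have h1 : (univ.filter fun z => (if z = x then a else if c z = j then a else c z) = a)
        = insert ta (insert tj (insert x M)) := by
      ext z
      simp only [mem_filter, mem_univ, true_and, mem_insert]
      by_cases hz : z = x
      · rw [if_pos hz]
        exact ⟨fun _ => Or.inr (Or.inr (Or.inl hz)), fun _ => rfl⟩
      · rw [hc'x z hz]
        constructor
        · rintro (h2 | h2 | h2)
          · exact Or.inl h2
          · exact Or.inr (Or.inl h2)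
          · exact Or.inr (Or.inr (Or.inr h2))
        · rintro (h2 | h2 | h2 | h2)
          · exact Or.inl h2
          · exact Or.inr (Or.inl h2)
          · exact absurd h2 hz
          · exact Or.inr (Or.inr h2)
    have h2 : tj ∉ insert x M := by
      rw [mem_insert]
      exact fun h3 => h3.elim htj htjM
    have h3 : ta ∉ insert tj (insert x M) := by
      rw [mem_insert, mem_insert]
      rintro (h3 | h3 | h3)
      · have h4 := congrArg c h3
        rw [hcta, hctj] at h4
        exact haj h4
      · exact hta h3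
      · exact htaM h3
    rw [h1, card_insert_of_notMem h3, card_insert_of_notMem h2, card_insert_of_notMem hxM, hM]
  · intro i hia hij
    have h1 : (univ.filter fun z => (if z = x then a else if c z = j then a else c z) = i)
        = (univ.erase x).filter fun z => c z = i := by
      ext z
      simp only [mem_filter, mem_univ, true_and, mem_erase, and_true]
      split_ifs with h1 h2
      · exact ⟨fun h3 => absurd h3.symm hia, fun h3 => absurd h1 h3.1⟩
      · exact ⟨fun h3 => absurd h3.symm hia, fun h3 => absurd (h3.2.symm.trans h2) hij⟩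
      · exact ⟨fun h3 => ⟨h1, h3⟩, fun h3 => h3.2⟩
    rw [h1]
    exact hcards i hia hij

open Classical in
theorem step [Fintype V] {G : SimpleGraph V} {x : V} {k s : ℕ} {c : V → Fin k} {a : Fin k}
    {M : Finset V}
    (h : RepOn G (univ.erase x) k s c a M)
    (hR : ∀ i, ∃ y, y ≠ x ∧ y ∉ M ∧ c y = i)
    {N : Finset V} (hN : ∀ y, y ∈ N ↔ y ≠ x ∧ ¬ G.Adj x y)
    (hD : ∀ i, N.card ≤ rho (univ.erase x) s c a i)
    (hsD : s ≤ N.card) (hp : 2 ^ s < 2 * colNum G k) :
    (∃ c', RepOn G univ k s c' a M) ∨
      ∃ c' b w0 w1 w2 w3, FourOn G univ k s c' a b w0 w1 w2 w3 := by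
  by_cases hext : ∃ j, ∀ z, z ≠ x → (c z = j ∨ (j = a ∧ z ∈ M)) → z ∈ N
  · obtain ⟨j, hj⟩ := hext
    exact Or.inl ⟨_, extend h hN hD j hj⟩
  push Not at hext
  have hxM : x ∉ M := fun hx => (mem_erase.1 (h.sub hx)).1 rfl
  have hch : ∀ i, ∃ y, (y ≠ x ∧ y ∉ M ∧ c y = i) ∧
      (y ∈ N → ∀ z, z ≠ x → z ∉ M → c z = i → z ∈ N) := by
    intro i
    by_cases hi : ∀ z, z ≠ x → z ∉ M → c z = i → z ∈ N
    · obtain ⟨y, hy⟩ := hR i
      exact ⟨y, hy, fun _ => hi⟩
    · push Not at hi
      obtain ⟨z, h1, h2, h3, h4⟩ := hi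
      exact ⟨z, ⟨h1, h2, h3⟩, fun h5 => absurd h5 h4⟩
  choose t ht htN using hch
  have adj' : ∀ y z, y ≠ x → z ≠ x → y ≠ z →
      (G.Adj y z ↔ c y ≠ c z ∧ ¬ (y ∈ M ∧ c z = a) ∧ ¬ (z ∈ M ∧ c y = a)) :=
    fun y z hy hz hyz => h.adj y (mem_erase.2 ⟨hy, mem_univ _⟩) z
      (mem_erase.2 ⟨hz, mem_univ _⟩) hyz
  have hcl : ∀ i j, i ≠ j → G.Adj (t i) (t j) := by
    intro i j hij
    have h1 : c (t i) ≠ c (t j) := by rw [(ht i).2.2, (ht j).2.2]; exact hij
    exact (adj' _ _ (ht i).1 (ht j).1 (fun he => h1 (congrArg c he))).2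
      ⟨h1, fun h2 => (ht i).2.1 h2.1, fun h2 => (ht j).2.1 h2.1⟩
  have hP := colNum_le_cols hcl
  have f1 : ∀ g ∈ cols G t, ∀ y, y ≠ x → y ∉ M → g y = c y := by
    intro g hg y hy hyM
    rw [mem_cols] at hg
    by_contra hne
    have h1 : c y ≠ c (t (g y)) := by rw [(ht _).2.2]; exact Ne.symm hne
    have h2 := (adj' y (t (g y)) hy (ht _).1 (fun he => h1 (congrArg c he))).2
      ⟨h1, fun h2 => hyM h2.1, fun h2 => (ht _).2.1 h2.1⟩
    exact hg.2 _ _ h2 (hg.1 _).symm
  have f2 : ∀ g ∈ cols G t, ∀ m ∈ M, g m = c m ∨ g m = a := by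
    intro g hg m hm
    have hmx : m ≠ x := fun he => hxM (he ▸ hm)
    rw [mem_cols] at hg
    by_contra hne
    push Not at hne
    have h1 : c m ≠ c (t (g m)) := by rw [(ht _).2.2]; exact Ne.symm hne.1
    have h2 := (adj' m (t (g m)) hmx (ht _).1 (fun he => h1 (congrArg c he))).2
      ⟨h1, fun h2 => hne.2 (by rw [← h2.2, (ht _).2.2]), fun h2 => (ht _).2.1 h2.1⟩
    exact hg.2 _ _ h2 (hg.1 _).symm
  have f3 : ∀ g ∈ cols G t, ∀ m ∈ M, ∀ m' ∈ M, g m = a → g m' = a → c m = c m' := by
    intro g hg m hm m' hm' h1 h2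
    by_contra hne
    have hmx : m ≠ x := fun he => hxM (he ▸ hm)
    have hmx' : m' ≠ x := fun he => hxM (he ▸ hm')
    rw [mem_cols] at hg
    exact hg.2 _ _ ((adj' m m' hmx hmx' (fun he => hne (congrArg c he))).2
      ⟨hne, fun h3 => h.ne m' hm' h3.2, fun h3 => h.ne m hm h3.2⟩) (h1.trans h2.symm)
  have f5 : ∀ g ∈ cols G t, ∀ y, y ≠ x → g y = g x → y ∈ N := by
    intro g hg y hy hyx
    rw [mem_cols] at hg
    exact (hN y).2 ⟨hy, fun hadj => hg.2 _ _ hadj hyx.symm⟩
  have f4 : ∀ g ∈ cols G t, ∀ z, z ≠ x → z ∉ M → c z = g x → z ∈ N := by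
    intro g hg
    exact htN (g x) (f5 g hg _ (ht _).1 ((mem_cols.1 hg).1 _))
  choose e he1 he2 he3 using hext
  have f6 : ∀ g ∈ cols G t, g x ≠ a → e (g x) ∈ M ∧ c (e (g x)) = g x ∧ g (e (g x)) = a := by
    intro g hg hga
    have h1 : c (e (g x)) = g x := (he2 (g x)).resolve_right fun h2 => hga h2.1
    have h2 : e (g x) ∈ M := by
      by_contra h3
      exact he3 _ (f4 g hg _ (he1 _) h3 h1)
    refine ⟨h2, h1, (f2 g hg _ h2).resolve_left fun h3 => ?_⟩
    exact he3 _ (f5 g hg _ (he1 _) (h3.trans h1))
  have fin : ∀ g ∈ cols G t, ∀ g' ∈ cols G t, (∀ m ∈ M, (g m = a ↔ g' m = a)) → g x = g' x →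
      g = g' := by
    intro g hg g' hg' h1 h2
    funext y
    by_cases hy : y = x
    · rw [hy, h2]
    · by_cases hyM : y ∈ M
      · by_cases h3 : g y = a
        · rw [h3, (h1 y hyM).1 h3]
        · rw [(f2 g hg y hyM).resolve_right h3,
            (f2 g' hg' y hyM).resolve_right fun h4 => h3 ((h1 y hyM).2 h4)]
      · rw [f1 g hg y hy hyM, f1 g' hg' y hy hyM]
  by_cases hA : ∀ g ∈ cols G t, g x ≠ a
  · exfalso
    have hne : (cols G t).Nonempty := by
      rw [← card_pos]
      have := Nat.one_le_two_pow (n := s)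
      omega
    obtain ⟨g0, hg0⟩ := hne
    obtain ⟨hm1, hc1, -⟩ := f6 g0 hg0 (hA g0 hg0)
    have hle : (cols G t).card ≤ (M.erase (e (g0 x))).powerset.card := by
      refine card_le_card_of_injOn (fun g => (M.filter fun m => g m = a).erase (e (g0 x))) ?_ ?_
      · intro g _
        refine mem_coe.2 (mem_powerset.2 (erase_subset_erase _ (filter_subset _ _)))
      · intro g hg g' hg' heq
        change (M.filter fun m => g m = a).erase (e (g0 x))
          = (M.filter fun m => g' m = a).erase (e (g0 x)) at heq
        have h1 : ∀ m ∈ M, m ≠ e (g0 x) → (g m = a ↔ g' m = a) := by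
          intro m hm hm1
          have h2 : m ∈ (M.filter fun m => g m = a).erase (e (g0 x)) ↔
            m ∈ (M.filter fun m => g' m = a).erase (e (g0 x)) := by rw [heq]
          simp only [mem_erase, mem_filter, hm, hm1, ne_eq, not_false_eq_true, true_and] at h2
          exact h2
        have h2 : ∀ g ∈ cols G t, ∀ g' ∈ cols G t,
            (∀ m ∈ M, m ≠ e (g0 x) → (g m = a ↔ g' m = a)) → g (e (g0 x)) = a →
            g' (e (g0 x)) = a := by
          intro g hg g' hg' h1 h3
          by_contra h4
          obtain ⟨i1, i2, i3⟩ := f6 g' hg' (hA g' hg')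
          have i4 : e (g' x) ≠ e (g0 x) := fun i5 => h4 (by rw [← i5]; exact i3)
          have i5 := (h1 _ i1 i4).2 i3
          have i6 := f3 g hg _ i1 _ hm1 i5 h3
          rw [i2, hc1] at i6
          exact i4 (by rw [i6])
        have h3 : ∀ m ∈ M, (g m = a ↔ g' m = a) := by
          intro m hm
          by_cases hm1 : m = e (g0 x)
          · rw [hm1]
            exact ⟨h2 g hg g' hg' h1, h2 g' hg' g hg fun m hm hne => (h1 m hm hne).symm⟩
          · exact h1 m hm hm1
        refine fin g hg g' hg' h3 ?_
        obtain ⟨i1, i2, i3⟩ := f6 g hg (hA g hg)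
        obtain ⟨j1, j2, j3⟩ := f6 g' hg' (hA g' hg')
        rw [← i2, ← j2]
        exact f3 g' hg' _ i1 _ j1 ((h3 _ i1).1 i3) j3
    rw [card_powerset, card_erase_of_mem hm1, h.card] at hle
    have hs : 1 ≤ s := by
      rw [← h.card]; exact card_pos.2 ⟨_, hm1⟩
    obtain ⟨s', rfl⟩ : ∃ s', s = s' + 1 := ⟨s - 1, by omega⟩
    rw [Nat.add_sub_cancel] at hle
    rw [pow_succ] at hp
    omega
  · push Not at hA
    obtain ⟨ga, hga, hgaa⟩ := hA
    have hRa : ∀ z, z ≠ x → z ∉ M → c z = a → z ∈ N := by
      rw [← hgaa]; exact f4 ga hga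
    -- the vertex of `M` outside of `N`
    have hm0M : e a ∈ M := by
      by_contra h1
      exact he3 a (hRa _ (he1 a) h1 ((he2 a).resolve_right fun h2 => h1 h2.2))
    have hm0N : e a ∉ N := he3 a
    have hMN : M ∩ N ⊆ M.erase (e a) := by
      intro m hm
      rw [mem_inter] at hm
      exact mem_erase.2 ⟨fun h1 => hm0N (h1 ▸ hm.2), hm.1⟩
    have hμ : (M ∩ N).card + 1 ≤ s := by
      have h1 := card_le_card hMN
      rw [card_erase_of_mem hm0M, h.card] at h1
      have h2 : 1 ≤ s := by rw [← h.card]; exact card_pos.2 ⟨_, hm0M⟩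
      omega
    -- the number of colourings with a given colour at `x`
    have hPi : ∀ i, ((cols G t).filter fun g => g x = i).card ≤ 2 ^ (M ∩ N).card := by
      intro i
      apply card_le_two_pow _ _ c (fun _ => a)
      · intro g hg y hy
        exact f2 g (mem_filter.1 hg).1 y (mem_inter.1 hy).1
      · intro g hg g' hg' hagree
        obtain ⟨hg, hgx⟩ := mem_filter.1 hg
        obtain ⟨hg', hgx'⟩ := mem_filter.1 hg'
        refine fin g hg g' hg' ?_ (hgx.trans hgx'.symm)
        intro m hm
        have hmx : m ≠ x := fun he => hxM (he ▸ hm)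
        by_cases hmN : m ∈ N
        · rw [hagree m (mem_inter.2 ⟨hm, hmN⟩)]
        · by_cases hia : i = a
          · constructor
            · intro h1
              exact absurd (f5 g hg m hmx (by rw [h1, hgx, hia])) hmN
            · intro h1
              exact absurd (f5 g' hg' m hmx (by rw [h1, hgx', hia])) hmN
          · obtain ⟨i1, i2, i3⟩ := f6 g hg (by rw [hgx]; exact hia)
            obtain ⟨j1, j2, j3⟩ := f6 g' hg' (by rw [hgx']; exact hia)
            by_cases hcm : c m = i
            · constructor
              · intro _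
                refine (f2 g' hg' m hm).resolve_left fun h2 => hmN (f5 g' hg' m hmx ?_)
                rw [h2, hcm, hgx']
              · intro _
                refine (f2 g hg m hm).resolve_left fun h2 => hmN (f5 g hg m hmx ?_)
                rw [h2, hcm, hgx]
            · constructor
              · intro h1
                exact absurd ((f3 g hg m hm _ i1 h1 i3).trans (i2.trans hgx)) hcm
              · intro h1
                exact absurd ((f3 g' hg' m hm _ j1 h1 j3).trans (j2.trans hgx')) hcm
    by_cases hB : ∀ g ∈ cols G t, g x = a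
    · exfalso
      have h1 : (cols G t).filter (fun g => g x = a) = cols G t :=
        filter_true_of_mem hB
      have h2 := hPi a
      rw [h1] at h2
      have h3 : 2 ^ ((M ∩ N).card + 1) ≤ 2 ^ s := Nat.pow_le_pow_right (by norm_num) hμ
      rw [pow_succ] at h3
      omega
    push Not at hB
    obtain ⟨gj, hgj, hgja⟩ := hB
    obtain ⟨j, hj⟩ : ∃ j, j = gj x := ⟨_, rfl⟩
    rw [← hj] at hgja
    have hRj : ∀ z, z ≠ x → z ∉ M → c z = j → z ∈ N := by
      rw [hj]; exact f4 gj hgj
    -- sizes
    obtain ⟨R, hRdef⟩ : ∃ R : Fin k → Finset V, ∀ i z, z ∈ R i ↔ z ≠ x ∧ z ∉ M ∧ c z = i :=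
      ⟨fun i => univ.filter fun z => z ≠ x ∧ z ∉ M ∧ c z = i, fun i z => by simp⟩
    have hR1 : ∀ i, 1 ≤ (R i).card := by
      intro i
      obtain ⟨y, hy⟩ := hR i
      exact card_pos.2 ⟨y, (hRdef i y).2 hy⟩
    have hrho : ∀ i, i ≠ a → rho (univ.erase x) s c a i
        = (R i).card + (M.filter fun m => c m = i).card := by
      intro i hi
      unfold rho
      rw [if_neg hi, add_zero, ← card_union_of_disjoint]
      · congr 1
        ext z
        simp only [mem_filter, mem_erase, mem_univ, and_true, mem_union, hRdef]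
        constructor
        · rintro ⟨h1, h2⟩
          by_cases hz : z ∈ M
          · exact Or.inr ⟨hz, h2⟩
          · exact Or.inl ⟨h1, hz, h2⟩
        · rintro (⟨h1, h2, h3⟩ | ⟨h1, h2⟩)
          · exact ⟨h1, h3⟩
          · exact ⟨fun he => hxM (he ▸ h1), h2⟩
      · rw [disjoint_left]
        intro z hz hz'
        exact ((hRdef i z).1 hz).2.1 (mem_filter.1 hz').1
    have hrhoa : rho (univ.erase x) s c a a = (R a).card + s := by
      unfold rho
      rw [if_pos rfl]
      congr 2
      ext z
      simp only [mem_filter, mem_erase, mem_univ, and_true, hRdef]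
      exact ⟨fun h1 => ⟨h1.1, fun h2 => h.ne z h2 h1.2, h1.2⟩, fun h1 => ⟨h1.1, h1.2.2⟩⟩
    have hRdisj : ∀ i l, i ≠ l → Disjoint (R i) (R l) := by
      intro i l hil
      rw [disjoint_left]
      intro z hz hz'
      exact hil (((hRdef i z).1 hz).2.2.symm.trans ((hRdef l z).1 hz').2.2)
    have hRMdisj : ∀ i, Disjoint (R i) (M ∩ N) := by
      intro i
      rw [disjoint_left]
      intro z hz hz'
      exact ((hRdef i z).1 hz).2.1 (mem_inter.1 hz').1
    have hMj : ∀ i, (M.filter fun m => c m = i).card ≤ s := by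
      intro i
      rw [← h.card]
      exact card_le_card (filter_subset _ _)
    have huniq : ∀ g ∈ cols G t, g x = a ∨ g x = j := by
      intro g hg
      by_contra hcon
      push Not at hcon
      obtain ⟨l, hl⟩ : ∃ l, l = g x := ⟨_, rfl⟩
      rw [← hl] at hcon
      have hRl : ∀ z, z ≠ x → z ∉ M → c z = l → z ∈ N := by
        rw [hl]; exact f4 g hg
      have h1 : (R a ∪ R j ∪ R l) ⊆ N := by
        intro z hz
        rw [mem_union, mem_union, hRdef, hRdef, hRdef] at hz
        rcases hz with (hz | hz) | hz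
        · exact hRa z hz.1 hz.2.1 hz.2.2
        · exact hRj z hz.1 hz.2.1 hz.2.2
        · exact hRl z hz.1 hz.2.1 hz.2.2
      have h2 := card_le_card h1
      rw [card_union_of_disjoint (disjoint_union_left.2
        ⟨hRdisj _ _ (Ne.symm hcon.1), hRdisj _ _ (Ne.symm hcon.2)⟩),
        card_union_of_disjoint (hRdisj _ _ (Ne.symm hgja))] at h2
      have h3 : (M.filter fun m => c m = j).card + (M.filter fun m => c m = l).card ≤ s := by
        rw [← card_union_of_disjoint, ← h.card]
        · exact card_le_card (union_subset (filter_subset _ _) (filter_subset _ _))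
        · rw [disjoint_left]
          intro z hz hz'
          exact hcon.2 ((mem_filter.1 hz').2.symm.trans (mem_filter.1 hz).2)
      have h4 := hD j
      have h5 := hD l
      rw [hrho j hgja] at h4
      rw [hrho l hcon.1] at h5
      have h6 := hR1 a
      omega
    have hcard : (cols G t).card ≤ 2 ^ (M ∩ N).card + 2 ^ (M ∩ N).card := by
      have h1 : cols G t ⊆ ((cols G t).filter fun g => g x = a) ∪
          ((cols G t).filter fun g => g x = j) := by
        intro g hg
        rw [mem_union, mem_filter, mem_filter]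
        rcases huniq g hg with h2 | h2
        · exact Or.inl ⟨hg, h2⟩
        · exact Or.inr ⟨hg, h2⟩
      exact (card_le_card h1).trans ((card_union_le _ _).trans (Nat.add_le_add (hPi a) (hPi j)))
    have hs : s ≤ (M ∩ N).card + 1 := by
      by_contra hcon
      push Not at hcon
      have h3 : 2 ^ ((M ∩ N).card + 2) ≤ 2 ^ s := Nat.pow_le_pow_right (by norm_num) hcon
      rw [pow_add] at h3
      omega
    have hsub : R a ∪ R j ∪ (M ∩ N) ⊆ N := by
      intro z hz
      rw [mem_union, mem_union, hRdef, hRdef, mem_inter] at hz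
      rcases hz with (hz | hz) | hz
      · exact hRa z hz.1 hz.2.1 hz.2.2
      · exact hRj z hz.1 hz.2.1 hz.2.2
      · exact hz.2
    have hsubc := card_le_card hsub
    have hsubc' : (R a ∪ R j ∪ (M ∩ N)).card = (R a).card + (R j).card + (M ∩ N).card := by
      rw [card_union_of_disjoint (disjoint_union_left.2 ⟨hRMdisj _, hRMdisj _⟩),
        card_union_of_disjoint (hRdisj _ _ (Ne.symm hgja))]
    have hDa := hD a
    have hDj := hD j
    rw [hrhoa] at hDa
    rw [hrho j hgja] at hDj
    have hR1a := hR1 a
    have hR1j := hR1 j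
    have hMjj := hMj j
    have k1 : (R a).card = 1 := by omega
    have k2 : (R j).card = 1 := by omega
    have k3 : (M.filter fun m => c m = j).card = s := by omega
    have k4 : N.card = s + 1 := by omega
    have k5 : (M ∩ N).card + 1 = s := by omega
    have k6 : ∀ m ∈ M, c m = j := by
      intro m hm
      have h1 : M.filter (fun m => c m = j) = M :=
        eq_of_subset_of_card_le (filter_subset _ _) (by rw [k3, h.card])
      rw [← h1] at hm
      exact (mem_filter.1 hm).2
    have k7 : M ∩ N = M.erase (e a) := by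
      refine eq_of_subset_of_card_le hMN ?_
      rw [card_erase_of_mem hm0M, h.card]
      omega
    have k8 : R a ∪ R j ∪ (M ∩ N) = N :=
      eq_of_subset_of_card_le hsub (by rw [hsubc']; omega)
    have k9 : R a = {t a} := by
      obtain ⟨y, hy⟩ := card_eq_one.1 k1
      have h1 : t a ∈ R a := (hRdef a _).2 (ht a)
      rw [hy, mem_singleton] at h1
      rw [hy, h1]
    have k10 : R j = {t j} := by
      obtain ⟨y, hy⟩ := card_eq_one.1 k2
      have h1 : t j ∈ R j := (hRdef j _).2 (ht j)
      rw [hy, mem_singleton] at h1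
      rw [hy, h1]
    have hNmem : ∀ z, z ∈ N ↔ z = t a ∨ z = t j ∨ (z ∈ M ∧ z ≠ e a) := by
      intro z
      rw [← k8, k7, k9, k10, mem_union, mem_union, mem_singleton, mem_singleton, mem_erase]
      tauto
    have hca : ∀ z, z ≠ x → (c z = a ↔ z = t a) := by
      intro z hz
      constructor
      · intro h1
        have h2 : z ∈ R a := (hRdef a z).2 ⟨hz, fun h2 => h.ne z h2 h1, h1⟩
        rw [k9, mem_singleton] at h2
        exact h2
      · rintro rfl
        exact (ht a).2.2
    have hcj : ∀ z, z ≠ x → (c z = j ↔ z = t j ∨ z ∈ M) := by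
      intro z hz
      constructor
      · intro h1
        by_cases hzM : z ∈ M
        · exact Or.inr hzM
        · have h2 : z ∈ R j := (hRdef j z).2 ⟨hz, hzM, h1⟩
          rw [k10, mem_singleton] at h2
          exact Or.inl h2
      · rintro (rfl | h1)
        · exact (ht j).2.2
        · exact k6 z h1
    right
    have hcards : ∀ i, i ≠ a → i ≠ j →
        ((univ.erase x).filter fun z => c z = i).card = s + 1 ∨
          ((univ.erase x).filter fun z => c z = i).card = s + 2 := by
      intro i hia hij
      have h2 : rho (univ.erase x) s c a i = ((univ.erase x).filter fun z => c z = i).card := by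
        unfold rho
        rw [if_neg hia, add_zero]
      have h3 := hD i
      have h4 := h.bal i a
      rw [h2] at h3 h4
      rw [hrhoa] at h4
      omega
    refine ⟨_, j, t a, x, t j, e a, mk_four (Ne.symm hgja) hxM h.card (ht a).1 (ht a).2.1 (ht a).2.2
      (ht j).1 (ht j).2.1 (ht j).2.2 hm0M (he1 a) k6 hca hcj ?_ adj' hcards⟩
    intro z hz
    rw [← hNmem, hN]
    exact ⟨fun h1 h2 => h2.2 h1, fun h1 => by_contra fun h2 => h1 ⟨hz, h2⟩⟩

end Pool.Agent.H24.FD
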