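import Mathlib
import Pool.Agent.H24.FD.F

set_option autoImplicit false

/-!
# Adding a vertex to a graph of the second shape
-/

namespace Pool.Agent.H24.FD

open Finset

variable {V : Type*}

open Classical in
theorem extend_four [Fintype V] {G : SimpleGraph V} {x : V} {k s : ℕ} {c : V → Fin k}
    {a b : Fin k} {w0 w1 w2 w3 : V} (h : FourOn G (univ.erase x) k s c a b w0 w1 w2 w3)
    {N : Finset V} (hN : ∀ y, y ∈ N ↔ y ≠ x ∧ ¬ G.Adj x y) (hNc : N.card = s + 1)
    (j : Fin k) (hja : j ≠ a) (hjb : j ≠ b) (hj : ∀ z, z ≠ x → c z = j → z ∈ N) :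
    FourOn G univ k s (Function.update c x j) a b w0 w1 w2 w3 := by
  have hne : ∀ w, w ∈ univ.erase x → w ≠ x := fun w hw => (mem_erase.1 hw).1
  have hW : ((univ.erase x).filter fun z => c z = j) = N := by
    apply eq_of_subset_of_card_le
    · intro z hz
      simp only [mem_filter, mem_erase, mem_univ, and_true] at hz
      exact hj z hz.1 hz.2
    · rcases h.card j hja hjb with h1 | h1 <;> omega
  have hxN : ∀ z, z ≠ x → (G.Adj x z ↔ j ≠ c z) := by
    intro z hz
    have h1 := hN z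
    rw [← hW] at h1
    simp only [mem_filter, mem_erase, mem_univ, and_true, hz, ne_eq, not_false_eq_true,
      true_and] at h1
    rw [ne_comm, ne_eq, h1, not_not]
  have w0x := hne _ h.m0
  have w1x := hne _ h.m1
  have w2x := hne _ h.m2
  have w3x := hne _ h.m3
  refine ⟨h.ab, mem_univ _, mem_univ _, mem_univ _, mem_univ _, ?_, ?_, ?_, ?_, h.d01, h.d02, h.d03,
    h.d12, h.d13, h.d23, ?_, ?_, ?_, ?_⟩
  · rw [Function.update_of_ne w0x]; exact h.c0
  · rw [Function.update_of_ne w1x]; exact h.c1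
  · rw [Function.update_of_ne w2x]; exact h.c2
  · rw [Function.update_of_ne w3x]; exact h.c3
  · intro y _
    by_cases hy : y = x
    · rw [hy, Function.update_self]; exact hjb
    · rw [Function.update_of_ne hy]; exact h.nb y (mem_erase.2 ⟨hy, mem_univ _⟩)
  · intro y _ z _ hyz
    by_cases hy : y = x
    · subst hy
      rw [Function.update_self, Function.update_of_ne hyz.symm, hxN z hyz.symm]
      constructor
      · exact fun h1 => Or.inl h1
      · rintro (h1 | h1 | h1 | h1 | h1)
        · exact h1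
        · exact absurd h1.1.symm w0x
        · exact absurd h1.1.symm w2x
        · exact absurd h1.1.symm w1x
        · exact absurd h1.1.symm w3x
    · by_cases hz : z = x
      · subst hz
        rw [Function.update_self, Function.update_of_ne hy, G.adj_comm, hxN y hy]
        constructor
        · exact fun h1 => Or.inl h1.symm
        · rintro (h1 | h1 | h1 | h1 | h1)
          · exact h1.symm
          · exact absurd h1.2.symm w2x
          · exact absurd h1.2.symm w0x
          · exact absurd h1.2.symm w3x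
          · exact absurd h1.2.symm w1x
      · rw [Function.update_of_ne hy, Function.update_of_ne hz]
        exact h.adj y (mem_erase.2 ⟨hy, mem_univ _⟩) z (mem_erase.2 ⟨hz, mem_univ _⟩) hyz
  · rw [card_class_update, if_neg hja.symm, add_zero]
    exact h.carda
  · intro i hia hib
    rw [card_class_update]
    by_cases hij : i = j
    · subst hij
      rw [if_pos rfl, hW]
      omega
    · rw [if_neg hij, add_zero]
      exact h.card i hia hib

open Classical in
theorem step_four [Fintype V] {G : SimpleGraph V} {x : V} {k s : ℕ} {c : V → Fin k}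
    {a b : Fin k} {w0 w1 w2 w3 : V} (h : FourOn G (univ.erase x) k s c a b w0 w1 w2 w3)
    {N : Finset V} (hN : ∀ y, y ∈ N ↔ y ≠ x ∧ ¬ G.Adj x y) (hNc : N.card = s + 1)
    (hp : 2 ^ s < 2 * colNum G k) :
    ∃ c', FourOn G univ k s c' a b w0 w1 w2 w3 := by
  by_cases hext : ∃ j, j ≠ a ∧ j ≠ b ∧ ∀ z, z ≠ x → c z = j → z ∈ N
  · obtain ⟨j, h1, h2, h3⟩ := hext
    exact ⟨_, extend_four h hN hNc j h1 h2 h3⟩
  exfalso
  push Not at hext
  have hne : ∀ w, w ∈ univ.erase x → w ≠ x := fun w hw => (mem_erase.1 hw).1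
  have w0x := hne _ h.m0
  have w1x := hne _ h.m1
  have w2x := hne _ h.m2
  have w3x := hne _ h.m3
  have hU : ∀ y, y ≠ x → y ∈ univ.erase x := fun y hy => mem_erase.2 ⟨hy, mem_univ _⟩
  have hch : ∀ i, ∃ y, y ≠ x ∧ (i = a → y = w0) ∧ (i = b → y = w2) ∧ (c y = i ∨ c y = a) ∧
      (i ≠ a → i ≠ b → c y = i ∧ y ∉ N) := by
    intro i
    by_cases hia : i = a
    · exact ⟨w0, w0x, fun _ => rfl, fun h1 => absurd (hia.symm.trans h1) h.ab, Or.inr h.c0,
        fun h1 => absurd hia h1⟩
    · by_cases hib : i = b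
      · exact ⟨w2, w2x, fun h1 => absurd h1 hia, fun _ => rfl, Or.inr h.c2,
          fun _ h1 => absurd hib h1⟩
      · obtain ⟨z, h1, h2, h3⟩ := hext i hia hib
        exact ⟨z, h1, fun h4 => absurd h4 hia, fun h4 => absurd h4 hib, Or.inl h2,
          fun _ _ => ⟨h2, h3⟩⟩
  choose t htx hta htb htc hto using hch
  have hta' : t a = w0 := hta a rfl
  have htb' : t b = w2 := htb b rfl
  have hw02 : G.Adj w0 w2 := (h.adj _ h.m0 _ h.m2 h.d02).2 (Or.inr (Or.inl ⟨rfl, rfl⟩))
  have hw13 : G.Adj w1 w3 :=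
    (h.adj _ h.m1 _ h.m3 h.d13).2 (Or.inr (Or.inr (Or.inr (Or.inl ⟨rfl, rfl⟩))))
  have hadjc : ∀ y z, y ≠ x → z ≠ x → c y ≠ c z → G.Adj y z := fun y z hy hz hyz =>
    (h.adj y (hU y hy) z (hU z hz) (fun he => hyz (congrArg c he))).2 (Or.inl hyz)
  have hcto : ∀ i, i ≠ a → i ≠ b → c (t i) = i := fun i h1 h2 => (hto i h1 h2).1
  have hcta : c (t a) = a := by rw [hta']; exact h.c0
  have hctb : c (t b) = a := by rw [htb']; exact h.c2
  have hcl' : ∀ i j, i ≠ j → i ≠ a → i ≠ b → G.Adj (t i) (t j) := by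
    intro i j hij hia hib
    apply hadjc _ _ (htx i) (htx j)
    rw [hcto i hia hib]
    rcases htc j with h1 | h1
    · rw [h1]; exact hij
    · rw [h1]; exact hia
  have hcl : ∀ i j, i ≠ j → G.Adj (t i) (t j) := by
    intro i j hij
    by_cases hi : i ≠ a ∧ i ≠ b
    · exact hcl' i j hij hi.1 hi.2
    · by_cases hj : j ≠ a ∧ j ≠ b
      · exact (hcl' j i hij.symm hj.1 hj.2).symm
      · by_cases hia : i = a
        · have hja : j ≠ a := fun h1 => hij (hia.trans h1.symm)
          have hjb : j = b := by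
            by_contra h1
            exact hj ⟨hja, h1⟩
          rw [hia, hjb, hta', htb']
          exact hw02
        · have hib : i = b := by
            by_contra h1
            exact hi ⟨hia, h1⟩
          have hjb : j ≠ b := fun h1 => hij (hib.trans h1.symm)
          have hja : j = a := by
            by_contra h1
            exact hj ⟨h1, hjb⟩
          rw [hib, hja, hta', htb']
          exact hw02.symm
  have hP := colNum_le_cols hcl
  have g0 : ∀ g ∈ cols G t, g w0 = a := by
    intro g hg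
    rw [← hta']
    exact (mem_cols.1 hg).1 a
  have g2 : ∀ g ∈ cols G t, g w2 = b := by
    intro g hg
    rw [← htb']
    exact (mem_cols.1 hg).1 b
  have g13 : ∀ g ∈ cols G t, g w1 ≠ g w3 := fun g hg => (mem_cols.1 hg).2 _ _ hw13
  have f1 : ∀ g ∈ cols G t, ∀ y, y ≠ x → c y ≠ a → g y = c y := by
    intro g hg y hy hya
    by_contra hne'
    have h1 : c (t (g y)) ≠ c y := by
      rcases htc (g y) with h2 | h2
      · rw [h2]; exact hne'
      · rw [h2]; exact hya.symm
    exact (mem_cols.1 hg).2 _ _ (hadjc _ _ (htx _) hy h1) ((mem_cols.1 hg).1 _)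
  have f2 : ∀ g ∈ cols G t, ∀ y, y ≠ x → c y = a → g y = a ∨ g y = b := by
    intro g hg y hy hya
    by_contra hcon
    push Not at hcon
    have h1 : c (t (g y)) ≠ c y := by
      rw [hcto _ hcon.1 hcon.2, hya]; exact hcon.1
    exact (mem_cols.1 hg).2 _ _ (hadjc _ _ (htx _) hy h1) ((mem_cols.1 hg).1 _)
  have f5 : ∀ g ∈ cols G t, ∀ y, y ≠ x → g y = g x → y ∈ N := by
    intro g hg y hy hyx
    rw [mem_cols] at hg
    exact (hN y).2 ⟨hy, fun hadj => hg.2 _ _ hadj hyx.symm⟩
  have fx : ∀ g ∈ cols G t, g x = a ∨ g x = b := by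
    intro g hg
    by_contra hcon
    push Not at hcon
    exact (hto _ hcon.1 hcon.2).2 (f5 g hg _ (htx _) ((mem_cols.1 hg).1 _))
  -- the other vertices of the class `a`
  obtain ⟨M0, hM0⟩ : ∃ M0 : Finset V, ∀ z, z ∈ M0 ↔
      z ≠ x ∧ c z = a ∧ z ≠ w0 ∧ z ≠ w1 ∧ z ≠ w2 ∧ z ≠ w3 :=
    ⟨univ.filter fun z => z ≠ x ∧ c z = a ∧ z ≠ w0 ∧ z ≠ w1 ∧ z ≠ w2 ∧ z ≠ w3, fun z => by simp⟩
  have hM0c : M0.card + 4 = s + 3 := by
    have h1 : ((univ.erase x).filter fun y => c y = a)
        = insert w0 (insert w1 (insert w2 (insert w3 M0))) := by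
      ext z
      simp only [mem_filter, mem_erase, mem_univ, and_true, mem_insert, hM0]
      constructor
      · rintro ⟨h1, h2⟩
        by_cases e0 : z = w0
        · exact Or.inl e0
        by_cases e1 : z = w1
        · exact Or.inr (Or.inl e1)
        by_cases e2 : z = w2
        · exact Or.inr (Or.inr (Or.inl e2))
        by_cases e3 : z = w3
        · exact Or.inr (Or.inr (Or.inr (Or.inl e3)))
        exact Or.inr (Or.inr (Or.inr (Or.inr ⟨h1, h2, e0, e1, e2, e3⟩)))
      · rintro (h1 | h1 | h1 | h1 | h1)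
        · rw [h1]; exact ⟨w0x, h.c0⟩
        · rw [h1]; exact ⟨w1x, h.c1⟩
        · rw [h1]; exact ⟨w2x, h.c2⟩
        · rw [h1]; exact ⟨w3x, h.c3⟩
        · exact ⟨h1.1, h1.2.1⟩
    have n3 : w3 ∉ M0 := fun h1 => ((hM0 _).1 h1).2.2.2.2.2 rfl
    have n2 : w2 ∉ insert w3 M0 := by
      rw [mem_insert]
      exact fun h1 => h1.elim h.d23 fun h2 => ((hM0 _).1 h2).2.2.2.2.1 rfl
    have n1 : w1 ∉ insert w2 (insert w3 M0) := by
      rw [mem_insert, mem_insert]
      exact fun h1 => h1.elim h.d12 fun h2 => h2.elim h.d13 fun h3 => ((hM0 _).1 h3).2.2.2.1 rfl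
    have n0 : w0 ∉ insert w1 (insert w2 (insert w3 M0)) := by
      rw [mem_insert, mem_insert, mem_insert]
      exact fun h1 => h1.elim h.d01 fun h2 => h2.elim h.d02 fun h3 => h3.elim h.d03
        fun h4 => ((hM0 _).1 h4).2.2.1 rfl
    have h2 := h.carda
    rw [h1, card_insert_of_notMem n0, card_insert_of_notMem n1, card_insert_of_notMem n2,
      card_insert_of_notMem n3] at h2
    omega
  have hPab : ∀ α β, ((cols G t).filter fun g => g x = α ∧ g w1 = β).card ≤ 2 ^ (M0 ∩ N).card := by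
    intro α β
    apply card_le_two_pow _ _ (fun _ => a) (fun _ => b)
    · intro g hg y hy
      have h1 := (hM0 y).1 (mem_inter.1 hy).1
      exact f2 g (mem_filter.1 hg).1 y h1.1 h1.2.1
    · intro g hg g' hg' hagree
      obtain ⟨hg, hgx, hg1⟩ := mem_filter.1 hg
      obtain ⟨hg', hgx', hg1'⟩ := mem_filter.1 hg'
      funext y
      by_cases hy : y = x
      · rw [hy, hgx, hgx']
      by_cases hya : c y = a
      · by_cases e0 : y = w0
        · rw [e0, g0 g hg, g0 g' hg']
        by_cases e1 : y = w1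
        · rw [e1, hg1, hg1']
        by_cases e2 : y = w2
        · rw [e2, g2 g hg, g2 g' hg']
        by_cases e3 : y = w3
        · have i1 := g13 g hg
          have i2 := g13 g' hg'
          rw [hg1] at i1
          rw [hg1'] at i2
          have i3 := f2 g hg w3 w3x h.c3
          have i4 := f2 g' hg' w3 w3x h.c3
          have i5 : β = a ∨ β = b := hg1 ▸ f2 g hg w1 w1x h.c1
          rw [e3]
          rcases i5 with i5 | i5
          · rw [i3.resolve_left fun h1 => i1 (i5.trans h1.symm),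
              i4.resolve_left fun h1 => i2 (i5.trans h1.symm)]
          · rw [i3.resolve_right fun h1 => i1 (i5.trans h1.symm),
              i4.resolve_right fun h1 => i2 (i5.trans h1.symm)]
        · have hyM : y ∈ M0 := (hM0 y).2 ⟨hy, hya, e0, e1, e2, e3⟩
          by_cases hyN : y ∈ N
          · exact hagree y (mem_inter.2 ⟨hyM, hyN⟩)
          · have i1 : g y ≠ α := fun h1 => hyN (f5 g hg y hy (h1.trans hgx.symm))
            have i2 : g' y ≠ α := fun h1 => hyN (f5 g' hg' y hy (h1.trans hgx'.symm))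
            have i3 := f2 g hg y hy hya
            have i4 := f2 g' hg' y hy hya
            have i5 : α = a ∨ α = b := hgx ▸ fx g hg
            rcases i5 with i5 | i5
            · rw [i3.resolve_left fun h1 => i1 (h1.trans i5.symm),
                i4.resolve_left fun h1 => i2 (h1.trans i5.symm)]
            · rw [i3.resolve_right fun h1 => i1 (h1.trans i5.symm),
                i4.resolve_right fun h1 => i2 (h1.trans i5.symm)]
      · rw [f1 g hg y hy hya, f1 g' hg' y hy hya]
  have hE : ∀ α β (Q : Prop), ((∃ g ∈ cols G t, g x = α ∧ g w1 = β) → Q) →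
      ((cols G t).filter fun g => g x = α ∧ g w1 = β).card
        ≤ if Q then 2 ^ (M0 ∩ N).card else 0 := by
    intro α β Q hQ
    by_cases h1 : Q
    · rw [if_pos h1]; exact hPab α β
    · rw [if_neg h1, Nat.le_zero, card_eq_zero, filter_eq_empty_iff]
      exact fun g hg h2 => h1 (hQ ⟨g, hg, h2⟩)
  have hsub : cols G t ⊆ ((((cols G t).filter fun g => g x = a ∧ g w1 = a) ∪
      ((cols G t).filter fun g => g x = a ∧ g w1 = b)) ∪
      ((cols G t).filter fun g => g x = b ∧ g w1 = a)) ∪
      ((cols G t).filter fun g => g x = b ∧ g w1 = b) := by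
    intro g hg
    rw [mem_union, mem_union, mem_union, mem_filter, mem_filter, mem_filter, mem_filter]
    rcases fx g hg with h1 | h1 <;> rcases f2 g hg w1 w1x h.c1 with h2 | h2
    · exact Or.inl (Or.inl (Or.inl ⟨hg, h1, h2⟩))
    · exact Or.inl (Or.inl (Or.inr ⟨hg, h1, h2⟩))
    · exact Or.inl (Or.inr ⟨hg, h1, h2⟩)
    · exact Or.inr ⟨hg, h1, h2⟩
  have hc := card_le_card hsub
  have u1 := card_union_le ((((cols G t).filter fun g => g x = a ∧ g w1 = a) ∪
      ((cols G t).filter fun g => g x = a ∧ g w1 = b)) ∪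
      ((cols G t).filter fun g => g x = b ∧ g w1 = a))
      ((cols G t).filter fun g => g x = b ∧ g w1 = b)
  have u2 := card_union_le (((cols G t).filter fun g => g x = a ∧ g w1 = a) ∪
      ((cols G t).filter fun g => g x = a ∧ g w1 = b))
      ((cols G t).filter fun g => g x = b ∧ g w1 = a)
  have u3 := card_union_le ((cols G t).filter fun g => g x = a ∧ g w1 = a)
      ((cols G t).filter fun g => g x = a ∧ g w1 = b)
  have p1 := hE a a (w0 ∈ N ∧ w1 ∈ N) (by
    rintro ⟨g, hg, h1, h2⟩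
    exact ⟨f5 g hg _ w0x ((g0 g hg).trans h1.symm), f5 g hg _ w1x (h2.trans h1.symm)⟩)
  have p2 := hE a b (w0 ∈ N ∧ w3 ∈ N) (by
    rintro ⟨g, hg, h1, h2⟩
    refine ⟨f5 g hg _ w0x ((g0 g hg).trans h1.symm), f5 g hg _ w3x ?_⟩
    rw [h1]
    exact (f2 g hg w3 w3x h.c3).resolve_right fun h3 => g13 g hg (h2.trans h3.symm))
  have p3 := hE b a (w2 ∈ N ∧ w3 ∈ N) (by
    rintro ⟨g, hg, h1, h2⟩
    refine ⟨f5 g hg _ w2x ((g2 g hg).trans h1.symm), f5 g hg _ w3x ?_⟩
    rw [h1]
    exact (f2 g hg w3 w3x h.c3).resolve_left fun h3 => g13 g hg (h2.trans h3.symm))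
  have p4 := hE b b (w2 ∈ N ∧ w1 ∈ N) (by
    rintro ⟨g, hg, h1, h2⟩
    exact ⟨f5 g hg _ w2x ((g2 g hg).trans h1.symm), f5 g hg _ w1x (h2.trans h1.symm)⟩)
  -- the size of `N`
  have hNsum : (M0 ∩ N).card + ((if w0 ∈ N then 1 else 0) + (if w1 ∈ N then 1 else 0)
      + (if w2 ∈ N then 1 else 0) + (if w3 ∈ N then 1 else 0)) ≤ s + 1 := by
    have h1 : (M0 ∩ N) ∪ (({w0, w1, w2, w3} : Finset V).filter fun z => z ∈ N) ⊆ N := by
      intro z hz
      rw [mem_union, mem_inter, mem_filter] at hz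
      rcases hz with hz | hz
      · exact hz.2
      · exact hz.2
    have h2 : Disjoint (M0 ∩ N) (({w0, w1, w2, w3} : Finset V).filter fun z => z ∈ N) := by
      rw [disjoint_left]
      intro z hz hz'
      have h3 := (hM0 z).1 (mem_inter.1 hz).1
      have h4 := (mem_filter.1 hz').1
      simp only [mem_insert, mem_singleton] at h4
      rcases h4 with h4 | h4 | h4 | h4
      · exact h3.2.2.1 h4
      · exact h3.2.2.2.1 h4
      · exact h3.2.2.2.2.1 h4
      · exact h3.2.2.2.2.2 h4
    have h3 := card_le_card h1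
    rw [card_union_of_disjoint h2, hNc, card_filter] at h3
    have n3 : w2 ∉ ({w3} : Finset V) := by
      rw [mem_singleton]; exact h.d23
    have n2 : w1 ∉ ({w2, w3} : Finset V) := by
      rw [mem_insert, mem_singleton]
      exact fun h4 => h4.elim h.d12 h.d13
    have n1 : w0 ∉ ({w1, w2, w3} : Finset V) := by
      rw [mem_insert, mem_insert, mem_singleton]
      exact fun h4 => h4.elim h.d01 fun h5 => h5.elim h.d02 h.d03
    rw [sum_insert n1, sum_insert n2, sum_insert n3, sum_singleton] at h3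
    omega
  have hμ : (M0 ∩ N).card ≤ M0.card := card_le_card inter_subset_left
  have q1 : (M0 ∩ N).card + 1 ≤ s → 2 * 2 ^ (M0 ∩ N).card ≤ 2 ^ s := by
    intro h1
    have h2 : 2 ^ ((M0 ∩ N).card + 1) ≤ 2 ^ s := Nat.pow_le_pow_right (by norm_num) h1
    rw [pow_succ] at h2
    omega
  have q2 : (M0 ∩ N).card + 2 ≤ s → 4 * 2 ^ (M0 ∩ N).card ≤ 2 ^ s := by
    intro h1
    have h2 : 2 ^ ((M0 ∩ N).card + 2) ≤ 2 ^ s := Nat.pow_le_pow_right (by norm_num) h1
    rw [pow_add] at h2
    omega
  have q3 : (M0 ∩ N).card + 3 ≤ s → 8 * 2 ^ (M0 ∩ N).card ≤ 2 ^ s := by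
    intro h1
    have h2 : 2 ^ ((M0 ∩ N).card + 3) ≤ 2 ^ s := Nat.pow_le_pow_right (by norm_num) h1
    rw [pow_add] at h2
    omega
  by_cases e0 : w0 ∈ N <;> by_cases e1 : w1 ∈ N <;> by_cases e2 : w2 ∈ N <;>
    by_cases e3 : w3 ∈ N <;>
    simp only [e0, e1, e2, e3, if_true, if_false, and_true, and_false, and_self] at p1 p2 p3 p4 hNsum <;>
    omega

end Pool.Agent.H24.FD
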