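import Mathlib
import Pool.Agent.H24.FD.G

set_option autoImplicit false

/-!
# The structure of Turán graphs
-/

namespace Pool.Agent.H24.FD

open Finset

lemma count_mod (j : ℕ) (hj : 1 ≤ j) (n i : ℕ) (hi : i < j) :
    n < j * ((univ.filter fun v : Fin n => (v : ℕ) % j = i).card + 1) ∧
    j * (univ.filter fun v : Fin n => (v : ℕ) % j = i).card < n + j := by
  have h1 : (univ.filter fun v : Fin n => (v : ℕ) % j = i).card
      = Nat.count (· ≡ i [MOD j]) n := by
    rw [Nat.count_eq_card_filter_range]
    have h2 : (range n).filter (· ≡ i [MOD j])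
        = (univ.filter fun v : Fin n => (v : ℕ) % j = i).map Fin.valEmbedding := by
      ext z
      simp only [mem_filter, mem_range, mem_map, mem_univ, true_and, Fin.valEmbedding_apply,
        Nat.ModEq, Nat.mod_eq_of_lt hi]
      constructor
      · rintro ⟨h3, h4⟩
        exact ⟨⟨z, h3⟩, h4, rfl⟩
      · rintro ⟨v, h3, rfl⟩
        exact ⟨v.2, h3⟩
    rw [h2, card_map]
  rw [h1, Nat.count_modEq_card n (by omega : 0 < j) i, Nat.mod_eq_of_lt hi]
  have h3 := Nat.div_add_mod n j
  have h4 := Nat.mod_lt n (by omega : j > 0)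
  generalize n / j = q at *
  generalize n % j = r at *
  split_ifs with h5
  · rw [mul_add, mul_add]
    omega
  · rw [add_zero, mul_add]
    omega

open Classical in
theorem turan_struct (j : ℕ) (hj : 1 ≤ j) {n : ℕ} {V : Type} [Fintype V] (hV : Fintype.card V = n)
    (G : SimpleGraph V) (hcf : G.CliqueFree (j + 1))
    (he : G.edgeFinset.card + T j n = n.choose 2) :
    ∃ c : V → Fin j, (∀ y z, G.Adj y z ↔ c y ≠ c z) ∧
      ∀ i, n < j * ((univ.filter fun y => c y = i).card + 1) ∧
        j * (univ.filter fun y => c y = i).card < n + j := by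
  have hT := T_turan j hj n
  have hmax : G.IsTuranMaximal j := by
    refine ⟨hcf, ?_⟩
    intro H _ hH
    have h1 := SimpleGraph.CliqueFree.card_edgeFinset_le (r := j) (G := H) hH
    have h2 := SimpleGraph.card_edgeFinset_turanGraph (n := n) (r := j)
    simp only [hV] at h1
    rw [← h2] at h1
    have h3 : (SimpleGraph.turanGraph n j).edgeFinset.card = G.edgeFinset.card := by omega
    refine le_trans (le_of_eq (card_edge_inst _ _ _)) (le_trans h1 (le_of_eq ?_))
    rw [← h3]
  obtain ⟨f⟩ := (SimpleGraph.isTuranMaximal_iff_nonempty_iso_turanGraph (by omega : 0 < j)).1 hmax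
  refine ⟨fun y => ⟨(f y : ℕ) % j, Nat.mod_lt _ (by omega)⟩, fun y z => ?_, fun i => ?_⟩
  · have h5 : (f y : ℕ) % j ≠ (f z : ℕ) % j ↔ G.Adj y z := f.map_adj_iff
    rw [← h5, ne_eq, ne_eq, Fin.ext_iff]
  · have h1 : (univ.filter fun y => (⟨(f y : ℕ) % j, Nat.mod_lt _ (by omega)⟩ : Fin j) = i).card
        = (univ.filter fun v : Fin n => (v : ℕ) % j = i).card := by
      subst hV
      refine card_bij (fun y _ => f y) ?_ ?_ ?_
      · intro y hy
        simp only [mem_filter, mem_univ, true_and, Fin.ext_iff] at hy ⊢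
        exact hy
      · intro y _ z _ h1
        exact f.injective h1
      · intro v hv
        refine ⟨f.symm v, ?_, f.apply_symm_apply v⟩
        simp only [mem_filter, mem_univ, true_and, Fin.ext_iff] at hv ⊢
        rw [f.apply_symm_apply]
        exact hv
    rw [h1]
    exact count_mod j hj n i i.2

end Pool.Agent.H24.FD
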