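import Mathlib
import Pool.Agent.H24.FD.H

set_option autoImplicit false

/-!
# The classification
-/

namespace Pool.Agent.H24.FD

open Finset

variable {V : Type*}

lemma card_filter_compl [Fintype V] [DecidableEq V] (x : V) [Fintype ({x}ᶜ : Set V)]
    (P : V → Prop) [DecidablePred P] (Q : ({x}ᶜ : Set V) → Prop) [DecidablePred Q]
    (h : ∀ (y : V) (hy : y ∈ ({x}ᶜ : Set V)), P y ↔ Q ⟨y, hy⟩) :
    ((univ.erase x).filter P).card = (univ.filter Q).card := by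
  rw [← card_map (Function.Embedding.subtype _)]
  congr 1
  ext z
  simp only [mem_filter, mem_erase, mem_univ, and_true, mem_map, true_and,
    Function.Embedding.coe_subtype]
  constructor
  · rintro ⟨h1, h2⟩
    exact ⟨⟨z, h1⟩, (h z h1).1 h2, rfl⟩
  · rintro ⟨y, h1, rfl⟩
    exact ⟨y.2, (h y.1 y.2).2 h1⟩

open Classical in
lemma transfer_rep [Fintype V] {G : SimpleGraph V} {x : V} {k s : ℕ}
    {c' : ({x}ᶜ : Set V) → Fin k} {a : Fin k} {M' : Finset ({x}ᶜ : Set V)}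
    (h : RepOn (G.induce ({x}ᶜ : Set V)) univ k s c' a M') :
    ∃ c M, RepOn G (univ.erase x) k s c a M := by
  obtain ⟨c, hc⟩ : ∃ c : V → Fin k, ∀ (y : V) (hy : y ∈ ({x}ᶜ : Set V)), c y = c' ⟨y, hy⟩ :=
    ⟨fun y => if h : y ∈ ({x}ᶜ : Set V) then c' ⟨y, h⟩ else a, fun y hy => dif_pos hy⟩
  obtain ⟨M, hM⟩ : ∃ M : Finset V, M = M'.map (Function.Embedding.subtype _) := ⟨_, rfl⟩
  have hMm : ∀ (y : V) (hy : y ∈ ({x}ᶜ : Set V)), y ∈ M ↔ (⟨y, hy⟩ : ({x}ᶜ : Set V)) ∈ M' := by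
    intro y hy
    rw [hM, mem_map]
    constructor
    · rintro ⟨z, h1, rfl⟩
      exact h1
    · intro h1
      exact ⟨_, h1, rfl⟩
  have hMx : ∀ y ∈ M, y ∈ ({x}ᶜ : Set V) := by
    intro y hy
    rw [hM, mem_map] at hy
    obtain ⟨z, _, rfl⟩ := hy
    exact z.2
  refine ⟨c, M, ?_, ?_, ?_, ?_, ?_⟩
  · intro y hy
    exact mem_erase.2 ⟨hMx y hy, mem_univ _⟩
  · rw [hM, card_map, h.card]
  · intro m hm
    rw [hc m (hMx m hm)]
    exact h.ne _ ((hMm m (hMx m hm)).1 hm)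
  · intro y hy z hz hyz
    have hy' : y ∈ ({x}ᶜ : Set V) := (mem_erase.1 hy).1
    have hz' : z ∈ ({x}ᶜ : Set V) := (mem_erase.1 hz).1
    have h1 := h.adj ⟨y, hy'⟩ (mem_univ _) ⟨z, hz'⟩ (mem_univ _)
      (fun he => hyz (congrArg Subtype.val he))
    rw [hc y hy', hc z hz', hMm y hy', hMm z hz']
    exact h1
  · have hr : ∀ i, rho (univ.erase x) s c a i = rho univ s c' a i := by
      intro i
      unfold rho
      rw [card_filter_compl x (fun y => c y = i) (fun y => c' y = i) (fun y hy => by rw [hc y hy])]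
    intro i l
    rw [hr, hr]
    exact h.bal i l

open Classical in
lemma transfer_four [Fintype V] {G : SimpleGraph V} {x : V} {k s : ℕ}
    {c' : ({x}ᶜ : Set V) → Fin k} {a b : Fin k} {w0 w1 w2 w3 : ({x}ᶜ : Set V)}
    (h : FourOn (G.induce ({x}ᶜ : Set V)) univ k s c' a b w0 w1 w2 w3) :
    ∃ c, FourOn G (univ.erase x) k s c a b w0 w1 w2 w3 := by
  obtain ⟨c, hc⟩ : ∃ c : V → Fin k, ∀ (y : V) (hy : y ∈ ({x}ᶜ : Set V)), c y = c' ⟨y, hy⟩ :=
    ⟨fun y => if h : y ∈ ({x}ᶜ : Set V) then c' ⟨y, h⟩ else a, fun y hy => dif_pos hy⟩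
  have hmem : ∀ w : ({x}ᶜ : Set V), (w : V) ∈ univ.erase x := fun w => mem_erase.2 ⟨w.2, mem_univ _⟩
  have hinj : ∀ w w' : ({x}ᶜ : Set V), w ≠ w' → (w : V) ≠ w' := fun w w' h1 h2 => h1 (Subtype.ext h2)
  refine ⟨c, h.ab, hmem _, hmem _, hmem _, hmem _, ?_, ?_, ?_, ?_, hinj _ _ h.d01, hinj _ _ h.d02,
    hinj _ _ h.d03, hinj _ _ h.d12, hinj _ _ h.d13, hinj _ _ h.d23, ?_, ?_, ?_, ?_⟩
  · rw [hc _ w0.2]; exact h.c0
  · rw [hc _ w1.2]; exact h.c1
  · rw [hc _ w2.2]; exact h.c2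
  · rw [hc _ w3.2]; exact h.c3
  · intro y hy
    have hy' : y ∈ ({x}ᶜ : Set V) := (mem_erase.1 hy).1
    rw [hc y hy']
    exact h.nb _ (mem_univ _)
  · intro y hy z hz hyz
    have hy' : y ∈ ({x}ᶜ : Set V) := (mem_erase.1 hy).1
    have hz' : z ∈ ({x}ᶜ : Set V) := (mem_erase.1 hz).1
    have h1 := h.adj ⟨y, hy'⟩ (mem_univ _) ⟨z, hz'⟩ (mem_univ _)
      (fun he => hyz (congrArg Subtype.val he))
    rw [hc y hy', hc z hz']
    have h2 : (G.induce ({x}ᶜ : Set V)).Adj ⟨y, hy'⟩ ⟨z, hz'⟩ ↔ G.Adj y z := Iff.rfl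
    rw [← h2, h1]
    simp only [Subtype.ext_iff]
  · rw [card_filter_compl x (fun y => c y = a) (fun y => c' y = a) (fun y hy => by rw [hc y hy])]
    exact h.carda
  · intro i hia hib
    rw [card_filter_compl x (fun y => c y = i) (fun y => c' y = i) (fun y hy => by rw [hc y hy])]
    exact h.card i hia hib

open Classical in
lemma rho_sum (U : Finset V) {k : ℕ} (s : ℕ) (c : V → Fin k) (a : Fin k) :
    ∑ i, rho U s c a i = U.card + s := by
  unfold rho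
  rw [sum_add_distrib, sum_ite_eq' univ a, if_pos (mem_univ _)]
  congr 1
  exact (card_eq_sum_card_fiberwise (fun y _ => mem_univ (c y))).symm

/-- a clique with `k` vertices has one vertex in every class, and none in `M` -/
lemma rep_clique {G : SimpleGraph V} {U : Finset V} {k s : ℕ} {c : V → Fin k} {a : Fin k}
    {M : Finset V} (h : RepOn G U k s c a M) {t : Fin k → V}
    (ht : ∀ i j, i ≠ j → G.Adj (t i) (t j)) (htU : ∀ i, t i ∈ U) (i : Fin k) :
    ∃ y ∈ U, y ∉ M ∧ c y = i := by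
  have hinj : Function.Injective (fun i => c (t i)) := by
    intro i j hij
    by_contra hne
    have h1 := (h.adj _ (htU i) _ (htU j) (ht i j hne).ne).1 (ht i j hne)
    exact h1.1 hij
  have hsur := Finite.surjective_of_injective hinj
  obtain ⟨l, hl⟩ := hsur a
  obtain ⟨m, hm⟩ := hsur i
  refine ⟨t m, htU m, fun hmM => ?_, hm⟩
  have hne : m ≠ l := by
    rintro rfl
    exact h.ne _ hmM hl
  have h1 := (h.adj _ (htU m) _ (htU l) (ht m l hne).ne).1 (ht m l hne)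
  exact h1.2.1 ⟨hmM, hl⟩

lemma bal_le {k : ℕ} {r : Fin k → ℕ} {N : ℕ} (hsum : ∑ i, r i = N)
    (hbal : ∀ i j, r i ≤ r j + 1) (i : Fin k) : N / k ≤ r i := by
  have h1 : ∑ l, r l < ∑ _l : Fin k, (r i + 1) :=
    sum_lt_sum (fun l _ => hbal l i) ⟨i, mem_univ i, Nat.lt_succ_self _⟩
  rw [hsum, sum_const, card_univ, Fintype.card_fin, smul_eq_mul] at h1
  have h2 := Nat.mul_div_le N k
  have h3 : k * (N / k) < k * (r i + 1) := lt_of_le_of_lt h2 h1
  have h4 := Nat.lt_of_mul_lt_mul_left h3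
  omega

end Pool.Agent.H24.FD
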