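import Mathlib
import Pool.Agent.H24.FD.I

set_option autoImplicit false

/-!
# The classification: the induction
-/

namespace Pool.Agent.H24.FD

open Finset

lemma le_clog_of {p s : ℕ} (h : 2 ^ s < 2 * p) : s ≤ Nat.clog 2 p := by
  by_contra hcon
  push Not at hcon
  have h1 := Nat.le_pow_clog one_lt_two p
  have h2 : 2 ^ (Nat.clog 2 p + 1) ≤ 2 ^ s := Nat.pow_le_pow_right (by norm_num) hcon
  rw [pow_succ] at h2
  omega

open Classical in
theorem removal {k : ℕ} (hk : 1 ≤ k) {n : ℕ} {V : Type} [Fintype V]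
    (hV : Fintype.card V = n + 1)
    (G : SimpleGraph V) (s : ℕ) (hp : 1 ≤ colNum G k) (hs : s ≤ Nat.clog 2 (colNum G k))
    (he : G.edgeFinset.card + T k (n + 1 + s) = (n + 1).choose 2 + s.choose 2)
    (hcl : ¬ G.CliqueFree k) :
    ∃ (t : Fin k → V) (i : Fin k), (∀ i j, i ≠ j → G.Adj (t i) (t j)) ∧
      (univ.filter fun y => ¬ G.Adj (t i) y).card = (n + s) / k + 1 ∧
      (G.induce ({t i}ᶜ : Set V)).edgeFinset.card + T k (n + s) = n.choose 2 + s.choose 2 ∧
      colNum G k ≤ colNum (G.induce ({t i}ᶜ : Set V)) k := by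
  rw [SimpleGraph.not_cliqueFree_iff_top_isContained] at hcl
  obtain ⟨f⟩ := hcl
  obtain ⟨x, hxdef⟩ : ∃ x : Fin k → V, x = fun i => f i := ⟨_, rfl⟩
  have hx : ∀ i j, i ≠ j → G.Adj (x i) (x j) := by
    intro i j hij
    rw [hxdef]
    exact f.toHom.map_adj hij
  have hA : ∀ y : V, 1 ≤ Nat.card {i : Fin k // ¬ G.Adj (x i) y} := by
    intro y
    have : Nonempty {r : Setoid V // IsCol G k r} := by
      by_contra hne
      rw [not_nonempty_iff] at hne
      unfold colNum at hp
      rw [Nat.card_eq_zero.2 (Or.inl hne)] at hp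
      omega
    obtain ⟨r⟩ := this
    obtain ⟨i, hi⟩ := exists_rep hx r.2 y
    have : Nonempty {i : Fin k // ¬ G.Adj (x i) y} := ⟨⟨i, r.2.2 _ _ hi⟩⟩
    exact Nat.card_pos
  have h1 : colNum G k ≤ 2 ^ (∑ y : V, Nat.card {i : Fin k // ¬ G.Adj (x i) y} - (n + 1)) := by
    have := prod_le_two_pow univ (fun y : V => Nat.card {i : Fin k // ¬ G.Adj (x i) y})
      fun y _ => hA y
    rw [card_univ, hV] at this
    exact (colNum_le_prod hx).trans this
  have h2 : s ≤ ∑ y : V, Nat.card {i : Fin k // ¬ G.Adj (x i) y} - (n + 1) :=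
    hs.trans (Nat.clog_le_of_le_pow h1)
  have h3 : ∑ y : V, Nat.card {i : Fin k // ¬ G.Adj (x i) y}
      = ∑ i : Fin k, (univ.filter fun y => ¬ G.Adj (x i) y).card := by
    simp only [Nat.card_eq_fintype_card, Fintype.card_subtype, card_filter]
    exact sum_comm
  have hge : n + 1 ≤ ∑ y : V, Nat.card {i : Fin k // ¬ G.Adj (x i) y} := by
    have : ∑ _y : V, 1 ≤ ∑ y : V, Nat.card {i : Fin k // ¬ G.Adj (x i) y} :=
      sum_le_sum fun y _ => hA y
    rwa [sum_const, card_univ, hV, smul_eq_mul, mul_one] at this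
  obtain ⟨i, hi⟩ : ∃ i : Fin k,
      (n + s) / k + 1 ≤ (univ.filter fun y => ¬ G.Adj (x i) y).card := by
    by_contra hcon
    push Not at hcon
    have h4 : ∑ i : Fin k, (univ.filter fun y => ¬ G.Adj (x i) y).card
        ≤ ∑ _i : Fin k, (n + s) / k := by
      refine sum_le_sum fun i _ => ?_
      have := hcon i
      generalize (n + s) / k = q at this ⊢
      omega
    rw [sum_const, card_univ, Fintype.card_fin, smul_eq_mul, ← h3] at h4
    have := Nat.mul_div_le (n + s) k
    omega
  have h5 : G.degree (x i) + (univ.filter fun y => ¬ G.Adj (x i) y).card = n + 1 := by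
    rw [← SimpleGraph.card_neighborFinset_eq_degree, SimpleGraph.neighborFinset_eq_filter,
      card_filter_add_card_filter_not, card_univ, hV]
  have h6 := SimpleGraph.card_edgeFinset_induce_compl_singleton G (x i)
  have hcard : Fintype.card ({x i}ᶜ : Set V) = n := by
    rw [Fintype.card_compl_set, hV]
    simp
  have h7 := colNum_le_restrict hx i
  have h8 := edge_bound k hk n ({x i}ᶜ : Set V) hcard (G.induce ({x i}ᶜ : Set V)) s (hp.trans h7)
    (hs.trans (Nat.clog_mono_right 2 h7))
  have h9 : G.degree (x i) ≤ G.edgeFinset.card := by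
    rw [← SimpleGraph.card_incidenceFinset_eq_degree]
    exact card_le_card (SimpleGraph.incidenceFinset_subset G (x i))
  have h10 : n + 1 + s = (n + s) + 1 := by ring
  rw [h10, T_succ, choose_two_succ] at he
  have h11 : (G.induce ({x i}ᶜ : Set V)).edgeFinset.card = G.edgeFinset.card - G.degree (x i) := by
    rw [← SimpleGraph.card_edgeFinset_deleteIncidenceSet, ← h6]
  have h8' : (G.induce ({x i}ᶜ : Set V)).edgeFinset.card + T k (n + s)
      ≤ n.choose 2 + s.choose 2 :=
    le_trans (le_of_eq (congrArg (· + T k (n + s)) (card_edge_inst _ _ _))) h8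
  have h12 : (univ.filter fun y => ¬ G.Adj (x i) y).card = (n + s) / k + 1 := by
    rw [h11] at h8'
    generalize (n + s) / k = q at hi he ⊢
    omega
  refine ⟨x, i, hx, h12, ?_, h7⟩
  rw [h11]
  rw [h12] at h5
  generalize (n + s) / k = q at h5 he
  omega

open Classical in
theorem base_step {j : ℕ} (hj : 1 ≤ j) {n s : ℕ} {V : Type} [Fintype V]
    (hV : Fintype.card V = n + 1) (G : SimpleGraph V) {t : Fin (j + 1) → V}
    (ht : ∀ i l, i ≠ l → G.Adj (t i) (t l)) (i : Fin (j + 1))
    (hN1 : (univ.filter fun y => ¬ G.Adj (t i) y).card = (n + s) / (j + 1) + 1)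
    (he : (G.induce ({t i}ᶜ : Set V)).edgeFinset.card + T (j + 1) (n + s)
      = n.choose 2 + s.choose 2)
    (hcf : (G.induce ({t i}ᶜ : Set V)).CliqueFree (j + 1))
    (hp : 2 ^ s < 2 * colNum G (j + 1)) :
    ∃ c a M, RepOn G univ (j + 1) s c a M := by
  obtain ⟨x, hx⟩ : ∃ x, x = t i := ⟨_, rfl⟩
  rw [← hx] at hN1 he hcf
  have hcard : Fintype.card ({x}ᶜ : Set V) = n := by
    rw [Fintype.card_compl_set, hV]
    simp
  -- the edges of the smaller graph
  have hT := T_turan j hj n
  have h1 := SimpleGraph.CliqueFree.card_edgeFinset_le (r := j) (G := G.induce ({x}ᶜ : Set V)) hcf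
  rw [SimpleGraph.card_edgeFinset_turanGraph] at hT
  simp only [hcard] at h1
  have h2 := T_le_drop j hj n s
  have h3 := T_le_drop j hj n (s + 1)
  rw [← add_assoc, T_succ, choose_two_succ] at h3
  have he' : (G.induce ({x}ᶜ : Set V)).edgeFinset.card + T j n = n.choose 2 := by omega
  have hqs : (n + s) / (j + 1) ≤ s := by
    generalize (n + s) / (j + 1) = q at h3
    omega
  obtain ⟨c', hc'adj, hc'card⟩ := turan_struct j hj hcard _ hcf he'
  obtain ⟨c, hcx, hc⟩ : ∃ c : V → Fin (j + 1), c x = Fin.last j ∧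
      ∀ (y : V) (hy : y ∈ ({x}ᶜ : Set V)), c y = (c' ⟨y, hy⟩).castSucc := by
    refine ⟨fun y => if h : y ∈ ({x}ᶜ : Set V) then (c' ⟨y, h⟩).castSucc else Fin.last j, ?_,
      fun y hy => dif_pos hy⟩
    exact dif_neg (fun h => h rfl)
  have hcadj : ∀ y z, y ≠ x → z ≠ x → (G.Adj y z ↔ c y ≠ c z) := by
    intro y z hy hz
    have h4 := hc'adj ⟨y, hy⟩ ⟨z, hz⟩
    rw [hc y hy, hc z hz, ne_eq, Fin.castSucc_inj]
    exact h4
  have hcne : ∀ y, y ≠ x → c y ≠ Fin.last j := by
    intro y hy
    rw [hc y hy]
    exact Fin.castSucc_ne_last _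
  have hinj : Function.Injective (fun l => c (t l)) := by
    intro l m hlm
    change c (t l) = c (t m) at hlm
    by_contra hne
    have h4 := ht l m hne
    by_cases hl : t l = x
    · have hm : t m ≠ x := fun h5 => h4.ne (hl.trans h5.symm)
      rw [hl, hcx] at hlm
      exact hcne _ hm hlm.symm
    · by_cases hm : t m = x
      · rw [hm, hcx] at hlm
        exact hcne _ hl hlm
      · exact (hcadj _ _ hl hm).1 h4 hlm
  have hsur := Finite.surjective_of_injective hinj
  choose ℓ hℓ using hsur
  have hℓ' : ∀ m, c (t (ℓ m)) = m := hℓ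
  obtain ⟨N, hN⟩ : ∃ N : Finset V, ∀ y, y ∈ N ↔ y ≠ x ∧ ¬ G.Adj x y :=
    ⟨univ.filter fun y => y ≠ x ∧ ¬ G.Adj x y, fun y => by simp⟩
  have hxN : x ∉ N := fun h4 => ((hN x).1 h4).1 rfl
  have hNc : N.card = (n + s) / (j + 1) := by
    have h4 : (univ.filter fun y => ¬ G.Adj x y) = insert x N := by
      ext y
      rw [mem_filter, mem_insert, hN]
      constructor
      · rintro ⟨_, h5⟩
        by_cases h6 : y = x
        · exact Or.inl h6
        · exact Or.inr ⟨h6, h5⟩
      · rintro (h5 | h5)
        · rw [h5]; exact ⟨mem_univ _, G.loopless.irrefl x⟩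
        · exact ⟨mem_univ _, h5.2⟩
    rw [h4, card_insert_of_notMem hxN] at hN1
    generalize (n + s) / (j + 1) = q at hN1 ⊢
    omega
  have hP := colNum_le_cols ht
  have hle : (cols G t).card ≤ 2 ^ N.card := by
    apply card_le_two_pow _ _ (fun y => ℓ (c y)) (fun _ => i)
    · intro g hg y hy
      have hyx : y ≠ x := ((hN y).1 hy).1
      rw [mem_cols] at hg
      by_contra hcon
      push Not at hcon
      have h4 : t (g y) ≠ x := by
        rw [hx]
        exact (ht _ _ hcon.2).ne
      have h5 : c (t (g y)) ≠ c y := by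
        intro h6
        apply hcon.1
        apply hinj
        change c (t (g y)) = c (t (ℓ (c y)))
        rw [hℓ', h6]
      exact hg.2 _ _ ((hcadj _ _ h4 hyx).2 h5) (hg.1 _)
    · intro g hg g' hg' hagree
      have key : ∀ g ∈ cols G t, ∀ y, y ≠ x → y ∉ N → g y = ℓ (c y) := by
        intro g hg y hyx hyN
        rw [mem_cols] at hg
        by_contra hcon
        have h6 : G.Adj x y := by
          by_contra h6
          exact hyN ((hN y).2 ⟨hyx, h6⟩)
        have h7 : g y ≠ i := by
          have h8 := hg.2 _ _ h6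
          rw [hx, hg.1 i] at h8
          exact h8.symm
        have h4 : t (g y) ≠ x := by
          rw [hx]
          exact (ht _ _ h7).ne
        have h5 : c (t (g y)) ≠ c y := by
          intro h6
          apply hcon
          apply hinj
          change c (t (g y)) = c (t (ℓ (c y)))
          rw [hℓ', h6]
        exact hg.2 _ _ ((hcadj _ _ h4 hyx).2 h5) (hg.1 _)
      funext y
      by_cases hyx : y = x
      · rw [hyx, hx, (mem_cols.1 hg).1, (mem_cols.1 hg').1]
      · by_cases hyN : y ∈ N
        · exact hagree y hyN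
        · rw [key g hg y hyx hyN, key g' hg' y hyx hyN]
  have hsN : s ≤ N.card := by
    by_contra hcon
    push Not at hcon
    have h4 : 2 ^ (N.card + 1) ≤ 2 ^ s := Nat.pow_le_pow_right (by norm_num) hcon
    rw [pow_succ] at h4
    omega
  have hNs : N.card = s := by
    rw [hNc] at hsN ⊢
    exact le_antisymm hqs hsN
  rw [hNs] at hNc
  -- the size of `n`
  have hn1 : j * s ≤ n := by
    have h4 := Nat.mul_div_le (n + s) (j + 1)
    rw [← hNc] at h4
    have h5 : (j + 1) * s = j * s + s := by ring
    omega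
  have hn2 : n ≤ j * (s + 1) := by
    have h4 := Nat.lt_mul_div_succ (n + s) (Nat.succ_pos j)
    have h5 : (n + s) / j.succ = s := hNc.symm
    rw [h5] at h4
    have h6 : j.succ * (s + 1) = j * (s + 1) + (s + 1) := by
      rw [Nat.succ_eq_add_one]; ring
    omega
  have hsz : ∀ m : Fin j, (univ.filter fun y => c' y = m).card = s ∨
      (univ.filter fun y => c' y = m).card = s + 1 := by
    intro m
    obtain ⟨h4, h5⟩ := hc'card m
    have h6 : s < (univ.filter fun y => c' y = m).card + 1 :=
      Nat.lt_of_mul_lt_mul_left (lt_of_le_of_lt hn1 h4)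
    have h7 : (univ.filter fun y => c' y = m).card < s + 2 := by
      apply Nat.lt_of_mul_lt_mul_left (a := j)
      have h8 : j * (s + 2) = j * (s + 1) + j := by ring
      omega
    omega
  have hNx : ∀ y ∈ N, y ≠ x := fun y hy => ((hN y).1 hy).1
  refine ⟨c, Fin.last j, N, subset_univ _, hNs, fun m hm => hcne m (hNx m hm), ?_, ?_⟩
  · intro y _ z _ hyz
    by_cases hy : y = x
    · subst hy
      have hz : z ≠ y := hyz.symm
      have h4 := hcne z hz
      have h5 := hN z
      rw [hcx]
      constructor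
      · intro h6
        exact ⟨h4.symm, fun h7 => hxN h7.1, fun h7 => (h5.1 h7.1).2 h6⟩
      · rintro ⟨_, _, h6⟩
        by_contra h7
        exact h6 ⟨h5.2 ⟨hz, h7⟩, rfl⟩
    · by_cases hz : z = x
      · subst hz
        have h4 := hcne y hy
        have h5 := hN y
        rw [hcx, G.adj_comm]
        constructor
        · intro h6
          exact ⟨h4, fun h7 => (h5.1 h7.1).2 h6, fun h7 => hxN h7.1⟩
        · rintro ⟨_, h6, _⟩
          by_contra h7
          exact h6 ⟨h5.2 ⟨hy, h7⟩, rfl⟩
      · rw [hcadj y z hy hz]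
        constructor
        · intro h4
          exact ⟨h4, fun h5 => hcne z hz h5.2, fun h5 => hcne y hy h5.2⟩
        · exact fun h4 => h4.1
  · have hr : ∀ l, rho univ s c (Fin.last j) l = s ∨ rho univ s c (Fin.last j) l = s + 1 := by
      intro l
      unfold rho
      refine Fin.lastCases ?_ (fun m => ?_) l
      · rw [if_pos rfl]
        right
        have h4 : (univ.filter fun y => c y = Fin.last j) = {x} := by
          ext y
          rw [mem_filter, mem_singleton]
          constructor
          · rintro ⟨_, h5⟩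
            by_contra h6
            exact hcne y h6 h5
          · intro h5
            rw [h5]
            exact ⟨mem_univ _, hcx⟩
        rw [h4, card_singleton]
        omega
      · rw [if_neg (Fin.castSucc_ne_last m), add_zero]
        have h4 : (univ.filter fun y => c y = m.castSucc)
            = ((univ.erase x).filter fun y => c y = m.castSucc) := by
          ext y
          rw [mem_filter, mem_filter, mem_erase]
          constructor
          · rintro ⟨_, h5⟩
            refine ⟨⟨fun h6 => ?_, mem_univ _⟩, h5⟩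
            rw [h6, hcx] at h5
            exact Fin.castSucc_ne_last m h5.symm
          · rintro ⟨_, h5⟩
            exact ⟨mem_univ _, h5⟩
        rw [h4, card_filter_compl x (fun y => c y = m.castSucc) (fun y => c' y = m)
          (fun y hy => by rw [hc y hy, Fin.castSucc_inj])]
        exact hsz m
    intro l m
    rcases hr l with h4 | h4 <;> rcases hr m with h5 | h5 <;> omega

end Pool.Agent.H24.FD
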