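import Mathlib
import Pool.Agent.H24.FD.J

set_option autoImplicit false

/-!
# The classification: the induction
-/

namespace Pool.Agent.H24.FD

open Finset

open Classical in
lemma four_div {V : Type*} {G : SimpleGraph V} {U : Finset V} {k s n : ℕ} {c : V → Fin k}
    {a b : Fin k} {w0 w1 w2 w3 : V} (h : FourOn G U k s c a b w0 w1 w2 w3) (hn : U.card = n) :
    (n + s) / k = s + 1 := by
  obtain ⟨r, hr⟩ : ∃ r : Fin k → ℕ, ∀ i, r i = if i = a then s + 1 else if i = b then s + 2 else
      (U.filter fun y => c y = i).card := ⟨_, fun i => rfl⟩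
  have hb : (U.filter fun y => c y = b).card = 0 := by
    rw [card_eq_zero, filter_eq_empty_iff]
    exact fun y hy => h.nb y hy
  have h1 : ∑ i, ((U.filter fun y => c y = i).card + if i = b then s + 2 else 0)
      = ∑ i, (r i + if i = a then 2 else 0) := by
    refine sum_congr rfl fun i _ => ?_
    rw [hr]
    by_cases hia : i = a
    · rw [if_pos hia, if_pos hia, if_neg (fun h2 => h.ab (hia.symm.trans h2)), hia, h.carda]
    · rw [if_neg hia, if_neg hia]
      by_cases hib : i = b
      · rw [if_pos hib, if_pos hib, hib, hb]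
        omega
      · rw [if_neg hib, if_neg hib]
  rw [sum_add_distrib, sum_add_distrib, sum_ite_eq' univ b, if_pos (mem_univ _),
    sum_ite_eq' univ a, if_pos (mem_univ _)] at h1
  have h2 : ∑ i, (U.filter fun y => c y = i).card = n := by
    rw [← hn]
    exact (card_eq_sum_card_fiberwise (fun y _ => mem_univ (c y))).symm
  rw [h2] at h1
  have h3 : ∀ i, s + 1 ≤ r i ∧ r i ≤ s + 2 := by
    intro i
    rw [hr]
    by_cases hia : i = a
    · rw [if_pos hia]; omega
    · rw [if_neg hia]
      by_cases hib : i = b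
      · rw [if_pos hib]; omega
      · rw [if_neg hib]
        rcases h.card i hia hib with h4 | h4 <;> omega
  have h4 : ∑ _i : Fin k, (s + 1) ≤ ∑ i, r i := sum_le_sum fun i _ => (h3 i).1
  have h5 : ∑ i, r i < ∑ _i : Fin k, (s + 2) := by
    refine sum_lt_sum (fun i _ => (h3 i).2) ⟨a, mem_univ _, ?_⟩
    rw [hr, if_pos rfl]
    omega
  rw [sum_const, card_univ, Fintype.card_fin, smul_eq_mul] at h4 h5
  apply Nat.div_eq_of_lt_le
  · rw [mul_comm]; omega
  · rw [mul_comm]
    have h6 : k * (s + 1 + 1) = k * (s + 2) := rfl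
    omega

open Classical in
theorem classify (k : ℕ) (hk : 2 ≤ k) (s : ℕ) : ∀ (n : ℕ) (V : Type) [Fintype V],
    Fintype.card V = n → ∀ G : SimpleGraph V, 2 ^ s < 2 * colNum G k →
    G.edgeFinset.card + T k (n + s) = n.choose 2 + s.choose 2 → ¬ G.CliqueFree k →
    (∃ c a M, RepOn G univ k s c a M) ∨
      ∃ c a b w0 w1 w2 w3, FourOn G univ k s c a b w0 w1 w2 w3 := by
  intro n
  induction n with
  | zero =>
    intro V _ hV G _ _ hcl
    exact absurd (SimpleGraph.cliqueFree_of_card_lt (by rw [hV]; omega)) hcl
  | succ n ih =>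
    intro V _ hV G hp he hcl
    have hp1 : 1 ≤ colNum G k := by
      have := Nat.one_le_two_pow (n := s)
      omega
    obtain ⟨t, i, ht, hN1, he', hle⟩ :=
      removal (by omega) hV G s hp1 (le_clog_of hp) he hcl
    by_cases hcf : (G.induce ({t i}ᶜ : Set V)).CliqueFree k
    · left
      obtain ⟨j, rfl⟩ : ∃ j, k = j + 1 := ⟨k - 1, by omega⟩
      exact base_step (by omega) hV G ht i hN1 he' hcf hp
    · obtain ⟨x, hx⟩ : ∃ x, x = t i := ⟨_, rfl⟩
      rw [← hx] at hN1 he' hcf hle
      have hcard : Fintype.card ({x}ᶜ : Set V) = n := by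
        rw [Fintype.card_compl_set, hV]
        simp
      have h1 := ih ({x}ᶜ : Set V) hcard (G.induce ({x}ᶜ : Set V)) (by omega)
        (le_antisymm (le_trans (le_of_eq (congrArg (· + T k (n + s)) (card_edge_inst _ _ _)))
          he'.le) (he'.ge.trans (le_of_eq (congrArg (· + T k (n + s)) (card_edge_inst _ _ _))))) hcf
      obtain ⟨N, hN⟩ : ∃ N : Finset V, ∀ y, y ∈ N ↔ y ≠ x ∧ ¬ G.Adj x y :=
        ⟨univ.filter fun y => y ≠ x ∧ ¬ G.Adj x y, fun y => by simp⟩
      have hxN : x ∉ N := fun h4 => ((hN x).1 h4).1 rfl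
      have hNc : N.card = (n + s) / k := by
        have h4 : (univ.filter fun y => ¬ G.Adj x y) = insert x N := by
          ext y
          rw [mem_filter, mem_insert, hN]
          constructor
          · rintro ⟨_, h5⟩
            by_cases h6 : y = x
            · exact Or.inl h6
            · exact Or.inr ⟨h6, h5⟩
          · rintro (h5 | h5)
            · rw [h5]; exact ⟨mem_univ _, G.loopless.irrefl x⟩
            · exact ⟨mem_univ _, h5.2⟩
        rw [h4, card_insert_of_notMem hxN] at hN1
        generalize (n + s) / k = q at hN1 ⊢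
        omega
      have hUc : (univ.erase x).card = n := by
        rw [card_erase_of_mem (mem_univ _), card_univ, hV]
        omega
      rcases h1 with ⟨c', a, M', h⟩ | ⟨c', a, b, w0, w1, w2, w3, h⟩
      · obtain ⟨c, M, h⟩ := transfer_rep h
        rw [SimpleGraph.not_cliqueFree_iff_top_isContained] at hcf
        obtain ⟨f⟩ := hcf
        have hR : ∀ i, ∃ y, y ≠ x ∧ y ∉ M ∧ c y = i := by
          intro i
          obtain ⟨y, h2, h3, h4⟩ := rep_clique h (t := fun i => (f i : V))
            (fun i l hil => f.toHom.map_adj hil) (fun i => mem_erase.2 ⟨(f i).2, mem_univ _⟩) i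
          exact ⟨y, (mem_erase.1 h2).1, h3, h4⟩
        have hsum := rho_sum (univ.erase x) s c a
        rw [hUc] at hsum
        have hD : ∀ i, N.card ≤ rho (univ.erase x) s c a i := by
          intro i
          rw [hNc]
          exact bal_le hsum h.bal i
        have hsD : s ≤ N.card := by
          have h2 : s + 1 ≤ rho (univ.erase x) s c a a := by
            obtain ⟨y, h3, h4, h5⟩ := hR a
            have h6 : 1 ≤ ((univ.erase x).filter fun y => c y = a).card :=
              card_pos.2 ⟨y, mem_filter.2 ⟨mem_erase.2 ⟨h3, mem_univ _⟩, h5⟩⟩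
            unfold rho
            rw [if_pos rfl]
            omega
          have h3 : ∑ _i : Fin k, s ≤ ∑ i, rho (univ.erase x) s c a i := by
            refine sum_le_sum fun i _ => ?_
            have h4 := h.bal a i
            omega
          rw [hsum, sum_const, card_univ, Fintype.card_fin, smul_eq_mul] at h3
          rw [hNc, Nat.le_div_iff_mul_le (by omega), mul_comm]
          exact h3
        rcases step h hR hN hD hsD hp with ⟨c'', h2⟩ | ⟨c'', b, w0, w1, w2, w3, h2⟩
        · exact Or.inl ⟨c'', a, M, h2⟩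
        · exact Or.inr ⟨c'', a, b, w0, w1, w2, w3, h2⟩
      · obtain ⟨c, h⟩ := transfer_four h
        have hNs : N.card = s + 1 := by
          rw [hNc]
          exact four_div h hUc
        obtain ⟨c'', h2⟩ := step_four h hN hNs hp
        exact Or.inr ⟨c'', a, b, _, _, _, _, h2⟩

end Pool.Agent.H24.FD
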