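import Mathlib
import Pool.Agent.H24.FD.K
import Pool.Agent.H24.FD.C

set_option autoImplicit false

/-!
# The numbers of edges and of colourings of the extremal graphs
-/

namespace Pool.Agent.H24.FD

open Finset

lemma sum_choose_of_bounds {k : ℕ} {r : Fin k → ℕ} {q : ℕ} (h : ∀ i, q ≤ r i ∧ r i ≤ q + 1) :
    ∑ i, (r i).choose 2 + k * (q * q) = k * q.choose 2 + q * ∑ i, r i := by
  have h1 : ∀ i, (r i).choose 2 + q * q = q.choose 2 + q * r i := by
    intro i
    obtain ⟨h2, h3⟩ := h i
    rcases Nat.lt_or_ge (r i) (q + 1) with h4 | h4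
    · have h5 : r i = q := by omega
      rw [h5]
    · have h5 : r i = q + 1 := by omega
      rw [h5, choose_two_succ]
      ring
  have h2 : ∑ i, ((r i).choose 2 + q * q) = ∑ i, (q.choose 2 + q * r i) :=
    sum_congr rfl fun i _ => h1 i
  rw [sum_add_distrib, sum_add_distrib, sum_const, sum_const, card_univ, Fintype.card_fin,
    smul_eq_mul, smul_eq_mul, ← mul_sum] at h2
  exact h2

lemma bal_T {k : ℕ} (hk : 1 ≤ k) {r : Fin k → ℕ} {N : ℕ} (hsum : ∑ i, r i = N)
    (hbal : ∀ i j, r i ≤ r j + 1) : ∑ i, (r i).choose 2 = T k N := by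
  obtain ⟨b, hb, hlo, hhi, hT⟩ := exists_balanced k hk N
  have h1 : ∀ i, N / k ≤ r i ∧ r i ≤ N / k + 1 := by
    intro i
    refine ⟨bal_le hsum hbal i, ?_⟩
    by_contra hcon
    push Not at hcon
    have h2 : ∑ _j : Fin k, (N / k + 1) ≤ ∑ j, r j := by
      refine sum_le_sum fun j _ => ?_
      have h3 := hbal i j
      generalize N / k = q at hcon ⊢
      omega
    rw [sum_const, card_univ, Fintype.card_fin, smul_eq_mul, hsum] at h2
    have h3 := Nat.lt_mul_div_succ N (by omega : 0 < k)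
    omega
  have h2 := sum_choose_of_bounds h1
  have h3 := sum_choose_of_bounds (fun i => ⟨hlo i, hhi i⟩)
  rw [hsum] at h2
  rw [hb] at h3
  omega

variable {V : Type*}

open Classical in
lemma nonadj_card [Fintype V] (G : SimpleGraph V) :
    2 * G.edgeFinset.card + (univ.filter fun p : V × V => ¬ G.Adj p.1 p.2).card
      = Fintype.card V ^ 2 := by
  rw [SimpleGraph.two_mul_card_edgeFinset, card_filter_add_card_filter_not, card_univ,
    Fintype.card_prod, sq]

open Classical in
theorem rep_edges [Fintype V] {G : SimpleGraph V} {k s n : ℕ} (hk : 1 ≤ k)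
    (hV : Fintype.card V = n) {c : V → Fin k} {a : Fin k} {M : Finset V}
    (h : RepOn G univ k s c a M) :
    n.choose 2 + s.choose 2 ≤ G.edgeFinset.card + T k (n + s) := by
  obtain ⟨C, hC⟩ : ∃ C : Fin k → Finset V, ∀ i y, y ∈ C i ↔ c y = i :=
    ⟨fun i => univ.filter fun y => c y = i, fun i y => by simp⟩
  have hCc : ∀ i, rho univ s c a i = (C i).card + if i = a then s else 0 := by
    intro i
    unfold rho
    congr 2
    ext y
    rw [mem_filter, hC]
    simp
  have hsum := rho_sum univ s c a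
  rw [card_univ, hV] at hsum
  have hT := bal_T hk hsum h.bal
  have h1 := nonadj_card G
  rw [hV] at h1
  have h2 : (univ.filter fun p : V × V => ¬ G.Adj p.1 p.2) ⊆
      ((univ.biUnion fun i => C i ×ˢ C i) ∪ (M ×ˢ C a)) ∪ (C a ×ˢ M) := by
    intro p hp
    rw [mem_filter] at hp
    have hp2 := hp.2
    rw [mem_union, mem_union, mem_biUnion, mem_product, mem_product, hC, hC]
    by_cases hpp : p.1 = p.2
    · left; left
      refine ⟨c p.1, mem_univ _, ?_⟩
      rw [mem_product, hC, hC, hpp]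
      exact ⟨rfl, rfl⟩
    · rw [h.adj _ (mem_univ _) _ (mem_univ _) hpp] at hp2
      by_cases h3 : c p.1 = c p.2
      · left; left
        refine ⟨c p.1, mem_univ _, ?_⟩
        rw [mem_product, hC, hC]
        exact ⟨rfl, h3.symm⟩
      · by_cases h4 : p.1 ∈ M ∧ c p.2 = a
        · exact Or.inl (Or.inr h4)
        · by_cases h5 : p.2 ∈ M ∧ c p.1 = a
          · exact Or.inr ⟨h5.2, h5.1⟩
          · exact absurd ⟨h3, h4, h5⟩ hp2
  have h3 := card_le_card h2
  have h4 := card_union_le ((univ.biUnion fun i => C i ×ˢ C i) ∪ (M ×ˢ C a)) (C a ×ˢ M)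
  have h5 := card_union_le (univ.biUnion fun i => C i ×ˢ C i) (M ×ˢ C a)
  have h6 : (univ.biUnion fun i => C i ×ˢ C i).card ≤ ∑ i, (C i).card ^ 2 := by
    refine card_biUnion_le.trans (sum_le_sum fun i _ => ?_)
    rw [card_product, sq]
  rw [card_product, h.card] at h5
  rw [card_product, h.card] at h4
  have h7 : ∑ i, rho univ s c a i ^ 2 = ∑ i, (C i).card ^ 2 + (2 * ((C a).card * s) + s ^ 2) := by
    have h8 : ∀ i, rho univ s c a i ^ 2
        = (C i).card ^ 2 + if i = a then 2 * ((C a).card * s) + s ^ 2 else 0 := by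
      intro i
      rw [hCc]
      by_cases hia : i = a
      · rw [if_pos hia, if_pos hia, hia]
        ring
      · rw [if_neg hia, if_neg hia]
        ring
    rw [sum_congr rfl fun i _ => h8 i, sum_add_distrib, sum_ite_eq' univ a, if_pos (mem_univ _)]
  have h9 : ∑ i, rho univ s c a i ^ 2 = 2 * T k (n + s) + (n + s) := by
    rw [← hT, ← hsum, mul_sum, ← sum_add_distrib]
    exact sum_congr rfl fun i _ => (two_choose _).symm
  have h10 := two_choose n
  have h11 := two_choose s
  have h12 : s * (C a).card = (C a).card * s := mul_comm _ _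
  omega

open Classical in
theorem four_edges [Fintype V] {G : SimpleGraph V} {k s n : ℕ} (hk : 1 ≤ k)
    (hV : Fintype.card V = n) {c : V → Fin k} {a b : Fin k} {w0 w1 w2 w3 : V}
    (h : FourOn G univ k s c a b w0 w1 w2 w3) :
    n.choose 2 + s.choose 2 ≤ G.edgeFinset.card + T k (n + s) := by
  obtain ⟨C, hC⟩ : ∃ C : Fin k → Finset V, ∀ i, C i = univ.filter fun y => c y = i :=
    ⟨_, fun i => rfl⟩
  have hCm : ∀ i y, y ∈ C i ↔ c y = i := by
    intro i y
    rw [hC, mem_filter]
    simp
  have hCa : (C a).card = s + 3 := by rw [hC]; exact h.carda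
  have hCb : (C b).card = 0 := by
    rw [card_eq_zero, hC, filter_eq_empty_iff]
    exact fun y hy => h.nb y hy
  have hCi : ∀ i, i ≠ a → i ≠ b → (C i).card = s + 1 ∨ (C i).card = s + 2 := by
    intro i hia hib
    rw [hC]
    exact h.card i hia hib
  obtain ⟨r, hr⟩ : ∃ r : Fin k → ℕ, ∀ i, r i = if i = a then s + 1 else if i = b then s + 2 else
      (C i).card := ⟨_, fun i => rfl⟩
  have hra : r a = s + 1 := by rw [hr, if_pos rfl]
  have hrb : r b = s + 2 := by rw [hr, if_neg h.ab.symm, if_pos rfl]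
  have hri : ∀ i, i ≠ a → i ≠ b → r i = (C i).card := fun i h1 h2 => by
    rw [hr, if_neg h1, if_neg h2]
  have hsplit : ∀ f : Fin k → ℕ, ∑ i, f i = f a + (f b + ∑ i ∈ (univ.erase a).erase b, f i) := by
    intro f
    rw [← add_sum_erase _ _ (mem_univ a), ← add_sum_erase (univ.erase a) _
      (mem_erase.2 ⟨h.ab.symm, mem_univ b⟩)]
  have hsumC : ∑ i, (C i).card = n := by
    rw [← hV, ← card_univ]
    rw [card_eq_sum_card_fiberwise (f := c) (t := univ) (fun y _ => mem_univ (c y))]
    exact sum_congr rfl fun i _ => by rw [hC]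
  have e1 := hsplit (fun i => (C i).card)
  have e2 := hsplit r
  have e3 := hsplit (fun i => (C i).card ^ 2)
  have e4 := hsplit (fun i => r i ^ 2)
  have e5 : ∑ i ∈ (univ.erase a).erase b, r i = ∑ i ∈ (univ.erase a).erase b, (C i).card := by
    refine sum_congr rfl fun i hi => ?_
    rw [mem_erase, mem_erase] at hi
    exact hri i hi.2.1 hi.1
  have e6 : ∑ i ∈ (univ.erase a).erase b, r i ^ 2
      = ∑ i ∈ (univ.erase a).erase b, (C i).card ^ 2 := by
    refine sum_congr rfl fun i hi => ?_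
    rw [mem_erase, mem_erase] at hi
    rw [hri i hi.2.1 hi.1]
  rw [hCa, hCb] at e1 e3
  rw [hra, hrb] at e2 e4
  have hsum : ∑ i, r i = n + s := by omega
  have hbd : ∀ i, s + 1 ≤ r i ∧ r i ≤ s + 2 := by
    intro i
    by_cases hia : i = a
    · rw [hia, hra]; omega
    · by_cases hib : i = b
      · rw [hib, hrb]; omega
      · rw [hri i hia hib]
        rcases hCi i hia hib with h1 | h1 <;> omega
  have hT := bal_T hk hsum (fun i j => by
    have := hbd i
    have := hbd j
    omega)
  have h1 := nonadj_card G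
  rw [hV] at h1
  have hadj02 : G.Adj w0 w2 := (h.adj _ h.m0 _ h.m2 h.d02).2 (Or.inr (Or.inl ⟨rfl, rfl⟩))
  have hadj13 : G.Adj w1 w3 :=
    (h.adj _ h.m1 _ h.m3 h.d13).2 (Or.inr (Or.inr (Or.inr (Or.inl ⟨rfl, rfl⟩))))
  have h2 : (univ.filter fun p : V × V => ¬ G.Adj p.1 p.2) ∪
      {(w0, w2), (w2, w0), (w1, w3), (w3, w1)} ⊆ univ.biUnion fun i => C i ×ˢ C i := by
    intro p hp
    rw [mem_biUnion]
    rw [mem_union, mem_filter] at hp
    rcases hp with hp | hp
    · have hp2 := hp.2
      refine ⟨c p.1, mem_univ _, ?_⟩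
      rw [mem_product, hCm, hCm]
      refine ⟨rfl, ?_⟩
      by_contra h3
      apply hp2
      rw [h.adj _ (mem_univ _) _ (mem_univ _) (fun h4 => h3 (by rw [h4]))]
      exact Or.inl (Ne.symm h3)
    · refine ⟨a, mem_univ _, ?_⟩
      rw [mem_product, hCm, hCm]
      simp only [mem_insert, mem_singleton] at hp
      rcases hp with rfl | rfl | rfl | rfl
      · exact ⟨h.c0, h.c2⟩
      · exact ⟨h.c2, h.c0⟩
      · exact ⟨h.c1, h.c3⟩
      · exact ⟨h.c3, h.c1⟩
  have h3 : Disjoint (univ.filter fun p : V × V => ¬ G.Adj p.1 p.2)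
      {(w0, w2), (w2, w0), (w1, w3), (w3, w1)} := by
    rw [disjoint_right]
    intro p hp hp'
    have hp2 := (mem_filter.1 hp').2
    simp only [mem_insert, mem_singleton] at hp
    rcases hp with rfl | rfl | rfl | rfl
    · exact hp2 hadj02
    · exact hp2 hadj02.symm
    · exact hp2 hadj13
    · exact hp2 hadj13.symm
  have h4 : ({(w0, w2), (w2, w0), (w1, w3), (w3, w1)} : Finset (V × V)).card = 4 := by
    have n3 : (w1, w3) ∉ ({(w3, w1)} : Finset (V × V)) := by
      rw [mem_singleton, Prod.mk.injEq]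
      exact fun h5 => h.d13 h5.1
    have n2 : (w2, w0) ∉ ({(w1, w3), (w3, w1)} : Finset (V × V)) := by
      rw [mem_insert, mem_singleton, Prod.mk.injEq, Prod.mk.injEq]
      exact fun h5 => h5.elim (fun h6 => h.d12 h6.1.symm) (fun h6 => h.d23 h6.1)
    have n1 : (w0, w2) ∉ ({(w2, w0), (w1, w3), (w3, w1)} : Finset (V × V)) := by
      rw [mem_insert, mem_insert, mem_singleton, Prod.mk.injEq, Prod.mk.injEq, Prod.mk.injEq]
      exact fun h5 => h5.elim (fun h6 => h.d02 h6.1)
        (fun h6 => h6.elim (fun h7 => h.d01 h7.1) (fun h7 => h.d03 h7.1))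
    rw [card_insert_of_notMem n1, card_insert_of_notMem n2, card_insert_of_notMem n3,
      card_singleton]
  have h5 := card_le_card h2
  rw [card_union_of_disjoint h3, h4] at h5
  have h6 : (univ.biUnion fun i => C i ×ˢ C i).card ≤ ∑ i, (C i).card ^ 2 := by
    refine card_biUnion_le.trans (sum_le_sum fun i _ => ?_)
    rw [card_product, sq]
  have h9 : ∑ i, r i ^ 2 = 2 * T k (n + s) + (n + s) := by
    rw [← hT, ← hsum, mul_sum, ← sum_add_distrib]
    exact sum_congr rfl fun i _ => (two_choose _).symm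
  have h10 := two_choose n
  have h11 := two_choose s
  rw [e4, e6] at h9
  rw [e3] at h6
  nlinarith

end Pool.Agent.H24.FD
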