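import Mathlib
import Pool.Agent.H24.FD.L

set_option autoImplicit false

/-!
# The numbers of colourings of the extremal graphs
-/

namespace Pool.Agent.H24.FD

open Finset

variable {V : Type*}

lemma colNum_ge [Fintype V] {G : SimpleGraph V} {k : ℕ} {ι : Type*} (S : Finset ι)
    (g : ι → V → Fin k)
    (hprop : ∀ i ∈ S, ∀ y z, G.Adj y z → g i y ≠ g i z)
    (hinj : ∀ i ∈ S, ∀ i' ∈ S, (∀ y z, g i y = g i z ↔ g i' y = g i' z) → i = i') :
    S.card ≤ colNum G k := by
  classical
  have e : S.card = Nat.card S := by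
    rw [Nat.card_eq_fintype_card, Fintype.card_coe]
  rw [e]
  unfold colNum
  have hfin := finite_setoid V
  have hcol : ∀ i : S, IsCol G k (Setoid.ker (g i)) := by
    intro i
    constructor
    · have h : Function.Injective (Setoid.kerLift (g i)) := Setoid.kerLift_injective _
      have := Nat.card_le_card_of_injective _ h
      rwa [Nat.card_eq_fintype_card (α := Fin k), Fintype.card_fin] at this
    · intro y z hyz hadj
      exact hprop i i.2 y z hadj hyz
  refine Nat.card_le_card_of_injective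
    (fun i : S => (⟨Setoid.ker (g i), hcol i⟩ : {r : Setoid V // IsCol G k r})) ?_
  intro i i' h
  apply Subtype.ext
  refine hinj i i.2 i' i'.2 fun y z => ?_
  have h1 : Setoid.ker (g i) = Setoid.ker (g i') := congrArg Subtype.val h
  have h2 : Setoid.ker (g i) y z ↔ Setoid.ker (g i') y z := by rw [h1]
  exact h2

open Classical in
theorem rep_colNum_ge [Fintype V] {G : SimpleGraph V} {k s : ℕ} {c : V → Fin k} {a : Fin k}
    {M : Finset V} (h : RepOn G univ k s c a M) (hy : ∀ m ∈ M, ∃ y, y ∉ M ∧ c y = c m)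
    (S : Finset (Finset V)) (hS : ∀ A ∈ S, A ⊆ M)
    (hmono : ∀ A ∈ S, ∀ m ∈ A, ∀ m' ∈ A, c m = c m') :
    S.card ≤ colNum G k := by
  apply colNum_ge S (fun A y => if y ∈ A then a else c y)
  · intro A hA y z hyz
    have h1 := (h.adj y (mem_univ _) z (mem_univ _) hyz.ne).1 hyz
    by_cases hyA : y ∈ A
    · by_cases hzA : z ∈ A
      · exact absurd (hmono A hA y hyA z hzA) h1.1
      · rw [if_pos hyA, if_neg hzA]
        exact fun h2 => h1.2.1 ⟨hS A hA hyA, h2.symm⟩
    · by_cases hzA : z ∈ A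
      · rw [if_neg hyA, if_pos hzA]
        exact fun h2 => h1.2.2 ⟨hS A hA hzA, h2⟩
      · rw [if_neg hyA, if_neg hzA]
        exact h1.1
  · intro A hA A' hA' heq
    have key : ∀ A ∈ S, ∀ m ∈ M, ∀ y, y ∉ M → c y = c m →
        (m ∈ A ↔ ¬ ((if m ∈ A then a else c m) = (if y ∈ A then a else c y))) := by
      intro A hA m hm y hyM hcy
      have hyA : y ∉ A := fun h1 => hyM (hS A hA h1)
      rw [if_neg hyA, hcy]
      by_cases hmA : m ∈ A
      · rw [if_pos hmA]
        exact ⟨fun _ h1 => h.ne m hm h1.symm, fun _ => hmA⟩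
      · rw [if_neg hmA]
        exact ⟨fun h1 => absurd h1 hmA, fun h1 => absurd rfl h1⟩
    have h2 : ∀ m ∈ M, (m ∈ A ↔ m ∈ A') := by
      intro m hm
      obtain ⟨y, hyM, hcy⟩ := hy m hm
      rw [key A hA m hm y hyM hcy, key A' hA' m hm y hyM hcy]
      exact not_congr (heq m y)
    ext m
    constructor
    · intro hm
      exact (h2 m (hS A hA hm)).1 hm
    · intro hm
      exact (h2 m (hS A' hA' hm)).2 hm

open Classical in
theorem four_colNum_ge [Fintype V] {G : SimpleGraph V} {k s : ℕ} {c : V → Fin k} {a b : Fin k}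
    {w0 w1 w2 w3 : V} (h : FourOn G univ k s c a b w0 w1 w2 w3) :
    2 ^ s ≤ colNum G k := by
  obtain ⟨M1, hM1⟩ : ∃ M1 : Finset V, ∀ z, z ∈ M1 ↔ c z = a ∧ z ≠ w0 ∧ z ≠ w2 ∧ z ≠ w3 :=
    ⟨univ.filter fun z => c z = a ∧ z ≠ w0 ∧ z ≠ w2 ∧ z ≠ w3, fun z => by simp⟩
  have hM1c : M1.card = s := by
    have h1 : (univ.filter fun y => c y = a) = insert w0 (insert w2 (insert w3 M1)) := by
      ext z
      simp only [mem_filter, mem_univ, true_and, mem_insert, hM1]
      constructor
      · intro h2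
        by_cases e0 : z = w0
        · exact Or.inl e0
        by_cases e2 : z = w2
        · exact Or.inr (Or.inl e2)
        by_cases e3 : z = w3
        · exact Or.inr (Or.inr (Or.inl e3))
        exact Or.inr (Or.inr (Or.inr ⟨h2, e0, e2, e3⟩))
      · rintro (h1 | h1 | h1 | h1)
        · rw [h1]; exact h.c0
        · rw [h1]; exact h.c2
        · rw [h1]; exact h.c3
        · exact h1.1
    have n3 : w3 ∉ M1 := fun h1 => ((hM1 _).1 h1).2.2.2 rfl
    have n2 : w2 ∉ insert w3 M1 := by
      rw [mem_insert]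
      exact fun h1 => h1.elim h.d23 fun h2 => ((hM1 _).1 h2).2.2.1 rfl
    have n0 : w0 ∉ insert w2 (insert w3 M1) := by
      rw [mem_insert, mem_insert]
      exact fun h1 => h1.elim h.d02 fun h2 => h2.elim h.d03 fun h3 => ((hM1 _).1 h3).2.1 rfl
    have h2 := h.carda
    rw [h1, card_insert_of_notMem n0, card_insert_of_notMem n2, card_insert_of_notMem n3] at h2
    omega
  have hw1 : w1 ∈ M1 := (hM1 w1).2 ⟨h.c1, h.d01.symm, h.d12, h.d13⟩
  rw [← hM1c, ← card_powerset]
  obtain ⟨g, hg⟩ : ∃ g : Finset V → V → Fin k, ∀ B y, g B y =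
      if c y ≠ a then c y else if y = w0 then a else if y = w2 then b else if y = w3 then
        (if w1 ∈ B then b else a) else if y ∈ B then a else b := ⟨_, fun B y => rfl⟩
  have g_o : ∀ B y, c y ≠ a → g B y = c y := fun B y h1 => by rw [hg, if_pos h1]
  have g_a : ∀ B y, c y = a → g B y = a ∨ g B y = b := by
    intro B y h1
    rw [hg, if_neg (not_not.2 h1)]
    split_ifs <;> simp
  have g_0 : ∀ B, g B w0 = a := fun B => by rw [hg, if_neg (not_not.2 h.c0), if_pos rfl]
  have g_2 : ∀ B, g B w2 = b := fun B => by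
    rw [hg, if_neg (not_not.2 h.c2), if_neg h.d02.symm, if_pos rfl]
  have g_3 : ∀ B, g B w3 = if w1 ∈ B then b else a := fun B => by
    rw [hg, if_neg (not_not.2 h.c3), if_neg h.d03.symm, if_neg h.d23.symm, if_pos rfl]
  have g_m : ∀ B y, y ∈ M1 → g B y = if y ∈ B then a else b := by
    intro B y h1
    obtain ⟨h2, h3, h4, h5⟩ := (hM1 y).1 h1
    rw [hg, if_neg (not_not.2 h2), if_neg h3, if_neg h4, if_neg h5]
  apply colNum_ge _ g
  · intro B _ y z hyz
    rcases (h.adj y (mem_univ _) z (mem_univ _) hyz.ne).1 hyz with h1 | h1 | h1 | h1 | h1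
    · by_cases hy : c y = a
      · have hz : c z ≠ a := fun h2 => h1 (hy.trans h2.symm)
        rw [g_o B z hz]
        rcases g_a B y hy with h2 | h2
        · rw [h2]; exact hz.symm
        · rw [h2]; exact (h.nb z (mem_univ _)).symm
      · rw [g_o B y hy]
        by_cases hz : c z = a
        · rcases g_a B z hz with h2 | h2
          · rw [h2]; exact hy
          · rw [h2]; exact h.nb y (mem_univ _)
        · rw [g_o B z hz]
          exact h1
    · rw [h1.1, h1.2, g_0, g_2]; exact h.ab
    · rw [h1.1, h1.2, g_0, g_2]; exact h.ab.symm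
    · rw [h1.1, h1.2, g_3, g_m B w1 hw1]
      split_ifs
      · exact h.ab
      · exact h.ab.symm
    · rw [h1.1, h1.2, g_3, g_m B w1 hw1]
      split_ifs
      · exact h.ab.symm
      · exact h.ab
  · intro B hB B' hB' heq
    have key : ∀ B y, y ∈ M1 → (y ∈ B ↔ g B y = g B w0) := by
      intro B y hy
      rw [g_0, g_m B y hy]
      by_cases h1 : y ∈ B
      · rw [if_pos h1]; exact ⟨fun _ => rfl, fun _ => h1⟩
      · rw [if_neg h1]; exact ⟨fun h2 => absurd h2 h1, fun h2 => absurd h2.symm h.ab⟩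
    ext y
    constructor
    · intro hy
      have hyM := mem_powerset.1 hB hy
      rw [key B' y hyM, ← heq y w0, ← key B y hyM]
      exact hy
    · intro hy
      have hyM := mem_powerset.1 hB' hy
      rw [key B y hyM, heq y w0, ← key B' y hyM]
      exact hy

end Pool.Agent.H24.FD
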