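import Mathlib
import Pool.Agent.H24.FD.M

set_option autoImplicit false

/-!
# The three families
-/

namespace Pool.Agent.H24.FD

open Finset

variable {V : Type*}

/-- all vertices of `M` are in one class, which is not contained in `M` -/
def FamOne [Fintype V] (G : SimpleGraph V) (k s : ℕ) : Prop :=
  ∃ c a M, RepOn G univ k s c a M ∧ ∃ b, (∀ m ∈ M, c m = b) ∧ ∃ y, y ∉ M ∧ c y = b

/-- all but one vertex of `M` are in one class -/
def FamTwo [Fintype V] (G : SimpleGraph V) (k s : ℕ) : Prop :=
  ∃ c a M, RepOn G univ k s c a M ∧ ∃ b, ∃ m' ∈ M, c m' ≠ b ∧ (∀ m ∈ M, m ≠ m' → c m = b) ∧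
    ∃ m ∈ M, m ≠ m'

def FamThree [Fintype V] (G : SimpleGraph V) (k s : ℕ) : Prop :=
  ∃ c a b w0 w1 w2 w3, FourOn G univ k s c a b w0 w1 w2 w3

open Classical in
theorem rep_types [Fintype V] {G : SimpleGraph V} {k s : ℕ} {c : V → Fin k} {a : Fin k}
    {M : Finset V} (h : RepOn G univ k s c a M) {t : Fin k → V}
    (ht : ∀ i j, i ≠ j → G.Adj (t i) (t j)) (hs : 1 ≤ s) (hp : 2 ^ s < 2 * colNum G k) :
    FamOne G k s ∨ (FamTwo G k s ∧ 2 * colNum G k ≤ 2 ^ s + 2) := by
  have hch := rep_clique h ht (fun i => mem_univ _)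
  choose t' _ ht'M ht'c using hch
  have adj' : ∀ y z, y ≠ z →
      (G.Adj y z ↔ c y ≠ c z ∧ ¬ (y ∈ M ∧ c z = a) ∧ ¬ (z ∈ M ∧ c y = a)) :=
    fun y z hyz => h.adj y (mem_univ _) z (mem_univ _) hyz
  have hcl : ∀ i j, i ≠ j → G.Adj (t' i) (t' j) := by
    intro i j hij
    have h1 : c (t' i) ≠ c (t' j) := by rw [ht'c, ht'c]; exact hij
    exact (adj' _ _ (fun he => h1 (congrArg c he))).2
      ⟨h1, fun h2 => ht'M i h2.1, fun h2 => ht'M j h2.1⟩
  have hP := colNum_le_cols hcl
  have f1 : ∀ g ∈ cols G t', ∀ y, y ∉ M → g y = c y := by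
    intro g hg y hyM
    rw [mem_cols] at hg
    by_contra hne
    have h1 : c y ≠ c (t' (g y)) := by rw [ht'c]; exact Ne.symm hne
    have h2 := (adj' y (t' (g y)) (fun he => h1 (congrArg c he))).2
      ⟨h1, fun h2 => hyM h2.1, fun h2 => ht'M _ h2.1⟩
    exact hg.2 _ _ h2 (hg.1 _).symm
  have f2 : ∀ g ∈ cols G t', ∀ m ∈ M, g m = c m ∨ g m = a := by
    intro g hg m hm
    rw [mem_cols] at hg
    by_contra hne
    push Not at hne
    have h1 : c m ≠ c (t' (g m)) := by rw [ht'c]; exact Ne.symm hne.1
    have h2 := (adj' m (t' (g m)) (fun he => h1 (congrArg c he))).2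
      ⟨h1, fun h2 => hne.2 (by rw [← h2.2, ht'c]), fun h2 => ht'M _ h2.1⟩
    exact hg.2 _ _ h2 (hg.1 _).symm
  have f3 : ∀ g ∈ cols G t', ∀ m ∈ M, ∀ m' ∈ M, g m = a → g m' = a → c m = c m' := by
    intro g hg m hm m' hm' h1 h2
    by_contra hne
    rw [mem_cols] at hg
    exact hg.2 _ _ ((adj' m m' (fun he => hne (congrArg c he))).2
      ⟨hne, fun h3 => h.ne m' hm' h3.2, fun h3 => h.ne m hm h3.2⟩) (h1.trans h2.symm)
  have det : ∀ g ∈ cols G t', ∀ g' ∈ cols G t', (∀ m ∈ M, (g m = a ↔ g' m = a)) → g = g' := by
    intro g hg g' hg' h1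
    funext y
    by_cases hyM : y ∈ M
    · by_cases h3 : g y = a
      · rw [h3, (h1 y hyM).1 h3]
      · rw [(f2 g hg y hyM).resolve_right h3,
          (f2 g' hg' y hyM).resolve_right fun h4 => h3 ((h1 y hyM).2 h4)]
    · rw [f1 g hg y hyM, f1 g' hg' y hyM]
  -- colourings for which only the vertices of `X` may move
  have hX : ∀ (P : Finset (V → Fin k)) (X : Finset V), X ⊆ M → P ⊆ cols G t' →
      (∀ g ∈ P, ∀ m ∈ M, m ∉ X → g m ≠ a) → P.card ≤ 2 ^ X.card := by
    intro P X hXM hPP hPX
    apply card_le_two_pow P X c (fun _ => a)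
    · intro g hg y hy
      exact f2 g (hPP hg) y (hXM hy)
    · intro g hg g' hg' hagree
      refine det g (hPP hg) g' (hPP hg') fun m hm => ?_
      by_cases hmX : m ∈ X
      · rw [hagree m hmX]
      · exact ⟨fun h1 => absurd h1 (hPX g hg m hm hmX), fun h1 => absurd h1 (hPX g' hg' m hm hmX)⟩
  have hsplit : ∀ b, (M.filter fun m => c m = b).card + (M.filter fun m => ¬ c m = b).card = s := by
    intro b
    rw [card_filter_add_card_filter_not, h.card]
  have hb : ∃ b, (M.filter fun m => ¬ c m = b).card ≤ 1 := by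
    by_contra hcon
    push Not at hcon
    by_cases hz : ∃ b, 2 ≤ (M.filter fun m => c m = b).card
    · obtain ⟨b, hb⟩ := hz
      have hb' := hcon b
      have h1 : cols G t' ⊆ ((cols G t').filter fun g => ∀ m ∈ M, c m ≠ b → g m ≠ a) ∪
          ((cols G t').filter fun g => ∀ m ∈ M, c m = b → g m ≠ a) := by
        intro g hg
        rw [mem_union, mem_filter, mem_filter]
        by_cases h2 : ∀ m ∈ M, c m = b → g m ≠ a
        · exact Or.inr ⟨hg, h2⟩
        · left
          refine ⟨hg, fun m hm hmb hma => ?_⟩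
          push Not at h2
          obtain ⟨m', hm', hmb', hma'⟩ := h2
          exact hmb ((f3 g hg m hm m' hm' hma hma').trans hmb')
      have h2 := (card_le_card h1).trans (card_union_le _ _)
      have h3 := hX ((cols G t').filter fun g => ∀ m ∈ M, c m ≠ b → g m ≠ a)
        (M.filter fun m => c m = b) (filter_subset _ _) (filter_subset _ _) (by
          intro g hg m hm hmX
          refine (mem_filter.1 hg).2 m hm fun h3 => hmX (mem_filter.2 ⟨hm, h3⟩))
      have h4 := hX ((cols G t').filter fun g => ∀ m ∈ M, c m = b → g m ≠ a)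
        (M.filter fun m => ¬ c m = b) (filter_subset _ _) (filter_subset _ _) (by
          intro g hg m hm hmX
          refine (mem_filter.1 hg).2 m hm ?_
          by_contra h3
          exact hmX (mem_filter.2 ⟨hm, h3⟩))
      have h5 := hsplit b
      obtain ⟨z, hz⟩ : ∃ z, z = (M.filter fun m => c m = b).card := ⟨_, rfl⟩
      obtain ⟨z', hz'⟩ : ∃ z', z' = (M.filter fun m => ¬ c m = b).card := ⟨_, rfl⟩
      rw [← hz] at hb h3 h5
      rw [← hz'] at hb' h4 h5
      have h6 : 4 ≤ 2 ^ z := by
        calc 4 = 2 ^ 2 := by norm_num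
          _ ≤ 2 ^ z := Nat.pow_le_pow_right (by norm_num) hb
      have h7 : 4 ≤ 2 ^ z' := by
        calc 4 = 2 ^ 2 := by norm_num
          _ ≤ 2 ^ z' := Nat.pow_le_pow_right (by norm_num) hb'
      rw [← h5, pow_add] at hp
      nlinarith
    · push Not at hz
      have h1 : (cols G t').card ≤ s + 1 := by
        have h2 : (cols G t').card ≤ (insert ∅ (M.image fun m => ({m} : Finset V))).card := by
          refine card_le_card_of_injOn (fun g => M.filter fun m => g m = a) ?_ ?_
          · intro g hg
            refine mem_coe.2 (mem_insert.2 ?_)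
            rcases (M.filter fun m => g m = a).eq_empty_or_nonempty with h3 | ⟨m, hm⟩
            · exact Or.inl h3
            · right
              rw [mem_image]
              obtain ⟨hmM, hma⟩ := mem_filter.1 hm
              refine ⟨m, hmM, ?_⟩
              ext m'
              rw [mem_singleton, mem_filter]
              constructor
              · intro h4
                rw [h4]
                exact ⟨hmM, hma⟩
              · rintro ⟨h4, h5⟩
                have h6 := f3 g hg m' h4 m hmM h5 hma
                have h7 : (M.filter fun y => c y = c m).card ≤ 1 := Nat.le_of_lt_succ (hz (c m))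
                exact card_le_one.1 h7 m' (mem_filter.2 ⟨h4, h6⟩) m (mem_filter.2 ⟨hmM, rfl⟩)
          · intro g hg g' hg' heq
            refine det g hg g' hg' fun m hm => ?_
            change (M.filter fun m => g m = a) = (M.filter fun m => g' m = a) at heq
            have h3 : m ∈ (M.filter fun m => g m = a) ↔ m ∈ (M.filter fun m => g' m = a) := by
              rw [heq]
            simp only [mem_filter, hm, true_and] at h3
            exact h3
        have h3 := card_insert_le ∅ (M.image fun m => ({m} : Finset V))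
        have h4 : (M.image fun m => ({m} : Finset V)).card ≤ M.card := card_image_le
        rw [h.card] at h4
        omega
      have h2 : 1 ≤ M.card := by rw [h.card]; exact hs
      obtain ⟨m, hm⟩ := card_pos.1 h2
      have h3 : 2 ≤ (M.filter fun y => ¬ c y = c m).card := hcon (c m)
      have h4 := hsplit (c m)
      have h5 : 1 ≤ (M.filter fun y => c y = c m).card := card_pos.2 ⟨m, mem_filter.2 ⟨hm, rfl⟩⟩
      obtain ⟨r, rfl⟩ : ∃ r, s = r + 3 := ⟨s - 3, by omega⟩
      have h6 : r < 2 ^ r := Nat.lt_two_pow_self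
      rw [pow_add] at hp
      omega
  obtain ⟨b, hb⟩ := hb
  rcases Nat.eq_zero_or_pos (M.filter fun m => ¬ c m = b).card with h0 | h0
  · left
    refine ⟨c, a, M, h, b, fun m hm => ?_, t' b, ht'M b, ht'c b⟩
    rw [card_eq_zero, filter_eq_empty_iff] at h0
    exact not_not.1 (h0 hm)
  · have h1 : (M.filter fun m => ¬ c m = b).card = 1 := by omega
    obtain ⟨m', hm'⟩ := card_eq_one.1 h1
    have hm'1 : m' ∈ M.filter fun m => ¬ c m = b := by rw [hm']; exact mem_singleton_self _
    obtain ⟨hm'M, hm'b⟩ := mem_filter.1 hm'1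
    have hoth : ∀ m ∈ M, m ≠ m' → c m = b := by
      intro m hm hne
      by_contra h2
      have h3 : m ∈ M.filter fun m => ¬ c m = b := mem_filter.2 ⟨hm, h2⟩
      rw [hm', mem_singleton] at h3
      exact hne h3
    by_cases hex : ∃ m ∈ M, m ≠ m'
    · right
      refine ⟨⟨c, a, M, h, b, m', hm'M, hm'b, hoth, hex⟩, ?_⟩
      have h2 : cols G t' ⊆ ((cols G t').filter fun g => g m' ≠ a) ∪
          ((cols G t').filter fun g => g m' = a) := by
        intro g hg
        rw [mem_union, mem_filter, mem_filter]
        by_cases h3 : g m' = a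
        · exact Or.inr ⟨hg, h3⟩
        · exact Or.inl ⟨hg, h3⟩
      have h3 := (card_le_card h2).trans (card_union_le _ _)
      have h4 := hX ((cols G t').filter fun g => g m' ≠ a) (M.erase m') (erase_subset _ _)
        (filter_subset _ _) (by
          intro g hg m hm hmX
          have h5 : m = m' := by
            by_contra h6
            exact hmX (mem_erase.2 ⟨h6, hm⟩)
          rw [h5]
          exact (mem_filter.1 hg).2)
      have h5 : ((cols G t').filter fun g => g m' = a).card ≤ 1 := by
        rw [card_le_one]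
        intro g hg g' hg'
        obtain ⟨hg, hga⟩ := mem_filter.1 hg
        obtain ⟨hg', hga'⟩ := mem_filter.1 hg'
        refine det g hg g' hg' fun m hm => ?_
        by_cases hmm : m = m'
        · rw [hmm, hga, hga']
        · constructor
          · intro h6
            exact absurd ((f3 g hg m' hm'M m hm hga h6).trans (hoth m hm hmm)) hm'b
          · intro h6
            exact absurd ((f3 g' hg' m' hm'M m hm hga' h6).trans (hoth m hm hmm)) hm'b
      rw [card_erase_of_mem hm'M, h.card] at h4
      obtain ⟨r, rfl⟩ : ∃ r, s = r + 1 := ⟨s - 1, by omega⟩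
      rw [Nat.add_sub_cancel] at h4
      rw [pow_succ]
      omega
    · left
      push Not at hex
      exact ⟨c, a, M, h, c m', fun m hm => by rw [hex m hm], t' (c m'), ht'M _, ht'c _⟩

open Classical in
theorem free_family {j n s : ℕ} (hj : 1 ≤ j) {V : Type} [Fintype V] (hV : Fintype.card V = n)
    (G : SimpleGraph V) (hn : j * s + 1 ≤ n) (hcf : G.CliqueFree (j + 1))
    (he : G.edgeFinset.card + T (j + 1) (n + s) = n.choose 2 + s.choose 2) :
    FamOne G (j + 1) s := by
  have hT := T_turan j hj n
  have h1 := SimpleGraph.CliqueFree.card_edgeFinset_le (r := j) (G := G) hcf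
  rw [SimpleGraph.card_edgeFinset_turanGraph] at hT
  simp only [hV] at h1
  have h2 := T_le_drop j hj n s
  have h3 := T_le_drop j hj n (s + 1)
  rw [← add_assoc, T_succ, choose_two_succ] at h3
  have he' : G.edgeFinset.card + T j n = n.choose 2 := by omega
  have hqs : (n + s) / (j + 1) ≤ s := by
    generalize (n + s) / (j + 1) = q at h3
    omega
  obtain ⟨c', hc'adj, hc'card⟩ := turan_struct j hj hV _ hcf he'
  have hn2 : n ≤ j * (s + 1) := by
    have h4 := Nat.lt_mul_div_succ (n + s) (Nat.succ_pos j)
    have h5 : j.succ * ((n + s) / j.succ + 1) ≤ j.succ * (s + 1) :=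
      Nat.mul_le_mul_left _ (Nat.succ_le_succ hqs)
    have h6 : j.succ * (s + 1) = j * (s + 1) + (s + 1) := by
      rw [Nat.succ_eq_add_one]; ring
    omega
  have hsz : ∀ m : Fin j, (univ.filter fun y => c' y = m).card = s ∨
      (univ.filter fun y => c' y = m).card = s + 1 := by
    intro m
    obtain ⟨h4, h5⟩ := hc'card m
    have h6 : s < (univ.filter fun y => c' y = m).card + 1 :=
      Nat.lt_of_mul_lt_mul_left (lt_of_le_of_lt (Nat.le_of_succ_le hn) h4)
    have h7 : (univ.filter fun y => c' y = m).card < s + 2 := by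
      apply Nat.lt_of_mul_lt_mul_left (a := j)
      have h8 : j * (s + 2) = j * (s + 1) + j := by ring
      omega
    omega
  obtain ⟨b, hb⟩ : ∃ b, (univ.filter fun y => c' y = b).card = s + 1 := by
    by_contra hcon
    push Not at hcon
    have h4 : ∑ m, (univ.filter fun y => c' y = m).card = n := by
      rw [← hV, ← card_univ]
      exact (card_eq_sum_card_fiberwise (fun y _ => mem_univ (c' y))).symm
    rw [sum_congr rfl fun m _ => (hsz m).resolve_right (hcon m), sum_const, card_univ,
      Fintype.card_fin, smul_eq_mul] at h4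
    omega
  obtain ⟨M, hMsub, hMc⟩ := exists_subset_card_eq
    (show s ≤ (univ.filter fun y => c' y = b).card by omega)
  have hMb : ∀ m ∈ M, c' m = b := fun m hm => (mem_filter.1 (hMsub hm)).2
  obtain ⟨y, hy1, hy2⟩ : ∃ y, y ∉ M ∧ c' y = b := by
    by_contra hcon
    push Not at hcon
    have h4 : (univ.filter fun y => c' y = b) ⊆ M := by
      intro y hy
      by_contra h5
      exact hcon y h5 (mem_filter.1 hy).2
    have h5 := card_le_card h4
    omega
  refine ⟨fun y => (c' y).castSucc, Fin.last j, M, ⟨subset_univ _, hMc, ?_, ?_, ?_⟩, b.castSucc,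
    ?_, y, hy1, ?_⟩
  · intro m _
    exact Fin.castSucc_ne_last _
  · intro y _ z _ _
    rw [hc'adj, ne_eq, ne_eq, Fin.castSucc_inj]
    constructor
    · intro h4
      exact ⟨h4, fun h5 => Fin.castSucc_ne_last _ h5.2, fun h5 => Fin.castSucc_ne_last _ h5.2⟩
    · exact fun h4 => h4.1
  · have hr : ∀ l, rho univ s (fun y => (c' y).castSucc) (Fin.last j) l = s ∨
        rho univ s (fun y => (c' y).castSucc) (Fin.last j) l = s + 1 := by
      intro l
      unfold rho
      refine Fin.lastCases ?_ (fun m => ?_) l
      · rw [if_pos rfl]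
        left
        have h4 : (univ.filter fun y => (c' y).castSucc = Fin.last j).card = 0 := by
          rw [card_eq_zero, filter_eq_empty_iff]
          exact fun y _ => Fin.castSucc_ne_last _
        exact (congrArg (· + s) h4).trans (Nat.zero_add s)
      · rw [if_neg (Fin.castSucc_ne_last m), add_zero]
        have h4 : (univ.filter fun y => (c' y).castSucc = m.castSucc)
            = (univ.filter fun y => c' y = m) := by
          ext y
          rw [mem_filter, mem_filter, Fin.castSucc_inj]
        rw [h4]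
        exact hsz m
    intro l m
    rcases hr l with h4 | h4 <;> rcases hr m with h5 | h5 <;> omega
  · intro m hm
    exact congrArg Fin.castSucc (hMb m hm)
  · exact congrArg Fin.castSucc hy2

end Pool.Agent.H24.FD
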