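import Mathlib
import Pool.Agent.H24.FD.M

set_option autoImplicit false

/-!
# The graphs with the most colourings in the dense range: the two shapes
-/

namespace Pool.Agent.H24.FD

open Finset

variable {V : Type*}

open Classical in
/-- Every vertex of `U` has one or two allowed colours, exactly `t` of them have two, and adjacent vertices
have no allowed colour in common. -/
def AOn (G : SimpleGraph V) (U : Finset V) (k t : ℕ) : Prop :=
  ∃ c1 c2 : V → Fin k, (∀ y ∈ U, ∀ z ∈ U, G.Adj y z →
    c1 y ≠ c1 z ∧ c1 y ≠ c2 z ∧ c2 y ≠ c1 z ∧ c2 y ≠ c2 z) ∧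
    (U.filter fun y => c1 y ≠ c2 y).card = t

/-- The union of two classes of a colouring has at least `t + 1` components. -/
def BOn (G : SimpleGraph V) (U : Finset V) (k t : ℕ) : Prop :=
  ∃ (c : V → Fin k) (κ : V → V) (a b : Fin k), a ≠ b ∧
    (∀ y ∈ U, ∀ z ∈ U, G.Adj y z → c y ≠ c z) ∧
    (∀ y ∈ U, ∀ z ∈ U, G.Adj y z → (c y = a ∨ c y = b) → (c z = a ∨ c z = b) → κ y = κ z) ∧
    ∃ S : Finset V, t + 1 ≤ S.card ∧ ∀ w ∈ S, ∃ y ∈ U, (c y = a ∨ c y = b) ∧ κ y = w

lemma lt_two_pow_pred {m : ℕ} (h : 3 ≤ m) : m < 2 ^ (m - 1) := by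
  obtain ⟨j, rfl⟩ : ∃ j, m = j + 3 := ⟨m - 3, by omega⟩
  have h1 : j < 2 ^ j := Nat.lt_two_pow_self
  have h2 : j + 3 - 1 = j + 2 := by omega
  rw [h2, pow_add]
  omega

lemma le_two_pow_pred {m : ℕ} (h : 1 ≤ m) : m ≤ 2 ^ (m - 1) := by
  obtain ⟨j, rfl⟩ : ∃ j, m = j + 1 := ⟨m - 1, by omega⟩
  rw [Nat.add_sub_cancel]
  exact Nat.lt_two_pow_self

open Classical in
/-- the tight case -/
theorem tight [Fintype V] {G : SimpleGraph V} {k t : ℕ} {x : Fin k → V}
    (hx : ∀ i j, i ≠ j → G.Adj (x i) (x j)) (h1 : 2 ^ t ≤ colNum G k)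
    (h2 : ∑ y : V, (univ.filter fun i => ¬ G.Adj (x i) y).card ≤ Fintype.card V + t) :
    AOn G univ k t := by
  obtain ⟨L, hL⟩ : ∃ L : V → Finset (Fin k), ∀ y, L y = univ.filter fun i => ¬ G.Adj (x i) y :=
    ⟨_, fun y => rfl⟩
  simp only [← hL] at h2
  have hLm : ∀ y i, i ∈ L y ↔ ¬ G.Adj (x i) y := by
    intro y i
    rw [hL]
    simp
  have hsub : cols G x ⊆ Fintype.piFinset L := by
    intro g hg
    rw [mem_cols] at hg
    rw [Fintype.mem_piFinset]
    intro y
    rw [hLm]
    intro h3
    exact hg.2 _ _ h3 (hg.1 _)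
  have hcc := colNum_le_cols hx
  have hpos : ∀ y, 1 ≤ (L y).card := by
    have h3 : 0 < (cols G x).card := lt_of_lt_of_le (by positivity) (h1.trans hcc)
    obtain ⟨g, hg⟩ := card_pos.1 h3
    intro y
    exact card_pos.2 ⟨g y, Fintype.mem_piFinset.1 (hsub hg) y⟩
  have hS : ∑ y, ((L y).card - 1) + Fintype.card V = ∑ y, (L y).card := by
    have h3 : ∑ y, (L y).card = ∑ y, (((L y).card - 1) + 1) :=
      sum_congr rfl fun y _ => (Nat.sub_add_cancel (hpos y)).symm
    rw [h3, sum_add_distrib, sum_const, card_univ, smul_eq_mul, mul_one]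
  have hSt : ∑ y, ((L y).card - 1) ≤ t := by omega
  have hprod : ∏ y, (L y).card ≤ 2 ^ (∑ y, ((L y).card - 1)) := by
    rw [← prod_pow_eq_pow_sum]
    exact prod_le_prod' fun y _ => le_two_pow_pred (hpos y)
  have hpi : (Fintype.piFinset L).card = ∏ y, (L y).card := Fintype.card_piFinset L
  have hcle := card_le_card hsub
  have hpt : 2 ^ (∑ y, ((L y).card - 1)) ≤ 2 ^ t := Nat.pow_le_pow_right (by norm_num) hSt
  have heq : cols G x = Fintype.piFinset L := by
    apply eq_of_subset_of_card_le hsub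
    rw [hpi]
    omega
  have hsumeq : ∑ y, ((L y).card - 1) = t := by
    refine le_antisymm hSt ?_
    by_contra hcon
    push Not at hcon
    have h3 : 2 ^ (∑ y, ((L y).card - 1)) < 2 ^ t := Nat.pow_lt_pow_right (by norm_num) hcon
    omega
  have htwo : ∀ y, (L y).card ≤ 2 := by
    intro y
    by_contra hcon
    push Not at hcon
    have h3 : ∏ y, (L y).card < ∏ y, 2 ^ ((L y).card - 1) :=
      prod_lt_prod (fun z _ => hpos z) (fun z _ => le_two_pow_pred (hpos z))
        ⟨y, mem_univ y, lt_two_pow_pred hcon⟩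
    rw [prod_pow_eq_pow_sum] at h3
    omega
  have hex : ∀ y, ∃ a b, L y = {a, b} := by
    intro y
    have h3 := hpos y
    have h4 := htwo y
    rcases (by omega : (L y).card = 1 ∨ (L y).card = 2) with h5 | h5
    · obtain ⟨a, ha⟩ := card_eq_one.1 h5
      exact ⟨a, a, by rw [ha]; simp⟩
    · obtain ⟨a, b, _, hab⟩ := card_eq_two.1 h5
      exact ⟨a, b, hab⟩
  choose c1 c2 hc using hex
  have hc1 : ∀ y, c1 y ∈ L y := fun y => by rw [hc y]; simp
  have hc2 : ∀ y, c2 y ∈ L y := fun y => by rw [hc y]; simp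
  have hne : ∀ y z, G.Adj y z → ∀ a ∈ L y, ∀ b ∈ L z, a ≠ b := by
    intro y z hyz a ha b hb
    have hmem : (fun w => if w = y then a else if w = z then b else c1 w) ∈ cols G x := by
      rw [heq, Fintype.mem_piFinset]
      intro w
      by_cases hwy : w = y
      · subst hwy
        simpa using ha
      · by_cases hwz : w = z
        · subst hwz
          simpa [hwy] using hb
        · simpa [hwy, hwz] using hc1 w
    have h3 := (mem_cols.1 hmem).2 y z hyz
    simpa [hyz.ne'] using h3
  refine ⟨c1, c2, fun y _ z _ hyz => ⟨hne y z hyz _ (hc1 y) _ (hc1 z),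
    hne y z hyz _ (hc1 y) _ (hc2 z), hne y z hyz _ (hc2 y) _ (hc1 z),
    hne y z hyz _ (hc2 y) _ (hc2 z)⟩, ?_⟩
  rw [card_filter, ← hsumeq]
  refine sum_congr rfl fun y _ => ?_
  by_cases h3 : c1 y = c2 y
  · rw [hc y, h3]
    simp
  · rw [hc y, card_pair h3, if_pos h3]

/-- If restriction to the complement of `x` does not increase the number of colourings, then every colouring
of the smaller graph extends. -/
theorem ext_all [Fintype V] {G : SimpleGraph V} {k : ℕ} {t : Fin k → V}
    (ht : ∀ i j, i ≠ j → G.Adj (t i) (t j)) (i : Fin k)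
    (hle : colNum (G.induce ({t i}ᶜ : Set V)) k ≤ colNum G k)
    (hcl : ¬ (G.induce ({t i}ᶜ : Set V)).CliqueFree k) (c : V → Fin k)
    (hc : ∀ y z, y ≠ t i → z ≠ t i → G.Adj y z → c y ≠ c z) :
    ∃ j, ∀ y, y ≠ t i → c y = j → ¬ G.Adj (t i) y := by
  classical
  have hcol : ∀ r : {r : Setoid V // IsCol G k r},
      IsCol (G.induce ({t i}ᶜ : Set V)) k (r.1.comap Subtype.val) := by
    intro r
    constructor
    · refine le_trans ?_ r.2.1
      refine Nat.card_le_card_of_injective
        (Quotient.map' (s₁ := r.1.comap Subtype.val) (s₂ := r.1)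
          (Subtype.val : ({t i}ᶜ : Set V) → V) (fun a b h => h)) ?_
      intro a b
      induction a using Quotient.inductionOn with
      | _ a =>
        induction b using Quotient.inductionOn with
        | _ b =>
          intro hab
          exact Quotient.sound (Quotient.exact hab : r.1 a.1 b.1)
    · intro a b hab
      rw [SimpleGraph.comap_adj]
      exact r.2.2 _ _ hab
  have := finite_setoid ({t i}ᶜ : Set V)
  obtain ⟨F, hF⟩ : ∃ F : {r : Setoid V // IsCol G k r} →
      {r : Setoid ({t i}ᶜ : Set V) // IsCol (G.induce ({t i}ᶜ : Set V)) k r},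
      ∀ r, (F r).1 = r.1.comap Subtype.val := ⟨fun r => ⟨_, hcol r⟩, fun r => rfl⟩
  have hinj : Function.Injective F := by
    intro r r' h
    have h1 : r.1.comap (Subtype.val : ({t i}ᶜ : Set V) → V) = r'.1.comap Subtype.val := by
      rw [← hF, ← hF, h]
    have h2 : ∀ a b : V, a ≠ t i → b ≠ t i → (r.1 a b ↔ r'.1 a b) := by
      intro a b ha hb
      have h3 := congrArg (fun s : Setoid ({t i}ᶜ : Set V) => s ⟨a, ha⟩ ⟨b, hb⟩) h1
      exact iff_of_eq h3
    have key : ∀ (q : {r : Setoid V // IsCol G k r}) (a : V),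
        q.1 (t i) a ↔ ∀ j, j ≠ i → ¬ q.1 (t j) a := by
      intro q a
      constructor
      · intro h3 j hj h4
        exact q.2.2 _ _ (q.1.trans h4 (q.1.symm h3)) (ht j i hj)
      · intro h3
        obtain ⟨j, hj⟩ := exists_rep ht q.2 a
        by_cases hji : j = i
        · rw [← hji]; exact hj
        · exact absurd hj (h3 j hji)
    have hxi : ∀ j, j ≠ i → t j ≠ t i := fun j hj => (ht j i hj).ne
    have h5 : ∀ a, a ≠ t i → (r.1 (t i) a ↔ r'.1 (t i) a) := by
      intro a ha
      rw [key r a, key r' a]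
      refine forall_congr' fun j => forall_congr' fun hj => ?_
      rw [h2 (t j) a (hxi j hj) ha]
    apply Subtype.ext
    ext a b
    by_cases ha : a = t i
    · by_cases hb : b = t i
      · subst ha
        rw [hb]
        exact ⟨fun _ => r'.1.refl _, fun _ => r.1.refl _⟩
      · rw [ha]; exact h5 b hb
    · by_cases hb : b = t i
      · rw [hb]
        constructor
        · intro h; exact r'.1.symm ((h5 a ha).1 (r.1.symm h))
        · intro h; exact r.1.symm ((h5 a ha).2 (r'.1.symm h))
      · exact h2 a b ha hb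
  have hbij := Function.Injective.bijective_of_nat_card_le hinj hle
  have hker : IsCol (G.induce ({t i}ᶜ : Set V)) k
      (Setoid.ker fun y : ({t i}ᶜ : Set V) => c y) := by
    constructor
    · have h : Function.Injective (Setoid.kerLift fun y : ({t i}ᶜ : Set V) => c y) :=
        Setoid.kerLift_injective _
      have h3 := Nat.card_le_card_of_injective _ h
      rwa [Nat.card_eq_fintype_card (α := Fin k), Fintype.card_fin] at h3
    · intro y z hyz hadj
      exact hc y z y.2 z.2 hadj hyz
  obtain ⟨r, hr⟩ := hbij.2 ⟨_, hker⟩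
  have hr2 : ∀ y z, y ≠ t i → z ≠ t i → c y = c z → r.1 y z := by
    intro y z hy hz hyz
    have h3 : r.1.comap (Subtype.val : ({t i}ᶜ : Set V) → V)
        = Setoid.ker fun y : ({t i}ᶜ : Set V) => c y := by
      rw [← hF, hr]
    have h4 := congrArg (fun s : Setoid ({t i}ᶜ : Set V) => s ⟨y, hy⟩ ⟨z, hz⟩) h3
    exact (iff_of_eq h4).2 hyz
  rw [SimpleGraph.not_cliqueFree_iff_top_isContained] at hcl
  obtain ⟨f⟩ := hcl
  have hcl2 : ∀ a b : Fin k, a ≠ b → G.Adj (f a : V) (f b : V) := fun a b hab => f.toHom.map_adj hab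
  obtain ⟨a, ha⟩ := exists_rep hcl2 r.2 (t i)
  refine ⟨c (f a : V), fun y hy hcy hadj => ?_⟩
  have h6 := hr2 y (f a : V) hy (f a).2 hcy
  exact r.2.2 _ _ (r.1.symm (r.1.trans h6 ha)) hadj

open Classical in
/-- the second shape is kept -/
theorem b_step [Fintype V] {G : SimpleGraph V} {k t : ℕ} {x : V} (c0 : V → Fin k) (κ : V → V)
    (a b : Fin k) (hab : a ≠ b)
    (hc : ∀ y z, y ≠ x → z ≠ x → G.Adj y z → c0 y ≠ c0 z)
    (hκ : ∀ y z, y ≠ x → z ≠ x → G.Adj y z → (c0 y = a ∨ c0 y = b) → (c0 z = a ∨ c0 z = b) →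
      κ y = κ z)
    (hcard : ∃ S : Finset V, t + 1 ≤ S.card ∧ ∀ w ∈ S, ∃ y, y ≠ x ∧ (c0 y = a ∨ c0 y = b) ∧ κ y = w)
    (hext : ∀ c : V → Fin k, (∀ y z, y ≠ x → z ≠ x → G.Adj y z → c y ≠ c z) →
      ∃ j, ∀ y, y ≠ x → c y = j → ¬ G.Adj x y) :
    BOn G univ k t := by
  have main : ∀ (j0 : Fin k) (κ0 : V), (∀ y, y ≠ x → c0 y = j0 → ¬ G.Adj x y) →
      (∀ y, y ≠ x → G.Adj x y → (c0 y = a ∨ c0 y = b) → (j0 = a ∨ j0 = b) → κ0 = κ y) →
      BOn G univ k t := by
    intro j0 κ0 h1 h2
    refine ⟨Function.update c0 x j0, Function.update κ x κ0, a, b, hab, ?_, ?_, ?_⟩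
    · intro y _ z _ hyz
      by_cases hy : y = x
      · subst hy
        have hz : z ≠ y := hyz.ne'
        rw [Function.update_self, Function.update_of_ne hz]
        exact fun h3 => h1 z hz h3.symm hyz
      · by_cases hz : z = x
        · subst hz
          rw [Function.update_self, Function.update_of_ne hy]
          exact fun h3 => h1 y hy h3 hyz.symm
        · rw [Function.update_of_ne hy, Function.update_of_ne hz]
          exact hc y z hy hz hyz
    · intro y _ z _ hyz h3 h4
      by_cases hy : y = x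
      · subst hy
        have hz : z ≠ y := hyz.ne'
        rw [Function.update_self] at h3 ⊢
        rw [Function.update_of_ne hz] at h4 ⊢
        exact h2 z hz hyz h4 h3
      · by_cases hz : z = x
        · subst hz
          rw [Function.update_self] at h4 ⊢
          rw [Function.update_of_ne hy] at h3 ⊢
          exact (h2 y hy hyz.symm h3 h4).symm
        · rw [Function.update_of_ne hy] at h3 ⊢
          rw [Function.update_of_ne hz] at h4 ⊢
          exact hκ y z hy hz hyz h3 h4
    · obtain ⟨S, hS, hSw⟩ := hcard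
      refine ⟨S, hS, fun w hw => ?_⟩
      obtain ⟨y, hy, h3, h4⟩ := hSw w hw
      refine ⟨y, mem_univ _, ?_, ?_⟩
      · rw [Function.update_of_ne hy]
        exact h3
      · rw [Function.update_of_ne hy]
        exact h4
  by_cases hl : ∃ l, l ≠ a ∧ l ≠ b ∧ ∀ y, y ≠ x → c0 y = l → ¬ G.Adj x y
  · obtain ⟨l, hla, hlb, h1⟩ := hl
    exact main l x h1 fun y _ _ _ h3 => absurd h3 (by rintro (h4 | h4) <;> contradiction)
  · push Not at hl
    obtain ⟨j0, hj0⟩ := hext c0 hc
    have hj0ab : j0 = a ∨ j0 = b := by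
      by_contra hcon
      push Not at hcon
      obtain ⟨y, hy, h1, h2⟩ := hl j0 hcon.1 hcon.2
      exact hj0 y hy h1 h2
    by_cases hZ : ∃ z0, z0 ≠ x ∧ G.Adj x z0 ∧ (c0 z0 = a ∨ c0 z0 = b)
    · obtain ⟨z0, hz0, hz0a, hz0c⟩ := hZ
      refine main j0 (κ z0) hj0 fun y hy hya hyc _ => ?_
      by_contra hne
      obtain ⟨c, hcdef⟩ : ∃ c : V → Fin k, ∀ w, c w =
          if (c0 w = a ∨ c0 w = b) ∧ κ w = κ y then Equiv.swap a b (c0 w) else c0 w :=
        ⟨_, fun w => rfl⟩
      have hcnot : ∀ w, ¬ (c0 w = a ∨ c0 w = b) → c w = c0 w := by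
        intro w hw
        rw [hcdef, if_neg (fun h => hw h.1)]
      have hcin : ∀ w, (c0 w = a ∨ c0 w = b) → (c w = a ∨ c w = b) := by
        intro w hw
        rw [hcdef]
        split_ifs
        · rcases hw with hw | hw
          · rw [hw, Equiv.swap_apply_left]; exact Or.inr rfl
          · rw [hw, Equiv.swap_apply_right]; exact Or.inl rfl
        · exact hw
      have hcprop : ∀ w w', w ≠ x → w' ≠ x → G.Adj w w' → c w ≠ c w' := by
        intro w w' hw hw' hadj
        have h1 := hc w w' hw hw' hadj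
        by_cases h2 : c0 w = a ∨ c0 w = b
        · by_cases h3 : c0 w' = a ∨ c0 w' = b
          · have h4 := hκ w w' hw hw' hadj h2 h3
            rw [hcdef, hcdef w']
            by_cases h5 : κ w = κ y
            · rw [if_pos ⟨h2, h5⟩, if_pos ⟨h3, h4.symm.trans h5⟩]
              exact fun h6 => h1 ((Equiv.swap a b).injective h6)
            · rw [if_neg (fun h => h5 h.2), if_neg (fun h => h5 (h4.trans h.2))]
              exact h1
          · rw [hcnot w' h3]
            intro h6
            exact h3 (h6 ▸ hcin w h2)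
        · rw [hcnot w h2]
          by_cases h3 : c0 w' = a ∨ c0 w' = b
          · intro h6
            exact h2 (h6 ▸ hcin w' h3)
          · rw [hcnot w' h3]
            exact h1
      obtain ⟨j, hj⟩ := hext c hcprop
      have hjab : j = a ∨ j = b := by
        by_contra hcon
        push Not at hcon
        obtain ⟨w, hw, h1, h2⟩ := hl j hcon.1 hcon.2
        refine hj w hw ?_ h2
        rw [hcnot w, h1]
        rw [h1]
        push Not
        exact hcon
      have hy0 : c0 y ≠ j0 := fun h => hj0 y hy h hya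
      have hz00 : c0 z0 ≠ j0 := fun h => hj0 z0 hz0 h hz0a
      have hyz : c0 y = c0 z0 := by
        rcases hj0ab with h | h <;> rw [h] at hy0 hz00
        · rw [hyc.resolve_left hy0, hz0c.resolve_left hz00]
        · rw [hyc.resolve_right hy0, hz0c.resolve_right hz00]
      have hcy : c y = Equiv.swap a b (c0 y) := by rw [hcdef, if_pos ⟨hyc, rfl⟩]
      have hcz : c z0 = c0 y := by
        rw [hcdef, if_neg (fun h => hne h.2), hyz]
      have hjne1 : c y ≠ j := fun h => hj y hy h hya
      have hjne2 : c z0 ≠ j := fun h => hj z0 hz0 h hz0a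
      rw [hcy] at hjne1
      rw [hcz] at hjne2
      rcases hyc with h | h
      · rw [h] at hjne1 hjne2
        rw [Equiv.swap_apply_left] at hjne1
        rcases hjab with h3 | h3
        · exact hjne2 h3.symm
        · exact hjne1 h3.symm
      · rw [h] at hjne1 hjne2
        rw [Equiv.swap_apply_right] at hjne1
        rcases hjab with h3 | h3
        · exact hjne1 h3.symm
        · exact hjne2 h3.symm
    · push Not at hZ
      refine main j0 x hj0 fun y hy hya hyc _ => ?_
      have h1 := hZ y hy hya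
      rcases hyc with h | h
      · exact absurd h h1.1
      · exact absurd h h1.2

end Pool.Agent.H24.FD
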