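import Mathlib
import Pool.Agent.H24.FD.O

set_option autoImplicit false

/-!
# The graphs with the most colourings in the dense range: the first shape
-/

namespace Pool.Agent.H24.FD

open Finset

variable {V : Type*}

open Classical in
lemma count_pairs [Fintype V] {k : ℕ} (c1 c2 : V → Fin k) (X : Finset V) (E M' : Finset V)
    (W : Fin k → Finset V) (hW : ∀ l y, y ∈ W l ↔ y ∈ X ∧ (c1 y = l ∨ c2 y = l))
    (h : ∀ y ∈ X, ∀ z ∈ X, c1 y ≠ c2 y → (c1 z = c1 y ∨ c2 z = c1 y) →
      (c1 z = c2 y ∨ c2 z = c2 y) → (y ∈ E ∧ z ∈ E) ∨ (y ∈ M' ∧ z ∈ M')) :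
    ∑ l, (W l).card ^ 2 ≤ (univ.filter fun p : V × V => ∃ l, p.1 ∈ W l ∧ p.2 ∈ W l).card
      + E.card ^ 2 + M'.card ^ 2 := by
  have e1 : ∀ A : Finset V, A.card ^ 2
      = ∑ p : V × V, if p.1 ∈ A ∧ p.2 ∈ A then 1 else 0 := by
    intro A
    rw [← card_filter, sq, ← card_product]
    congr 1
    ext p
    simp [mem_product]
  rw [card_filter, e1 E, e1 M', ← sum_add_distrib, ← sum_add_distrib]
  simp only [e1 (W _)]
  rw [sum_comm]
  refine sum_le_sum fun p _ => ?_
  rw [← card_filter]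
  obtain ⟨y, z⟩ := p
  change (univ.filter fun l => y ∈ W l ∧ z ∈ W l).card ≤ _
  by_cases h0 : ∃ l, y ∈ W l ∧ z ∈ W l
  · rw [if_pos h0]
    have hsub : (univ.filter fun l => y ∈ W l ∧ z ∈ W l) ⊆ {c1 y, c2 y} := by
      intro l hl
      rw [mem_filter] at hl
      have h1 := ((hW l y).1 hl.2.1).2
      rw [mem_insert, mem_singleton]
      exact h1.imp Eq.symm Eq.symm
    rcases Nat.lt_or_ge (univ.filter fun l => y ∈ W l ∧ z ∈ W l).card 2 with h2 | h2
    · omega
    · have h3 : c1 y ≠ c2 y := by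
        intro h4
        rw [h4] at hsub
        have h5 := card_le_card hsub
        simp only [mem_singleton, insert_eq_of_mem, card_singleton] at h5
        omega
      have h4 : (univ.filter fun l => y ∈ W l ∧ z ∈ W l) = {c1 y, c2 y} := by
        apply eq_of_subset_of_card_le hsub
        rw [card_pair h3]
        exact h2
      have h5 : c1 y ∈ (univ.filter fun l => y ∈ W l ∧ z ∈ W l) := by rw [h4]; simp
      have h6 : c2 y ∈ (univ.filter fun l => y ∈ W l ∧ z ∈ W l) := by rw [h4]; simp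
      rw [mem_filter] at h5 h6
      have h7 := (hW _ _).1 h5.2.2
      have h8 := (hW _ _).1 h6.2.2
      have h9 := h y ((hW _ _).1 h5.2.1).1 z h7.1 h3 h7.2 h8.2
      rw [h4, card_pair h3]
      rcases h9 with h9 | h9
      · rw [if_pos h9]
        omega
      · rw [if_pos h9]
        omega
  · have h1 : (univ.filter fun l => y ∈ W l ∧ z ∈ W l) = ∅ := by
      rw [filter_eq_empty_iff]
      exact fun l _ h2 => h0 ⟨l, h2⟩
    rw [h1, card_empty]
    exact Nat.zero_le _

open Classical in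
theorem count_key [Fintype V] {G : SimpleGraph V} {k t n : ℕ} (hk : 1 ≤ k)
    (hV : Fintype.card V = n + 1) {x : V} (c1 c2 : V → Fin k)
    (h12 : ∀ y z, y ≠ x → z ≠ x → G.Adj y z →
      c1 y ≠ c1 z ∧ c1 y ≠ c2 z ∧ c2 y ≠ c1 z ∧ c2 y ≠ c2 z)
    (hM : ((univ.erase x).filter fun y => c1 y ≠ c2 y).card = t) (i j : Fin k) (hij : i ≠ j)
    (hRi : ∀ y, y ≠ x → c1 y = i → c2 y = i → ¬ G.Adj x y)
    (hRj : ∀ y, y ≠ x → c1 y = j → c2 y = j → ¬ G.Adj x y)
    (hH : (n + 1).choose 2 + (t + 1).choose 2 < G.edgeFinset.card + T k (n + 1 + (t + 1))) :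
    ∀ y, y ≠ x → c1 y ≠ c2 y → (c1 y = i ∧ c2 y = j) ∨ (c1 y = j ∧ c2 y = i) := by
  obtain ⟨N, hN⟩ : ∃ N : Finset V, ∀ y, y ∈ N ↔ y ≠ x ∧ ¬ G.Adj x y :=
    ⟨univ.filter fun y => y ≠ x ∧ ¬ G.Adj x y, fun y => by simp⟩
  obtain ⟨M, hMm⟩ : ∃ M : Finset V, M = (univ.erase x).filter fun y => c1 y ≠ c2 y := ⟨_, rfl⟩
  obtain ⟨E, hE⟩ : ∃ E : Finset V, E = M.filter fun y =>
      (c1 y = i ∧ c2 y = j) ∨ (c1 y = j ∧ c2 y = i) := ⟨_, rfl⟩
  obtain ⟨M', hM'⟩ : ∃ M' : Finset V, M' = M.filter fun y =>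
      ¬ ((c1 y = i ∧ c2 y = j) ∨ (c1 y = j ∧ c2 y = i)) := ⟨_, rfl⟩
  have hEM : E.card + M'.card = t := by
    rw [hE, hM', card_filter_add_card_filter_not, hMm, hM]
  obtain ⟨W, hWd⟩ : ∃ W : Fin k → Finset V, ∀ l, W l = (univ.erase x).filter fun y =>
      c1 y = l ∨ c2 y = l := ⟨_, fun l => rfl⟩
  have hW : ∀ l y, y ∈ W l ↔ y ∈ univ.erase x ∧ (c1 y = l ∨ c2 y = l) := by
    intro l y
    rw [hWd, mem_filter]
  have hMmem : ∀ y, y ∈ M ↔ y ≠ x ∧ c1 y ≠ c2 y := by
    intro y
    rw [hMm, mem_filter, mem_erase]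
    simp
  -- (1)
  have s1 : ∑ l, (W l).card = n + t := by
    have h1 : ∑ l, (W l).card
        = ∑ y ∈ univ.erase x, (univ.filter fun l => c1 y = l ∨ c2 y = l).card := by
      simp only [hWd, card_filter]
      exact sum_comm
    rw [h1]
    have h2 : ∀ y ∈ univ.erase x, (univ.filter fun l => c1 y = l ∨ c2 y = l).card
        = 1 + if c1 y ≠ c2 y then 1 else 0 := by
      intro y _
      have h3 : (univ.filter fun l => c1 y = l ∨ c2 y = l) = {c1 y, c2 y} := by
        ext l
        rw [mem_filter, mem_insert, mem_singleton]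
        constructor
        · rintro ⟨_, h4⟩
          exact h4.imp Eq.symm Eq.symm
        · intro h4
          exact ⟨mem_univ _, h4.imp Eq.symm Eq.symm⟩
      rw [h3]
      by_cases h4 : c1 y = c2 y
      · rw [h4]; simp
      · rw [card_pair h4, if_pos h4]
    rw [sum_congr rfl h2, sum_add_distrib, ← card_filter, hM, sum_const, smul_eq_mul, mul_one,
      card_erase_of_mem (mem_univ _), card_univ, hV]
    omega
  -- (2)
  have s2 := count_pairs c1 c2 (univ.erase x) E M' W hW (by
    intro y hy z hz h1 h2 h3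
    have hyx : y ≠ x := (mem_erase.1 hy).1
    have hzx : z ≠ x := (mem_erase.1 hz).1
    have hyM : y ∈ M := (hMmem y).2 ⟨hyx, h1⟩
    have h4 : (c1 z = c1 y ∧ c2 z = c2 y) ∨ (c1 z = c2 y ∧ c2 z = c1 y) := by
      rcases h2 with h2 | h2 <;> rcases h3 with h3 | h3
      · exact absurd (h2.symm.trans h3) h1
      · exact Or.inl ⟨h2, h3⟩
      · exact Or.inr ⟨h3, h2⟩
      · exact absurd (h2.symm.trans h3) h1
    have hzM : z ∈ M := by
      refine (hMmem z).2 ⟨hzx, fun h5 => ?_⟩
      rcases h4 with h4 | h4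
      · rw [h4.1, h4.2] at h5
        exact h1 h5
      · rw [h4.1, h4.2] at h5
        exact h1 h5.symm
    by_cases h5 : (c1 y = i ∧ c2 y = j) ∨ (c1 y = j ∧ c2 y = i)
    · left
      rw [hE, mem_filter, mem_filter]
      refine ⟨⟨hyM, h5⟩, hzM, ?_⟩
      rcases h4 with h4 | h4 <;> rw [h4.1, h4.2]
      · exact h5
      · rcases h5 with h5 | h5
        · exact Or.inr ⟨h5.2, h5.1⟩
        · exact Or.inl ⟨h5.2, h5.1⟩
    · right
      rw [hM', mem_filter, mem_filter]
      refine ⟨⟨hyM, h5⟩, hzM, ?_⟩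
      rcases h4 with h4 | h4 <;> rw [h4.1, h4.2]
      · exact h5
      · rintro (h6 | h6)
        · exact h5 (Or.inr ⟨h6.2, h6.1⟩)
        · exact h5 (Or.inl ⟨h6.2, h6.1⟩))
  -- (3)
  obtain ⟨P, hP⟩ : ∃ P : Finset (V × V), P = univ.filter fun p : V × V =>
      ∃ l, p.1 ∈ W l ∧ p.2 ∈ W l := ⟨_, rfl⟩
  rw [← hP] at s2
  have hPx : ∀ p ∈ P, p.1 ≠ x ∧ p.2 ≠ x := by
    intro p hp
    rw [hP, mem_filter] at hp
    obtain ⟨_, l, h1, h2⟩ := hp
    exact ⟨(mem_erase.1 ((hW _ _).1 h1).1).1, (mem_erase.1 ((hW _ _).1 h2).1).1⟩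
  have hNx : x ∉ N := fun h => ((hN x).1 h).1 rfl
  have s3 : P.card + 2 * N.card + 1 ≤ (univ.filter fun p : V × V => ¬ G.Adj p.1 p.2).card := by
    have d1 : Disjoint P (({x} : Finset V) ×ˢ insert x N) := by
      rw [disjoint_left]
      intro p hp hq
      rw [mem_product, mem_singleton] at hq
      exact (hPx p hp).1 hq.1
    have d2 : Disjoint (P ∪ ({x} : Finset V) ×ˢ insert x N) (N ×ˢ ({x} : Finset V)) := by
      rw [disjoint_left]
      intro p hp hq
      rw [mem_product, mem_singleton] at hq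
      rw [mem_union] at hp
      rcases hp with hp | hp
      · exact (hPx p hp).2 hq.2
      · rw [mem_product, mem_singleton] at hp
        rw [hp.1] at hq
        exact hNx hq.1
    have h1 : (P ∪ ({x} : Finset V) ×ˢ insert x N) ∪ (N ×ˢ ({x} : Finset V))
        ⊆ (univ.filter fun p : V × V => ¬ G.Adj p.1 p.2) := by
      intro p hp
      rw [mem_filter]
      refine ⟨mem_univ _, ?_⟩
      rw [mem_union, mem_union] at hp
      rcases hp with (hp | hp) | hp
      · intro hadj
        have h2 := h12 p.1 p.2 (hPx p hp).1 (hPx p hp).2 hadj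
        rw [hP, mem_filter] at hp
        obtain ⟨_, l, h3, h4⟩ := hp
        rcases ((hW _ _).1 h3).2 with h3 | h3 <;> rcases ((hW _ _).1 h4).2 with h4 | h4
        · exact h2.1 (h3.trans h4.symm)
        · exact h2.2.1 (h3.trans h4.symm)
        · exact h2.2.2.1 (h3.trans h4.symm)
        · exact h2.2.2.2 (h3.trans h4.symm)
      · rw [mem_product, mem_singleton, mem_insert] at hp
        rw [hp.1]
        rcases hp.2 with h3 | h3
        · rw [h3]; exact G.loopless.irrefl x
        · exact ((hN _).1 h3).2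
      · rw [mem_product, mem_singleton] at hp
        rw [hp.2, G.adj_comm]
        exact ((hN _).1 hp.1).2
    have h2 := card_le_card h1
    rw [card_union_of_disjoint d2, card_union_of_disjoint d1, card_product, card_product,
      card_singleton, card_insert_of_notMem hNx] at h2
    omega
  -- (4)
  have s4 := nonadj_card G
  rw [hV] at s4
  -- (5)
  have s5 : 2 * T k (n + 1 + (t + 1)) + (n + 1 + (t + 1))
      ≤ ∑ l, (W l).card ^ 2 + 2 * (W i).card + 2 * (W j).card + 2 := by
    obtain ⟨b, hb⟩ : ∃ b : Fin k → ℕ, ∀ l, b l =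
        (W l).card + (if l = i then 1 else 0) + (if l = j then 1 else 0) := ⟨_, fun l => rfl⟩
    have hbs : ∑ l, b l = n + 1 + (t + 1) := by
      simp only [hb]
      rw [sum_add_distrib, sum_add_distrib, s1, sum_ite_eq' univ i, sum_ite_eq' univ j,
        if_pos (mem_univ _), if_pos (mem_univ _)]
      omega
    have h1 := T_le k hk _ b hbs
    have h2 : 2 * ∑ l, (b l).choose 2 + ∑ l, b l = ∑ l, (b l) ^ 2 := by
      rw [mul_sum, ← sum_add_distrib]
      exact sum_congr rfl fun l _ => two_choose (b l)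
    have h3 : ∑ l, (b l) ^ 2 = ∑ l, (W l).card ^ 2 + (2 * (W i).card + 1)
        + (2 * (W j).card + 1) := by
      have h4 : ∀ l, (b l) ^ 2 = (W l).card ^ 2 + (if l = i then 2 * (W l).card + 1 else 0)
          + (if l = j then 2 * (W l).card + 1 else 0) := by
        intro l
        rw [hb]
        by_cases h5 : l = i
        · have h6 : l ≠ j := fun h7 => hij (h5.symm.trans h7)
          rw [if_pos h5, if_neg h6, if_pos h5, if_neg h6]
          ring
        · by_cases h6 : l = j
          · rw [if_neg h5, if_pos h6, if_neg h5, if_pos h6]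
            ring
          · rw [if_neg h5, if_neg h6, if_neg h5, if_neg h6]
            ring
      rw [sum_congr rfl fun l _ => h4 l, sum_add_distrib, sum_add_distrib, sum_ite_eq' univ i,
        sum_ite_eq' univ j, if_pos (mem_univ _), if_pos (mem_univ _)]
    rw [hbs] at h2
    omega
  -- (6)
  have s6 : (W i).card + (W j).card ≤ N.card + t + E.card := by
    have h1 := card_union_add_card_inter (W i) (W j)
    have h2 : (W i ∪ W j).card ≤ N.card + t := by
      refine le_trans (card_le_card (t := N ∪ M) ?_) ((card_union_le _ _).trans ?_)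
      · intro y hy
        have hy' : y ≠ x ∧ (c1 y = i ∨ c2 y = i ∨ c1 y = j ∨ c2 y = j) := by
          rw [mem_union, hW, hW] at hy
          rcases hy with hy | hy
          · refine ⟨(mem_erase.1 hy.1).1, ?_⟩
            rcases hy.2 with h | h
            · exact Or.inl h
            · exact Or.inr (Or.inl h)
          · refine ⟨(mem_erase.1 hy.1).1, ?_⟩
            rcases hy.2 with h | h
            · exact Or.inr (Or.inr (Or.inl h))
            · exact Or.inr (Or.inr (Or.inr h))
        rw [mem_union, hMmem, hN]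
        by_cases h3 : c1 y = c2 y
        · left
          refine ⟨hy'.1, ?_⟩
          rcases hy'.2 with h | h | h | h
          · exact hRi y hy'.1 h (h3.symm.trans h)
          · exact hRi y hy'.1 (h3.trans h) h
          · exact hRj y hy'.1 h (h3.symm.trans h)
          · exact hRj y hy'.1 (h3.trans h) h
        · exact Or.inr ⟨hy'.1, h3⟩
      · rw [hMm, hM]
    have h3 : (W i ∩ W j).card ≤ E.card := by
      refine card_le_card ?_
      intro y hy
      rw [mem_inter, hW, hW] at hy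
      obtain ⟨⟨hy1, hy2⟩, _, hy3⟩ := hy
      have hyx : y ≠ x := (mem_erase.1 hy1).1
      have h4 : (c1 y = i ∧ c2 y = j) ∨ (c1 y = j ∧ c2 y = i) := by
        rcases hy2 with h | h <;> rcases hy3 with h' | h'
        · exact absurd (h.symm.trans h') hij
        · exact Or.inl ⟨h, h'⟩
        · exact Or.inr ⟨h', h⟩
        · exact absurd (h.symm.trans h') hij
      rw [hE, mem_filter, hMmem]
      refine ⟨⟨hyx, ?_⟩, h4⟩
      rcases h4 with h4 | h4 <;> rw [h4.1, h4.2]
      · exact hij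
      · exact hij.symm
    omega
  -- (7)
  have c1' := two_choose (n + 1)
  have c2' := two_choose (t + 1)
  have hm0 : M'.card = 0 := by
    by_contra hcon
    have h1 : 1 ≤ M'.card := Nat.one_le_iff_ne_zero.2 hcon
    have h2 : E.card ≤ E.card * M'.card := Nat.le_mul_of_pos_right _ h1
    subst hEM
    nlinarith
  intro y hyx hy
  by_contra hcon
  have h1 : y ∈ M' := by
    rw [hM', mem_filter]
    exact ⟨(hMmem y).2 ⟨hyx, hy⟩, hcon⟩
  rw [card_eq_zero] at hm0
  rw [hm0] at h1
  exact absurd h1 (notMem_empty y)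

end Pool.Agent.H24.FD
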