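import Mathlib
import Pool.Agent.H24.FD.P
import Pool.Agent.H24.FD.I

set_option autoImplicit false

/-!
# The graphs with the most colourings in the dense range: the induction
-/

namespace Pool.Agent.H24.FD

open Finset

variable {V : Type*}

open Classical in
/-- the first shape is kept, or it changes to the second one -/
theorem a_step [Fintype V] {G : SimpleGraph V} {k t n : ℕ} (hk : 1 ≤ k)
    (hV : Fintype.card V = n + 1) {x : V} (c1 c2 : V → Fin k)
    (h12 : ∀ y z, y ≠ x → z ≠ x → G.Adj y z →
      c1 y ≠ c1 z ∧ c1 y ≠ c2 z ∧ c2 y ≠ c1 z ∧ c2 y ≠ c2 z)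
    (hM : ((univ.erase x).filter fun y => c1 y ≠ c2 y).card = t)
    (hext : ∀ c : V → Fin k, (∀ y z, y ≠ x → z ≠ x → G.Adj y z → c y ≠ c z) →
      ∃ j, ∀ y, y ≠ x → c y = j → ¬ G.Adj x y)
    (f : Fin k → V) (hf : ∀ i j, i ≠ j → G.Adj (f i) (f j)) (hfx : ∀ i, f i ≠ x)
    (hH : (n + 1).choose 2 + (t + 1).choose 2 < G.edgeFinset.card + T k (n + 1 + (t + 1))) :
    AOn G univ k t ∨ BOn G univ k t := by
  have hmix : ∀ c : V → Fin k, (∀ y, c y = c1 y ∨ c y = c2 y) →
      ∀ y z, y ≠ x → z ≠ x → G.Adj y z → c y ≠ c z := by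
    intro c hc y z hy hz hyz
    have h1 := h12 y z hy hz hyz
    rcases hc y with h2 | h2 <;> rcases hc z with h3 | h3 <;> rw [h2, h3]
    · exact h1.1
    · exact h1.2.1
    · exact h1.2.2.1
    · exact h1.2.2.2
  by_cases hj : ∃ j, ∀ y, y ≠ x → (c1 y = j ∨ c2 y = j) → ¬ G.Adj x y
  · left
    obtain ⟨j, hj⟩ := hj
    refine ⟨Function.update c1 x j, Function.update c2 x j, ?_, ?_⟩
    · intro y _ z _ hyz
      by_cases hy : y = x
      · subst hy
        have hz : z ≠ y := hyz.ne'
        simp only [Function.update_self, Function.update_of_ne hz]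
        have h1 : j ≠ c1 z := fun h => hj z hz (Or.inl h.symm) hyz
        have h2 : j ≠ c2 z := fun h => hj z hz (Or.inr h.symm) hyz
        exact ⟨h1, h2, h1, h2⟩
      · by_cases hz : z = x
        · subst hz
          simp only [Function.update_self, Function.update_of_ne hy]
          have h1 : c1 y ≠ j := fun h => hj y hy (Or.inl h) hyz.symm
          have h2 : c2 y ≠ j := fun h => hj y hy (Or.inr h) hyz.symm
          exact ⟨h1, h1, h2, h2⟩
        · simp only [Function.update_of_ne hy, Function.update_of_ne hz]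
          exact h12 y z hy hz hyz
    · rw [← hM]
      congr 1
      ext y
      rw [mem_filter, mem_filter, mem_erase]
      by_cases hy : y = x
      · subst hy
        simp
      · rw [Function.update_of_ne hy, Function.update_of_ne hy]
        simp [hy]
  · right
    push Not at hj
    -- two classes
    obtain ⟨i, hi⟩ := hext c1 (hmix c1 fun y => Or.inl rfl)
    have hRi : ∀ y, y ≠ x → c1 y = i → c2 y = i → ¬ G.Adj x y := fun y hy h _ => hi y hy h
    obtain ⟨m, hmx, hmi, hm⟩ := hj i
    obtain ⟨j, hij, hRj⟩ : ∃ j, i ≠ j ∧ ∀ y, y ≠ x → c1 y = j → c2 y = j → ¬ G.Adj x y := by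
      obtain ⟨j, hj'⟩ := hext (fun w => if c2 w = i then i else c1 w) (hmix _ fun y => by
        by_cases h : c2 y = i
        · right; simp only [if_pos h]; exact h.symm
        · left; simp only [if_neg h])
      refine ⟨j, ?_, ?_⟩
      · rintro rfl
        refine hj' m hmx ?_ hm
        by_cases h : c2 m = i
        · simp only [if_pos h]
        · simp only [if_neg h]
          exact hmi.resolve_right h
      · intro y hy h1 h2
        refine hj' y hy ?_
        by_cases h : c2 y = i
        · simp only [if_pos h]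
          exact h.symm.trans h2
        · simp only [if_neg h]
          exact h1
    have hkey := count_key hk hV c1 c2 h12 hM i j hij hRi hRj hH
    have hmM : c1 m ≠ c2 m := by
      intro h
      rcases hmi with h1 | h1
      · exact hRi m hmx h1 (h.symm.trans h1) hm
      · exact hRi m hmx (h.trans h1) h1 hm
    have hl : ∀ l, l ≠ i → l ≠ j → ∃ y, y ≠ x ∧ c1 y = l ∧ c2 y = l ∧ G.Adj x y := by
      intro l hli hlj
      obtain ⟨y, hy, h1, h2⟩ := hj l
      have h3 : c1 y = c2 y := by
        by_contra h3
        rcases hkey y hy h3 with h4 | h4 <;> rcases h1 with h1 | h1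
        · exact hli (h1.symm.trans h4.1)
        · exact hlj (h1.symm.trans h4.2)
        · exact hlj (h1.symm.trans h4.1)
        · exact hli (h1.symm.trans h4.2)
      rcases h1 with h1 | h1
      · exact ⟨y, hy, h1, h3.symm.trans h1, h2⟩
      · exact ⟨y, hy, h3.trans h1, h1, h2⟩
    have huniq : ∀ y, y ≠ x → c1 y ≠ c2 y → G.Adj x y → y = m := by
      intro y hy h1 h2
      by_contra hne
      obtain ⟨c, hc⟩ : ∃ c : V → Fin k, ∀ w, c w =
          if c1 w = c2 w then c1 w else if w = m then i else j := ⟨_, fun w => rfl⟩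
      obtain ⟨l, hl'⟩ := hext c (by
        intro w w' hw hw' hadj
        have h5 := h12 w w' hw hw' hadj
        have h6 : ∀ w, w ≠ x → c w = c1 w ∨ c w = c2 w := by
          intro w hw
          rw [hc]
          by_cases h7 : c1 w = c2 w
          · rw [if_pos h7]; exact Or.inl rfl
          · rw [if_neg h7]
            rcases hkey w hw h7 with h8 | h8 <;> rw [h8.1, h8.2]
            · by_cases h9 : w = m
              · rw [if_pos h9]; exact Or.inl rfl
              · rw [if_neg h9]; exact Or.inr rfl
            · by_cases h9 : w = m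
              · rw [if_pos h9]; exact Or.inr rfl
              · rw [if_neg h9]; exact Or.inl rfl
        rcases h6 w hw with h7 | h7 <;> rcases h6 w' hw' with h8 | h8 <;> rw [h7, h8]
        · exact h5.1
        · exact h5.2.1
        · exact h5.2.2.1
        · exact h5.2.2.2)
      have hlm : l ≠ i := by
        rintro rfl
        refine hl' m hmx ?_ hm
        rw [hc, if_neg hmM, if_pos rfl]
      have hly : l ≠ j := by
        rintro rfl
        refine hl' y hy ?_ h2
        rw [hc, if_neg h1, if_neg hne]
      obtain ⟨w, hw, h3, h4, h5⟩ := hl l hlm hly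
      refine hl' w hw ?_ h5
      rw [hc, if_pos (h3.trans h4.symm), h3]
    -- a vertex with the only colour `i`
    have hinj : Function.Injective (fun a => c1 (f a)) := by
      intro a b hab
      by_contra hne
      exact (h12 _ _ (hfx a) (hfx b) (hf a b hne)).1 hab
    have hsur := Finite.surjective_of_injective hinj
    obtain ⟨a, ha⟩ := hsur i
    obtain ⟨b, hb⟩ := hsur j
    change c1 (f a) = i at ha
    change c1 (f b) = j at hb
    have hab : a ≠ b := by
      rintro rfl
      exact hij (ha.symm.trans hb)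
    obtain ⟨r0, hr0x, hr01, hr02⟩ : ∃ r0, r0 ≠ x ∧ c1 r0 = i ∧ c2 r0 = i := by
      refine ⟨f a, hfx a, ha, ?_⟩
      by_contra h1
      have h2 : c1 (f a) ≠ c2 (f a) := fun h => h1 (h.symm.trans ha)
      have h3 := h12 _ _ (hfx a) (hfx b) (hf a b hab)
      rcases hkey _ (hfx a) h2 with h4 | h4
      · exact h3.2.2.1 (h4.2.trans hb.symm)
      · exact hij (ha.symm.trans h4.1)
    obtain ⟨c, hc⟩ : ∃ c : V → Fin k, ∀ w, c w =
        if w = x then i else if c1 w = c2 w then c1 w else j := ⟨_, fun w => rfl⟩
    obtain ⟨κ, hκ⟩ : ∃ κ : V → V, ∀ w, κ w =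
        if w = x then m else if c1 w = c2 w then r0 else w := ⟨_, fun w => rfl⟩
    have hcx : c x = i := by rw [hc, if_pos rfl]
    have hκx : κ x = m := by rw [hκ, if_pos rfl]
    have hcs : ∀ w, w ≠ x → c1 w = c2 w → c w = c1 w ∧ κ w = r0 := by
      intro w hw h
      rw [hc, hκ, if_neg hw, if_neg hw, if_pos h, if_pos h]
      exact ⟨rfl, rfl⟩
    have hcm : ∀ w, w ≠ x → c1 w ≠ c2 w → c w = j ∧ κ w = w := by
      intro w hw h
      rw [hc, hκ, if_neg hw, if_neg hw, if_neg h, if_neg h]
      exact ⟨rfl, rfl⟩
    have hcc : ∀ w, w ≠ x → c w = c1 w ∨ c w = c2 w := by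
      intro w hw
      by_cases h : c1 w = c2 w
      · exact Or.inl (hcs w hw h).1
      · rw [(hcm w hw h).1]
        rcases hkey w hw h with h1 | h1
        · exact Or.inr h1.2.symm
        · exact Or.inl h1.1.symm
    have hxz : ∀ z, z ≠ x → G.Adj x z → c z ≠ i := by
      intro z hz hadj h1
      by_cases h : c1 z = c2 z
      · have h2 := (hcs z hz h).1.symm.trans h1
        exact hRi z hz h2 (h.symm.trans h2) hadj
      · exact hij ((hcm z hz h).1.symm.trans h1).symm
    have hxκ : ∀ z, z ≠ x → G.Adj x z → (c z = i ∨ c z = j) → κ z = m := by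
      intro z hz hadj h1
      by_cases h : c1 z = c2 z
      · exfalso
        rcases h1 with h1 | h1
        · exact hxz z hz hadj h1
        · have h2 := (hcs z hz h).1.symm.trans h1
          exact hRj z hz h2 (h.symm.trans h2) hadj
      · rw [(hcm z hz h).2]
        exact huniq z hz h hadj
    -- a vertex with two colours is isolated in the union of the classes
    have hiso : ∀ y z, y ≠ x → z ≠ x → G.Adj y z → c1 y ≠ c2 y → ¬ (c z = i ∨ c z = j) := by
      intro y z hy hz hadj h h1
      have h2 := h12 y z hy hz hadj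
      rcases hkey y hy h with h3 | h3 <;> rw [h3.1, h3.2] at h2 <;>
        rcases hcc z hz with h4 | h4 <;> rw [h4] at h1 <;> rcases h1 with h1 | h1
      · exact h2.1 h1.symm
      · exact h2.2.2.1 h1.symm
      · exact h2.2.1 h1.symm
      · exact h2.2.2.2 h1.symm
      · exact h2.2.2.1 h1.symm
      · exact h2.1 h1.symm
      · exact h2.2.2.2 h1.symm
      · exact h2.2.1 h1.symm
    refine ⟨c, κ, i, j, hij, ?_, ?_, ?_⟩
    · intro y _ z _ hyz
      by_cases hy : y = x
      · subst hy
        rw [hcx]
        exact (hxz z hyz.ne' hyz).symm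
      · by_cases hz : z = x
        · subst hz
          rw [hcx]
          exact hxz y hy hyz.symm
        · have h5 := h12 y z hy hz hyz
          rcases hcc y hy with h7 | h7 <;> rcases hcc z hz with h8 | h8 <;> rw [h7, h8]
          · exact h5.1
          · exact h5.2.1
          · exact h5.2.2.1
          · exact h5.2.2.2
    · intro y _ z _ hyz h1 h2
      by_cases hy : y = x
      · subst hy
        rw [hκx]
        exact (hxκ z hyz.ne' hyz h2).symm
      · by_cases hz : z = x
        · subst hz
          rw [hκx]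
          exact hxκ y hy hyz.symm h1
        · by_cases h3 : c1 y = c2 y
          · by_cases h4 : c1 z = c2 z
            · rw [(hcs y hy h3).2, (hcs z hz h4).2]
            · exact absurd h1 (hiso z y hz hy hyz.symm h4)
          · exact absurd h2 (hiso y z hy hz hyz h3)
    · obtain ⟨M, hMd⟩ : ∃ M : Finset V, M = (univ.erase x).filter fun y => c1 y ≠ c2 y := ⟨_, rfl⟩
      have hr0M : r0 ∉ M := by
        rw [hMd, mem_filter]
        exact fun h => h.2 (hr01.trans hr02.symm)
      have h1 : (insert r0 M).card = t + 1 := by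
        rw [card_insert_of_notMem hr0M, hMd, hM]
      refine ⟨insert r0 M, h1.ge, fun w hw => ?_⟩
      refine ⟨w, mem_univ _, ?_, ?_⟩
      · rcases mem_insert.1 hw with hw | hw
        · left
          rw [hw, (hcs r0 hr0x (hr01.trans hr02.symm)).1, hr01]
        · right
          rw [hMd, mem_filter, mem_erase] at hw
          exact (hcm w hw.1.1 hw.2).1
      · rcases mem_insert.1 hw with hw | hw
        · rw [hw]
          exact (hcs r0 hr0x (hr01.trans hr02.symm)).2
        · rw [hMd, mem_filter, mem_erase] at hw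
          exact (hcm w hw.1.1 hw.2).2

open Classical in
lemma not_free {k n t : ℕ} (hk : 2 ≤ k) [Fintype V] (hV : Fintype.card V = n)
    (G : SimpleGraph V)
    (hH : n.choose 2 + (t + 1).choose 2 < G.edgeFinset.card + T k (n + (t + 1))) :
    ¬ G.CliqueFree k := by
  intro hcl
  obtain ⟨j, rfl⟩ : ∃ j, k = j + 1 := ⟨k - 1, by omega⟩
  have h1 := SimpleGraph.CliqueFree.card_edgeFinset_le (r := j) (G := G) hcl
  have h2 := T_turan j (by omega) n
  rw [SimpleGraph.card_edgeFinset_turanGraph] at h2
  have h3 := T_le_drop j (by omega) n (t + 1)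
  simp only [hV] at h1
  omega

open Classical in
theorem dense_shape (k t : ℕ) (hk : 2 ≤ k) : ∀ (n : ℕ) (V : Type) [Fintype V],
    Fintype.card V = n → ∀ (G : SimpleGraph V), 2 ^ t ≤ colNum G k →
    n.choose 2 + (t + 1).choose 2 < G.edgeFinset.card + T k (n + (t + 1)) →
    AOn G univ k t ∨ BOn G univ k t := by
  intro n
  induction n with
  | zero =>
    intro V _ hV G _ hH
    exfalso
    have : IsEmpty V := Fintype.card_eq_zero_iff.1 hV
    refine not_free hk hV G hH ?_
    exact SimpleGraph.CliqueFree.mono (by omega : 1 ≤ k) (SimpleGraph.cliqueFree_one.2 inferInstance)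
  | succ n ih =>
    intro V _ hV G hp hH
    have hcl := not_free hk hV G hH
    rw [SimpleGraph.not_cliqueFree_iff_top_isContained] at hcl
    obtain ⟨f⟩ := hcl
    obtain ⟨x, hxdef⟩ : ∃ x : Fin k → V, x = fun i => f i := ⟨_, rfl⟩
    have hx : ∀ i j, i ≠ j → G.Adj (x i) (x j) := by
      intro i j hij
      rw [hxdef]
      exact f.toHom.map_adj hij
    have h3 : ∑ y : V, (univ.filter fun i => ¬ G.Adj (x i) y).card
        = ∑ i : Fin k, (univ.filter fun y => ¬ G.Adj (x i) y).card := by
      simp only [card_filter]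
      exact sum_comm
    by_cases hS : ∑ y : V, (univ.filter fun i => ¬ G.Adj (x i) y).card ≤ Fintype.card V + t
    · exact Or.inl (tight hx hp hS)
    · push Not at hS
      rw [h3, hV] at hS
      obtain ⟨i, hi⟩ : ∃ i : Fin k,
          (n + (t + 1)) / k + 1 ≤ (univ.filter fun y => ¬ G.Adj (x i) y).card := by
        by_contra hcon
        push Not at hcon
        have h4 : ∑ i : Fin k, (univ.filter fun y => ¬ G.Adj (x i) y).card
            ≤ ∑ _i : Fin k, (n + (t + 1)) / k := by
          refine sum_le_sum fun i _ => ?_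
          have := hcon i
          generalize (n + (t + 1)) / k = q at this ⊢
          omega
        rw [sum_const, card_univ, Fintype.card_fin, smul_eq_mul] at h4
        have := Nat.mul_div_le (n + (t + 1)) k
        omega
      have h5 : G.degree (x i) + (univ.filter fun y => ¬ G.Adj (x i) y).card = n + 1 := by
        rw [← SimpleGraph.card_neighborFinset_eq_degree, SimpleGraph.neighborFinset_eq_filter,
          card_filter_add_card_filter_not, card_univ, hV]
      have h6 := SimpleGraph.card_edgeFinset_induce_compl_singleton G (x i)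
      have hcard : Fintype.card ({x i}ᶜ : Set V) = n := by
        rw [Fintype.card_compl_set, hV]
        simp
      have h7 := colNum_le_restrict hx i
      have h9 : G.degree (x i) ≤ G.edgeFinset.card := by
        rw [← SimpleGraph.card_incidenceFinset_eq_degree]
        exact card_le_card (SimpleGraph.incidenceFinset_subset G (x i))
      have h11 : (G.induce ({x i}ᶜ : Set V)).edgeFinset.card
          = G.edgeFinset.card - G.degree (x i) := by
        rw [← SimpleGraph.card_edgeFinset_deleteIncidenceSet, ← h6]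
      have hH2 : n.choose 2 + (t + 1).choose 2
          < (G.induce ({x i}ᶜ : Set V)).edgeFinset.card + T k (n + (t + 1)) := by
        have hH3 := hH
        have h10 : n + 1 + (t + 1) = (n + (t + 1)) + 1 := by ring
        rw [h10, T_succ, choose_two_succ n] at hH3
        rw [h11]
        generalize (n + (t + 1)) / k = q at hi hH3
        omega
      have hH2' : n.choose 2 + (t + 1).choose 2
          < (@SimpleGraph.edgeFinset _ (G.induce ({x i}ᶜ : Set V)) (Fintype.ofFinite _)).card
            + T k (n + (t + 1)) :=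
        lt_of_lt_of_le hH2 (le_of_eq (congrArg (· + T k (n + (t + 1))) (card_edge_inst _ _ _)))
      have hle : colNum (G.induce ({x i}ᶜ : Set V)) k ≤ colNum G k := by
        by_contra hcon
        push Not at hcon
        have hlt : 2 ^ t < colNum (G.induce ({x i}ᶜ : Set V)) k := lt_of_le_of_lt hp hcon
        have h12 : t + 1 ≤ Nat.clog 2 (colNum (G.induce ({x i}ᶜ : Set V)) k) := by
          by_contra hcon2
          push Not at hcon2
          have h13 := Nat.le_pow_clog one_lt_two (colNum (G.induce ({x i}ᶜ : Set V)) k)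
          have h14 : 2 ^ Nat.clog 2 (colNum (G.induce ({x i}ᶜ : Set V)) k) ≤ 2 ^ t :=
            Nat.pow_le_pow_right (by norm_num) (by omega)
          omega
        have h15 := edge_bound k (by omega) n ({x i}ᶜ : Set V) hcard
          (G.induce ({x i}ᶜ : Set V)) (t + 1) (by omega) h12
        have h16 : (G.induce ({x i}ᶜ : Set V)).edgeFinset.card + T k (n + (t + 1))
            ≤ n.choose 2 + (t + 1).choose 2 :=
          le_trans (le_of_eq (congrArg (· + T k (n + (t + 1))) (card_edge_inst _ _ _))) h15
        omega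
      have hclG' : ¬ (G.induce ({x i}ᶜ : Set V)).CliqueFree k := by
        refine not_free hk hcard (G.induce ({x i}ᶜ : Set V)) (t := t) ?_
        exact lt_of_lt_of_le hH2 (le_of_eq (congrArg (· + T k (n + (t + 1)))
          (card_edge_inst _ _ _)))
      have hext := fun c hc => ext_all hx i hle hclG' c hc
      have hcl2 := hclG'
      rw [SimpleGraph.not_cliqueFree_iff_top_isContained] at hcl2
      obtain ⟨g⟩ := hcl2
      have hg : ∀ a b : Fin k, a ≠ b → G.Adj (g a : V) (g b : V) :=
        fun a b hab => g.toHom.map_adj hab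
      have hne : Nonempty (Fin k) := ⟨⟨0, by omega⟩⟩
      obtain ⟨d0⟩ := hne
      rcases ih ({x i}ᶜ : Set V) hcard (G.induce ({x i}ᶜ : Set V)) (hp.trans h7)
        (lt_of_lt_of_le hH2 (le_of_eq (congrArg (· + T k (n + (t + 1)))
          (card_edge_inst _ _ _)))) with hA | hB
      · obtain ⟨c1', c2', h12', hM'⟩ := hA
        obtain ⟨c1, hc1⟩ : ∃ c : V → Fin k, ∀ (y : V) (hy : y ∈ ({x i}ᶜ : Set V)),
            c y = c1' ⟨y, hy⟩ :=
          ⟨fun y => if h : y ∈ ({x i}ᶜ : Set V) then c1' ⟨y, h⟩ else d0, fun y hy => dif_pos hy⟩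
        obtain ⟨c2, hc2⟩ : ∃ c : V → Fin k, ∀ (y : V) (hy : y ∈ ({x i}ᶜ : Set V)),
            c y = c2' ⟨y, hy⟩ :=
          ⟨fun y => if h : y ∈ ({x i}ᶜ : Set V) then c2' ⟨y, h⟩ else d0, fun y hy => dif_pos hy⟩
        refine a_step (by omega) hV (x := x i) c1 c2 ?_ ?_ hext (fun a => (g a : V)) hg
          (fun a => (g a).2) hH
        · intro y z hy hz hyz
          rw [hc1 y hy, hc1 z hz, hc2 y hy, hc2 z hz]
          exact h12' ⟨y, hy⟩ (mem_univ _) ⟨z, hz⟩ (mem_univ _) hyz
        · rw [← hM']
          exact card_filter_compl (x i) (fun y => c1 y ≠ c2 y) (fun y => c1' y ≠ c2' y)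
            (fun y hy => by rw [hc1 y hy, hc2 y hy])
      · right
        obtain ⟨c', κ', a, b, hab, hc', hκ', hcard'⟩ := hB
        obtain ⟨c, hc⟩ : ∃ c : V → Fin k, ∀ (y : V) (hy : y ∈ ({x i}ᶜ : Set V)),
            c y = c' ⟨y, hy⟩ :=
          ⟨fun y => if h : y ∈ ({x i}ᶜ : Set V) then c' ⟨y, h⟩ else d0, fun y hy => dif_pos hy⟩
        obtain ⟨κ, hκ⟩ : ∃ κ : V → V, ∀ (y : V) (hy : y ∈ ({x i}ᶜ : Set V)),
            κ y = (κ' ⟨y, hy⟩ : V) :=
          ⟨fun y => if h : y ∈ ({x i}ᶜ : Set V) then (κ' ⟨y, h⟩ : V) else y,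
            fun y hy => dif_pos hy⟩
        refine b_step c κ a b hab ?_ ?_ ?_ hext
        · intro y z hy hz hyz
          rw [hc y hy, hc z hz]
          exact hc' ⟨y, hy⟩ (mem_univ _) ⟨z, hz⟩ (mem_univ _) hyz
        · intro y z hy hz hyz h1 h2
          rw [hc y hy] at h1
          rw [hc z hz] at h2
          rw [hκ y hy, hκ z hz]
          exact congrArg Subtype.val
            (hκ' ⟨y, hy⟩ (mem_univ _) ⟨z, hz⟩ (mem_univ _) hyz h1 h2)
        · obtain ⟨S, hS, hSw⟩ := hcard'
          refine ⟨S.map (Function.Embedding.subtype _), by rwa [card_map], fun w hw => ?_⟩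
          rw [mem_map] at hw
          obtain ⟨w', hw', rfl⟩ := hw
          obtain ⟨y, _, hy1, hy2⟩ := hSw w' hw'
          refine ⟨y.1, y.2, ?_, ?_⟩
          · rw [hc y.1 y.2]
            exact hy1
          · rw [hκ y.1 y.2]
            exact congrArg Subtype.val hy2

end Pool.Agent.H24.FD
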