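import Mathlib
import Pool.Agent.H24.FD.Q
import Pool.Agent.H24.FD.L

set_option autoImplicit false

/-!
# The graphs with the most colourings in the dense range: the converse
-/

namespace Pool.Agent.H24.FD

open Finset

variable {V : Type*}

open Classical in
theorem num_eq [Fintype V] {G : SimpleGraph V} {k : ℕ} (hcl : ¬ G.CliqueFree k) :
    Nat.card {c : V → Fin k // ∀ u v, G.Adj u v → c u ≠ c v} = k.factorial * colNum G k := by
  rw [SimpleGraph.not_cliqueFree_iff_top_isContained] at hcl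
  obtain ⟨f⟩ := hcl
  obtain ⟨x, hxdef⟩ : ∃ x : Fin k → V, x = fun i => f i := ⟨_, rfl⟩
  have hx : ∀ i j, i ≠ j → G.Adj (x i) (x j) := by
    intro i j hij
    rw [hxdef]
    exact f.toHom.map_adj hij
  have h1 : (cols G x).card = colNum G k := by
    refine le_antisymm ?_ (colNum_le_cols hx)
    refine colNum_ge (cols G x) (fun g => g) (fun g hg => (mem_cols.1 hg).2) ?_
    intro g hg g' hg' h
    funext y
    have h2 : g y = g (x (g y)) := ((mem_cols.1 hg).1 _).symm
    have h3 := (h y (x (g y))).1 h2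
    rw [(mem_cols.1 hg').1] at h3
    exact h3.symm
  obtain ⟨F, hF⟩ : ∃ F : Equiv.Perm (Fin k) × cols G x →
      {c : V → Fin k // ∀ u v, G.Adj u v → c u ≠ c v}, ∀ p y, (F p).1 y = p.1 (p.2.1 y) := by
    refine ⟨fun p => ⟨fun y => p.1 (p.2.1 y), fun u v huv h => ?_⟩, fun p y => rfl⟩
    exact (mem_cols.1 p.2.2).2 u v huv (p.1.injective h)
  have hbij : Function.Bijective F := by
    constructor
    · intro p p' h
      have h2 : ∀ y, p.1 (p.2.1 y) = p'.1 (p'.2.1 y) := by
        intro y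
        rw [← hF, ← hF, h]
      have h3 : p.1 = p'.1 := by
        apply Equiv.ext
        intro i
        have h4 := h2 (x i)
        rwa [(mem_cols.1 p.2.2).1, (mem_cols.1 p'.2.2).1] at h4
      apply Prod.ext h3
      apply Subtype.ext
      funext y
      have h4 := h2 y
      rw [← h3] at h4
      exact p.1.injective h4
    · intro c
      have hinj : Function.Injective (fun i => c.1 (x i)) := by
        intro i j hij
        by_contra hne
        exact c.2 _ _ (hx i j hne) hij
      obtain ⟨σ, hσ⟩ : ∃ σ : Equiv.Perm (Fin k), ∀ i, σ i = c.1 (x i) :=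
        ⟨Equiv.ofBijective _ (Finite.injective_iff_bijective.1 hinj), fun i => rfl⟩
      have hg : (fun y => σ.symm (c.1 y)) ∈ cols G x := by
        rw [mem_cols]
        refine ⟨fun i => ?_, fun y z hyz h => ?_⟩
        · rw [← hσ i, Equiv.symm_apply_apply]
        · exact c.2 y z hyz (σ.symm.injective h)
      refine ⟨(σ, ⟨_, hg⟩), ?_⟩
      apply Subtype.ext
      funext y
      rw [hF]
      exact Equiv.apply_symm_apply _ _
  rw [← Nat.card_eq_of_bijective F hbij, Nat.card_prod, Nat.card_perm, Nat.card_eq_fintype_card,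
    Fintype.card_fin, Nat.card_eq_fintype_card, Fintype.card_coe, h1]

/-- kernels of colourings which agree on a clique -/
lemma ker_agree {G : SimpleGraph V} {k : ℕ} {x : Fin k → V}
    (hx : ∀ i j, i ≠ j → G.Adj (x i) (x j)) {g g' : V → Fin k}
    (hg : ∀ y z, G.Adj y z → g y ≠ g z) (hx' : ∀ i, g (x i) = g' (x i))
    (h : ∀ y z, g y = g z ↔ g' y = g' z) (y : V) : g y = g' y := by
  have hinj : Function.Injective (fun i => g (x i)) := by
    intro i j hij
    by_contra hne
    exact hg _ _ (hx i j hne) hij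
  obtain ⟨i, hi⟩ := Finite.surjective_of_injective hinj (g y)
  change g (x i) = g y at hi
  have h1 := (h y (x i)).1 hi.symm
  rw [h1, ← hx' i, hi]

open Classical in
theorem a_ge [Fintype V] {G : SimpleGraph V} {k t : ℕ} {x : Fin k → V}
    (hx : ∀ i j, i ≠ j → G.Adj (x i) (x j)) (h : AOn G univ k t) : 2 ^ t ≤ colNum G k := by
  obtain ⟨c1, c2, h12, hM⟩ := h
  have h12' : ∀ y z, G.Adj y z → c1 y ≠ c1 z ∧ c1 y ≠ c2 z ∧ c2 y ≠ c1 z ∧ c2 y ≠ c2 z :=
    fun y z => h12 y (mem_univ _) z (mem_univ _)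
  rw [← hM, ← card_powerset]
  have hcx : ∀ i, c2 (x i) = c1 (x i) := by
    intro i
    have hinj : Function.Injective (fun i => c1 (x i)) := by
      intro i j hij
      by_contra hne
      exact (h12' _ _ (hx i j hne)).1 hij
    obtain ⟨j, hj⟩ := Finite.surjective_of_injective hinj (c2 (x i))
    change c1 (x j) = c2 (x i) at hj
    by_cases hij : i = j
    · rw [← hj, hij]
    · exact absurd hj.symm (h12' _ _ (hx i j hij)).2.2.1
  obtain ⟨g, hg⟩ : ∃ g : Finset V → V → Fin k, ∀ B y, g B y = if y ∈ B then c2 y else c1 y :=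
    ⟨_, fun B y => rfl⟩
  have hprop : ∀ B y z, G.Adj y z → g B y ≠ g B z := by
    intro B y z hyz
    have h1 := h12' y z hyz
    rw [hg, hg]
    split_ifs
    · exact h1.2.2.2
    · exact h1.2.2.1
    · exact h1.2.1
    · exact h1.1
  refine colNum_ge _ g (fun B _ => hprop B) ?_
  intro B hB B' hB' hker
  have hgx : ∀ B i, g B (x i) = c1 (x i) := by
    intro B i
    rw [hg]
    split_ifs
    · exact hcx i
    · rfl
  have hag := ker_agree hx (hprop B) (fun i => (hgx B i).trans (hgx B' i).symm) hker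
  have hiff : ∀ B, ∀ y, c1 y ≠ c2 y → (y ∈ B ↔ g B y = c2 y) := by
    intro B y hy
    rw [hg]
    split_ifs with h1
    · exact ⟨fun _ => rfl, fun _ => h1⟩
    · exact ⟨fun h2 => absurd h2 h1, fun h2 => absurd h2 hy⟩
  ext y
  constructor
  · intro hy
    have h1 := (mem_filter.1 (mem_powerset.1 hB hy)).2
    rw [hiff B' y h1, ← hag y, ← hiff B y h1]
    exact hy
  · intro hy
    have h1 := (mem_filter.1 (mem_powerset.1 hB' hy)).2
    rw [hiff B y h1, hag y, ← hiff B' y h1]
    exact hy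

open Classical in
theorem b_ge [Fintype V] {G : SimpleGraph V} {k : ℕ} {x : Fin k → V}
    (hx : ∀ i j, i ≠ j → G.Adj (x i) (x j)) {ι : Type*} (c : V → Fin k) (κ : V → ι)
    (a b : Fin k) (hab : a ≠ b) (hc : ∀ y z, G.Adj y z → c y ≠ c z)
    (hκ : ∀ y z, G.Adj y z → (c y = a ∨ c y = b) → (c z = a ∨ c z = b) → κ y = κ z)
    (S : Finset ι) (hS : ∀ w ∈ S, ∃ y, (c y = a ∨ c y = b) ∧ κ y = w) :
    2 ^ (S.card - 1) ≤ colNum G k := by
  have hinj : Function.Injective (fun i => c (x i)) := by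
    intro i j hij
    by_contra hne
    exact hc _ _ (hx i j hne) hij
  have hsur := Finite.surjective_of_injective hinj
  obtain ⟨ia, hia⟩ := hsur a
  obtain ⟨ib, hib⟩ := hsur b
  change c (x ia) = a at hia
  change c (x ib) = b at hib
  have hiab : ia ≠ ib := by
    rintro rfl
    exact hab (hia.symm.trans hib)
  have hκab := hκ _ _ (hx ia ib hiab) (Or.inl hia) (Or.inr hib)
  have hcard : S.card - 1 ≤ (S.erase (κ (x ia))).card := pred_card_le_card_erase
  refine le_trans (Nat.pow_le_pow_right (by norm_num) hcard) ?_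
  rw [← card_powerset]
  obtain ⟨g, hg⟩ : ∃ g : Finset ι → V → Fin k, ∀ B y, g B y =
      if (c y = a ∨ c y = b) ∧ κ y ∈ B then Equiv.swap a b (c y) else c y :=
    ⟨_, fun B y => rfl⟩
  have hnot : ∀ B w, ¬ (c w = a ∨ c w = b) → g B w = c w := by
    intro B w hw
    rw [hg, if_neg (fun h => hw h.1)]
  have hin : ∀ B w, (c w = a ∨ c w = b) → (g B w = a ∨ g B w = b) := by
    intro B w hw
    rw [hg]
    split_ifs
    · rcases hw with hw | hw
      · rw [hw, Equiv.swap_apply_left]; exact Or.inr rfl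
      · rw [hw, Equiv.swap_apply_right]; exact Or.inl rfl
    · exact hw
  have hprop : ∀ B w w', G.Adj w w' → g B w ≠ g B w' := by
    intro B w w' hadj
    have h1 := hc w w' hadj
    by_cases h2 : c w = a ∨ c w = b
    · by_cases h3 : c w' = a ∨ c w' = b
      · have h4 := hκ w w' hadj h2 h3
        rw [hg, hg B w']
        by_cases h5 : κ w ∈ B
        · rw [if_pos ⟨h2, h5⟩, if_pos ⟨h3, h4 ▸ h5⟩]
          exact fun h6 => h1 ((Equiv.swap a b).injective h6)
        · rw [if_neg (fun h => h5 h.2), if_neg (fun h => h5 (h4.symm ▸ h.2))]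
          exact h1
      · rw [hnot B w' h3]
        intro h6
        exact h3 (h6 ▸ hin B w h2)
    · rw [hnot B w h2]
      by_cases h3 : c w' = a ∨ c w' = b
      · intro h6
        exact h2 (h6 ▸ hin B w' h3)
      · rw [hnot B w' h3]
        exact h1
  refine colNum_ge _ g (fun B _ => hprop B) ?_
  intro B hB B' hB' hker
  have hgx : ∀ B ∈ (S.erase (κ (x ia))).powerset, ∀ i, g B (x i) = c (x i) := by
    intro B hB i
    rw [hg]
    apply if_neg
    rintro ⟨h1, h2⟩
    have h3 := (mem_erase.1 (mem_powerset.1 hB h2)).1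
    rcases h1 with h1 | h1
    · have h4 : i = ia := hinj (h1.trans hia.symm)
      rw [h4] at h3
      exact h3 rfl
    · have h4 : i = ib := hinj (h1.trans hib.symm)
      rw [h4, hκab] at h3
      exact h3 rfl
  have hag := ker_agree hx (hprop B) (fun i => (hgx B hB i).trans (hgx B' hB' i).symm) hker
  have hiff : ∀ B, ∀ y, (c y = a ∨ c y = b) → (κ y ∈ B ↔ g B y ≠ c y) := by
    intro B y hy
    rw [hg]
    by_cases h1 : κ y ∈ B
    · rw [if_pos ⟨hy, h1⟩]
      refine ⟨fun _ => ?_, fun _ => h1⟩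
      rcases hy with hy | hy
      · rw [hy, Equiv.swap_apply_left]; exact hab.symm
      · rw [hy, Equiv.swap_apply_right]; exact hab
    · rw [if_neg (fun h => h1 h.2)]
      exact ⟨fun h => absurd h h1, fun h => absurd rfl h⟩
  ext w
  constructor
  · intro hw
    obtain ⟨y, hy, rfl⟩ := hS w (mem_erase.1 (mem_powerset.1 hB hw)).2
    rw [hiff B' y hy, ← hag y, ← hiff B y hy]
    exact hw
  · intro hw
    obtain ⟨y, hy, rfl⟩ := hS w (mem_erase.1 (mem_powerset.1 hB' hw)).2
    rw [hiff B y hy, hag y, ← hiff B' y hy]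
    exact hw

lemma colNum_anti [Finite V] {G H : SimpleGraph V} (k : ℕ) (h : H ≤ G) :
    colNum G k ≤ colNum H k := by
  have := finite_setoid V
  unfold colNum
  refine Nat.card_le_card_of_injective
    (fun r : {r : Setoid V // IsCol G k r} => (⟨r.1, r.2.1, fun x y hxy hadj =>
      r.2.2 x y hxy (h hadj)⟩ : {r : Setoid V // IsCol H k r})) ?_
  intro r r' hrr
  have h1 := congrArg Subtype.val hrr
  exact Subtype.ext h1

lemma exists_sub_edges {n : ℕ} (G : SimpleGraph (Fin n)) (m : ℕ) (hm : m ≤ G.edgeSet.ncard) :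
    ∃ H : SimpleGraph (Fin n), H ≤ G ∧ H.edgeSet.ncard = m := by
  obtain ⟨s, hs, hsm⟩ := Set.exists_subset_card_eq hm
  refine ⟨SimpleGraph.fromEdgeSet s, ?_, ?_⟩
  · intro a b hab
    rw [SimpleGraph.fromEdgeSet_adj] at hab
    exact hs hab.1
  · rw [SimpleGraph.edgeSet_fromEdgeSet]
    rw [← hsm]
    congr 1
    ext e
    constructor
    · exact fun h => h.1
    · exact fun h => ⟨h, fun h1 => G.not_isDiag_of_mem_edgeSet (hs h) h1⟩

lemma colNum_le_of {k n t : ℕ} (hk : 2 ≤ k) (G : SimpleGraph (Fin n))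
    (hH : n.choose 2 + (t + 1).choose 2 < G.edgeSet.ncard + T k (n + (t + 1))) :
    colNum G k ≤ 2 ^ t := by
  classical
  by_contra hcon
  push Not at hcon
  have h12 : t + 1 ≤ Nat.clog 2 (colNum G k) := by
    by_contra hcon2
    push Not at hcon2
    have h13 := Nat.le_pow_clog one_lt_two (colNum G k)
    have h14 : 2 ^ Nat.clog 2 (colNum G k) ≤ 2 ^ t :=
      Nat.pow_le_pow_right (by norm_num) (by omega)
    omega
  have h0 : 1 ≤ 2 ^ t := Nat.one_le_two_pow
  have h15 := edge_bound k (by omega) n (Fin n) (Fintype.card_fin n) G (t + 1) (by omega) h12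
  have h16 : G.edgeSet.ncard + T k (n + (t + 1)) ≤ n.choose 2 + (t + 1).choose 2 := by
    rw [← SimpleGraph.coe_edgeFinset, Set.ncard_coe_finset]
    exact le_trans (le_of_eq (congrArg (· + T k (n + (t + 1))) (card_edge_inst _ _ _))) h15
  omega

lemma choose_add_two (n t : ℕ) : (n + t).choose 2 = n.choose 2 + t.choose 2 + n * t := by
  have h1 := two_choose (n + t)
  have h2 := two_choose n
  have h3 := two_choose t
  nlinarith

/-- the sizes -/
lemma range_lower {q n t m : ℕ} (hq : 2 ≤ q)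
    (h1 : n.choose 2 < m + T (q - 1) n) (h3 : (q - 1) * t ≤ n)
    (h4 : m + T q (n + t) ≤ n.choose 2 + t.choose 2) : (q - 1) * t + 1 ≤ n := by
  by_contra hcon
  have h5 : n = (q - 1) * t := by omega
  obtain ⟨j, rfl⟩ : ∃ j, q = j + 1 := ⟨q - 1, by omega⟩
  rw [Nat.add_sub_cancel] at h1 h5
  have h6 : ∑ _i : Fin j, t.choose 2 = T j n :=
    bal_T (by omega) (r := fun _ => t) (by simp [h5]) (fun _ _ => Nat.le_succ _)
  have h7 : ∑ _i : Fin (j + 1), t.choose 2 = T (j + 1) (n + t) :=
    bal_T (by omega) (r := fun _ => t) (by simp [h5]; ring) (fun _ _ => Nat.le_succ _)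
  rw [sum_const, card_univ, Fintype.card_fin, smul_eq_mul] at h6 h7
  have h8 : (j + 1) * t.choose 2 = j * t.choose 2 + t.choose 2 := by ring
  omega

lemma range_upper {q n t m : ℕ} (hq : 2 ≤ q)
    (h1 : n.choose 2 < m + T (q - 1) n) (h3 : (q - 1) * t ≤ n) (h5 : n < (q - 1) * (t + 1)) :
    n.choose 2 + (t + 1).choose 2 < m + T q (n + (t + 1)) := by
  obtain ⟨j, rfl⟩ : ∃ j, q = j + 1 := ⟨q - 1, by omega⟩
  rw [Nat.add_sub_cancel] at h1 h3 h5
  obtain ⟨b, hb, hlo, hhi, hT⟩ := exists_balanced j (by omega) n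
  have hdiv : n / j = t := by
    apply Nat.div_eq_of_lt_le
    · rw [mul_comm]; exact h3
    · rw [mul_comm]; exact h5
  rw [hdiv] at hlo hhi
  have h6 : ∑ i, ((Fin.cons (t + 1) b : Fin (j + 1) → ℕ) i).choose 2 = T (j + 1) (n + (t + 1)) := by
    apply bal_T (by omega)
    · rw [Fin.sum_univ_succ]
      simp only [Fin.cons_zero, Fin.cons_succ]
      omega
    · have h7 : ∀ i, t ≤ (Fin.cons (t + 1) b : Fin (j + 1) → ℕ) i ∧
          (Fin.cons (t + 1) b : Fin (j + 1) → ℕ) i ≤ t + 1 := by
        intro i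
        refine Fin.cases ?_ (fun l => ?_) i
        · rw [Fin.cons_zero]; omega
        · rw [Fin.cons_succ]; exact ⟨hlo l, hhi l⟩
      intro i l
      have h8 := h7 i
      have h9 := h7 l
      omega
  rw [Fin.sum_univ_succ] at h6
  simp only [Fin.cons_zero, Fin.cons_succ] at h6
  omega

end Pool.Agent.H24.FD
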